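import Pool.Agent.Helper19.SQ.GoalsS

/-!
Project SQ (MP_bb32d1_al), helper19: HOMG and ZDEG.
-/

namespace Pool.Agent.Helper19.SQ

noncomputable section

variable {N l : ℕ} {q : ℂ}

/-- elements of degree `mu`. -/
def Gdeg (N l : ℕ) (q : ℂ) (hl : l ≠ 0) (μ : Fin (N + 1) → ℤ) : Submodule ℂ (A N l q) where
  carrier := {x | ∀ s : ℕ → ℂˣ, tor N l q hl s x = tw N s μ • x}
  add_mem' := by
    intro a b ha hb s
    rw [map_add, ha s, hb s, smul_add]
  zero_mem' := by
    intro s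
    rw [map_zero, smul_zero]
  smul_mem' := by
    intro c a ha s
    rw [map_smul, ha s, smul_comm]

theorem tw_zero (s : ℕ → ℂˣ) : tw N s 0 = 1 := by
  simp [tw]

theorem tw_add (s : ℕ → ℂˣ) (μ ν : Fin (N + 1) → ℤ) :
    tw N s (μ + ν) = tw N s μ * tw N s ν := by
  unfold tw
  rw [← Finset.prod_mul_distrib]
  refine Finset.prod_congr rfl fun j _ => ?_
  rw [Pi.add_apply, zpow_add₀ (s j).ne_zero]

theorem tw_single (s : ℕ → ℂˣ) (i : Fin (N + 1)) (c : ℤ) :
    tw N s (Pi.single i c) = (s i : ℂ) ^ c := by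
  unfold tw
  rw [Finset.prod_eq_single i]
  · simp
  · intro j _ hj
    simp [Pi.single_eq_of_ne hj]
  · simp

theorem tw_ne_zero (s : ℕ → ℂˣ) (μ : Fin (N + 1) → ℤ) : tw N s μ ≠ 0 := by
  unfold tw
  exact Finset.prod_ne_zero_iff.2 fun j _ => zpow_ne_zero _ (s j).ne_zero

theorem mem_Gdeg {hl : l ≠ 0} {μ : Fin (N + 1) → ℤ} {x : A N l q} :
    x ∈ Gdeg N l q hl μ ↔ ∀ s : ℕ → ℂˣ, tor N l q hl s x = tw N s μ • x := Iff.rfl

theorem Gdeg_mul {hl : l ≠ 0} {μ ν : Fin (N + 1) → ℤ} {x y : A N l q}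
    (hx : x ∈ Gdeg N l q hl μ) (hy : y ∈ Gdeg N l q hl ν) :
    x * y ∈ Gdeg N l q hl (μ + ν) := by
  intro s
  rw [map_mul, hx s, hy s, smul_mul_smul_comm, tw_add]

theorem Gdeg_E (hl : l ≠ 0) (i : ℕ) (h : i < N) :
    gE N l q i ∈ Gdeg N l q hl
      (Pi.single ⟨i, by omega⟩ 1 + Pi.single ⟨i + 1, by omega⟩ (-1)) := by
  intro s
  rw [tor_E, tw_add, tw_single, tw_single, zpow_one, zpow_neg_one]

theorem Gdeg_F (hl : l ≠ 0) (i : ℕ) (h : i < N) :
    gF N l q i ∈ Gdeg N l q hl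
      (Pi.single ⟨i, by omega⟩ (-1) + Pi.single ⟨i + 1, by omega⟩ 1) := by
  intro s
  rw [tor_F, tw_add, tw_single, tw_single, zpow_one, zpow_neg_one]

theorem Gdeg_K (hl : l ≠ 0) (i : ℕ) : gK N l q i ∈ Gdeg N l q hl 0 := by
  intro s
  rw [tor_K, tw_zero, one_smul]

theorem Gdeg_iSup (hl : l ≠ 0) : ⨆ μ, Gdeg N l q hl μ = ⊤ := by
  rw [eq_top_iff]
  intro a _
  have hle : ∀ μ, Gdeg N l q hl μ ≤ ⨆ μ, Gdeg N l q hl μ := fun μ => le_iSup _ μ
  refine A_induction (P := fun a => a ∈ ⨆ μ, Gdeg N l q hl μ) ?_ ?_ ?_ ?_ ?_ ?_ a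
  · intro c
    refine hle 0 ?_
    intro s
    rw [AlgHom.commutes, tw_zero, one_smul]
  · intro i
    by_cases h : i < N
    · exact hle _ (Gdeg_E hl i h)
    · change gE N l q i ∈ _
      rw [(glA N l q).E_out i (by omega)]; exact Submodule.zero_mem _
  · intro i
    by_cases h : i < N
    · exact hle _ (Gdeg_F hl i h)
    · change gF N l q i ∈ _
      rw [(glA N l q).F_out i (by omega)]; exact Submodule.zero_mem _
  · intro i
    exact hle 0 (Gdeg_K hl i)
  · intro a b ha hb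
    exact Submodule.add_mem _ ha hb
  · intro a b ha hb
    change a ∈ ⨆ μ, Gdeg N l q hl μ at ha
    change b ∈ ⨆ μ, Gdeg N l q hl μ at hb
    change a * b ∈ ⨆ μ, Gdeg N l q hl μ
    refine Submodule.iSup_induction (Gdeg N l q hl) (motive := fun a => a * b ∈
      ⨆ μ, Gdeg N l q hl μ) ha ?_ ?_ ?_
    · intro μ x hx
      refine Submodule.iSup_induction (Gdeg N l q hl) (motive := fun b => x * b ∈
        ⨆ μ, Gdeg N l q hl μ) hb ?_ ?_ ?_
      · intro ν y hy
        exact hle _ (Gdeg_mul hx hy)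
      · rw [mul_zero]; exact Submodule.zero_mem _
      · intro y z hy hz
        rw [mul_add]; exact Submodule.add_mem _ hy hz
    · rw [zero_mul]; exact Submodule.zero_mem _
    · intro x y hx hy
      rw [add_mul]; exact Submodule.add_mem _ hx hy

theorem Gdeg_le (hl : l ≠ 0) (s0 : ℕ → ℂˣ) (μ : Fin (N + 1) → ℤ) :
    Gdeg N l q hl μ ≤
      Module.End.eigenspace ((tor N l q hl s0).toLinearMap : Module.End ℂ (A N l q))
        (tw N s0 μ) := by
  intro x hx
  rw [Module.End.mem_eigenspace_iff]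
  exact hx s0

theorem s_homg : S_HOMG := by
  intro N l q hl _ s0 hs0 z hz s
  let f : Module.End ℂ (A N l q) := (tor N l q hl s0).toLinearMap
  have hfx : ∀ x, f x = tor N l q hl s0 x := fun _ => rfl
  have hind : iSupIndep fun μ : Fin (N + 1) → ℤ => f.eigenspace (tw N s0 μ) :=
    f.eigenspaces_iSupIndep.comp hs0
  have htop : z ∈ Gdeg N l q hl 0 ⊔ ⨆ (μ) (_ : μ ≠ 0), Gdeg N l q hl μ := by
    have : ⨆ μ, Gdeg N l q hl μ ≤ Gdeg N l q hl 0 ⊔ ⨆ (μ) (_ : μ ≠ 0), Gdeg N l q hl μ := by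
      refine iSup_le fun μ => ?_
      by_cases h : μ = 0
      · rw [h]; exact le_sup_left
      · exact le_trans (le_iSup₂_of_le μ h le_rfl) le_sup_right
    exact this (by rw [Gdeg_iSup hl]; exact Submodule.mem_top)
  obtain ⟨a, ha, b, hb, rfl⟩ := Submodule.mem_sup.1 htop
  have ha1 : tor N l q hl s0 a = a := by rw [ha s0, tw_zero, one_smul]
  have hb1 : f b = b := by
    have := hz
    rw [map_add, ha1] at this
    exact add_left_cancel this
  have hb2 : b ∈ ⨆ (μ) (_ : μ ≠ (0 : Fin (N + 1) → ℤ)), f.eigenspace (tw N s0 μ) := by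
    have : (⨆ (μ) (_ : μ ≠ (0 : Fin (N + 1) → ℤ)), Gdeg N l q hl μ)
        ≤ ⨆ (μ) (_ : μ ≠ (0 : Fin (N + 1) → ℤ)), f.eigenspace (tw N s0 μ) :=
      iSup₂_mono fun μ _ => Gdeg_le hl s0 μ
    exact this hb
  have hb3 : b ∈ f.eigenspace (tw N s0 0) := by
    rw [Module.End.mem_eigenspace_iff, tw_zero, one_smul]; exact hb1
  have hb0 : b = 0 := Submodule.disjoint_def.1 (hind 0) b hb3 hb2
  rw [hb0, add_zero, ha s, tw_zero, one_smul]

theorem s_zdeg : S_ZDEG := by
  intro N l q hl _ s0 hz z hcen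
  let f : Module.End ℂ (A N l q) := (tor N l q hl s0).toLinearMap
  have hfx : ∀ x, f x = tor N l q hl s0 x := fun _ => rfl
  have hmem : z ∈ ⨆ ζ, f.eigenspace ζ := by
    have : ⨆ μ, Gdeg N l q hl μ ≤ ⨆ ζ, f.eigenspace ζ :=
      iSup_le fun μ => le_trans (Gdeg_le hl s0 μ) (le_iSup _ _)
    exact this (by rw [Gdeg_iSup hl]; exact Submodule.mem_top)
  obtain ⟨g, hg, hsum⟩ := (Submodule.mem_iSup_iff_exists_finsupp _ _).1 hmem
  have hind := f.eigenspaces_iSupIndep
  rw [iSupIndep_iff_finsetSum_eq_zero_imp_eq_zero] at hind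
  have hsum' : ∑ ζ ∈ g.support, g ζ = z := hsum
  -- an eigenvector with nonzero eigenvalue commutes with every component
  have key : ∀ (x : A N l q) (η : ℂ), η ≠ 0 → tor N l q hl s0 x = η • x →
      ∀ ζ, g ζ * x = x * g ζ := by
    intro x η hη hx ζ
    by_cases hζ : ζ ∈ g.support
    swap
    · rw [Finsupp.notMem_support_iff.1 hζ, zero_mul, mul_zero]
    have hg' : ∀ ζ, tor N l q hl s0 (g ζ) = ζ • g ζ := by
      intro ζ
      have := hg ζ
      rwa [Module.End.mem_eigenspace_iff] at this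
    have h1 := hind (g.support.image fun ζ => ζ * η) (fun ξ => g (ξ * η⁻¹) * x - x * g (ξ * η⁻¹))
      (by
        intro ξ _
        rw [Module.End.mem_eigenspace_iff]
        have hy := hg' (ξ * η⁻¹)
        revert hy
        generalize g (ξ * η⁻¹) = y
        intro hy
        change tor N l q hl s0 (y * x - x * y) = ξ • (y * x - x * y)
        rw [map_sub, map_mul, map_mul, hy, hx]
        simp only [smul_mul_smul_comm, smul_sub]
        rw [mul_comm η, mul_assoc, inv_mul_cancel₀ hη, mul_one])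
      (by
        rw [Finset.sum_image (by
          intro a _ b _ hab
          exact mul_right_cancel₀ hη hab)]
        have : ∀ ζ ∈ g.support, g (ζ * η * η⁻¹) * x - x * g (ζ * η * η⁻¹)
            = g ζ * x - x * g ζ := by
          intro ζ _
          rw [mul_assoc, mul_inv_cancel₀ hη, mul_one]
        rw [Finset.sum_congr rfl this, Finset.sum_sub_distrib, ← Finset.sum_mul,
          ← Finset.mul_sum, hsum', hcen, sub_self])
      (ζ * η) (Finset.mem_image_of_mem _ hζ)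
    have h2 : g (ζ * η * η⁻¹) * x - x * g (ζ * η * η⁻¹) = 0 := h1
    rw [mul_assoc, mul_inv_cancel₀ hη, mul_one] at h2
    exact sub_eq_zero.1 h2
  have hgcen : ∀ ζ, ∀ a, g ζ * a = a * g ζ := by
    intro ζ a
    refine A_induction (P := fun a => g ζ * a = a * g ζ) ?_ ?_ ?_ ?_ ?_ ?_ a
    · intro c; exact (Algebra.commutes c (g ζ)).symm
    · intro i
      exact key _ _ (mul_ne_zero (s0 i).ne_zero (inv_ne_zero (s0 (i + 1)).ne_zero))
        (tor_E hl s0 i) ζ
    · intro i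
      exact key _ _ (mul_ne_zero (inv_ne_zero (s0 i).ne_zero) (s0 (i + 1)).ne_zero)
        (tor_F hl s0 i) ζ
    · intro i
      exact key _ 1 one_ne_zero (by rw [tor_K, one_smul]) ζ
    · intro a b ha hb
      change g ζ * (a + b) = (a + b) * g ζ
      rw [mul_add, ha, hb, add_mul]
    · intro a b ha hb
      change g ζ * (a * b) = (a * b) * g ζ
      rw [← mul_assoc, ha, mul_assoc, hb, mul_assoc]
  have hg0 : ∀ ζ, ζ ≠ 1 → g ζ = 0 := by
    intro ζ hζ
    refine hz (g ζ) (hgcen ζ) ζ hζ ?_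
    have := hg ζ
    rwa [Module.End.mem_eigenspace_iff] at this
  have hz1 : z = g 1 := by
    rw [← hsum']
    by_cases h : (1 : ℂ) ∈ g.support
    · exact Finset.sum_eq_single_of_mem 1 h fun ζ _ hζ => hg0 ζ hζ
    · rw [Finsupp.notMem_support_iff.1 h]
      exact Finset.sum_eq_zero fun ζ hζ => hg0 ζ (by rintro rfl; exact h hζ)
  have := hg 1
  rw [Module.End.mem_eigenspace_iff, one_smul] at this
  rw [hz1]
  exact this

end

end Pool.Agent.Helper19.SQ
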