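import Pool.Agent.Helper19.SQ.Defs2

/-!
Project SQ (MP_bb32d1_al), helper19: goals for sections 6 and 7 (monomials, singular vectors,
highest weight modules, layers).  Proof text: MP_bb32d1_al_proof_helper19.md in the team store;
every goal carries its proof here.
-/

namespace Pool.Agent.Helper19.SQ

noncomputable section

/-- ROOT, all relations of section 2 at once (assembled from the goals R2 ... R11 of GoalsQ). -/
def S_ROOT : Prop :=
  ∀ (B : Type) [Ring B] [Algebra ℂ B] (q : ℂ) (E : ℕ → B), q ≠ 0 → q ^ 2 ≠ -1 →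
    SerreRel q E → RootRel q E

/-- LM, left multiplication of a monomial by `E_k`.
Proof. Notation `E_ij = rv q E i j`.  Relations used (hypothesis allowed: S_ROOT): for `i < k`: `E_k E_ij = E_ij E_k` if `j < k` (R2) or `j > k+1` (R6);
`E_{i,k+1} = E_ik E_k - q^{-1} E_k E_ik` (R3), i.e. `E_k E_ik = q E_ik E_k - q E_{i,k+1}`;
`E_k E_{i,k+1} = q^{-1} E_{i,k+1} E_k` (R5); `E_ik E_{i,k+1} = q E_{i,k+1} E_ik` (R10).
Hence by induction on `c`: `E_k E_ik^c = q^c E_ik^c E_k - q [c] E_ik^{c-1} E_{i,k+1}`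
(`[c] = qn q c`, `sum_{s<c} q^{s-(c-1-s)} = [c]`), so for `i < k`
`E_k R_i(b) = q^{b_ik - b_{i,k+1}} R_i(b) E_k - q [b_ik] R_i(mvr b i k)`, where `R_i = rowM`
(the factors `E_ik^{b_ik}` and `E_{i,k+1}^{b_{i,k+1}}` are adjacent in `R_i`), and
`E_k R_k(b) = R_k(inc b k (k+1))` (first factor is `E_{k,k+1} = E_k`).  Multiply out:
`E_k R_0 R_1 ... R_{N-1}`; rows `i' != i` are not changed by `mvr b i k`. -/
def S_LM : Prop :=
  ∀ (B : Type) [Ring B] [Algebra ℂ B] (N : ℕ) (q : ℂ) (E : ℕ → B), q ≠ 0 → q ^ 2 ≠ 1 →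
    q ^ 2 ≠ -1 → SerreRel q E → ∀ (b : ℕ → ℕ → ℕ) (k : ℕ), k < N →
    E k * mon N q E b
      = (∑ i ∈ Finset.range k, (wL q b k i * (-q * qn q (b i k))) • mon N q E (mvr b i k))
        + wL q b k k • mon N q E (inc b k (k + 1))

/-- LEXCOL, the monomial as a product of columns.  Hypothesis allowed: S_ROOT.
Proof. `E_ij` and `E_kl` commute if `i < k` and `l < j` (R8), or `j <= k` and... precisely: the
row order and the column order differ only for pairs `(i,j)`, `(k,l)` with `i < k` and `l < j`.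
Induction on `N`: `mon (N+1) = prod_{i<N} (R_i^{(N)} * E_{i,N+1}^{b}) * E_{N,N+1}^b`, where
`R_i^{(N)}` uses only `j <= N`; move every `E_{i,N+1}` to the right through `E_kl` with
`i < k < l <= N < N+1`: they commute.  So `mon (N+1) = mon N * C_{N+1}`. -/
def S_LEXCOL : Prop :=
  ∀ (B : Type) [Ring B] [Algebra ℂ B] (N : ℕ) (q : ℂ) (E : ℕ → B), q ≠ 0 → q ^ 2 ≠ -1 →
    SerreRel q E → ∀ (b : ℕ → ℕ → ℕ),
    mon N q E b = ((List.range N).map fun j => colM q E b (j + 1)).prod

/-- RM, right multiplication of a monomial by `E_k`.  Hypotheses allowed: S_LEXCOL, S_ROOT.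
Proof. `E^b = C_1(b) ... C_N(b)`.  For `j > k+1`: `E_{k+1,j} E_k = q E_k E_{k+1,j} - q E_kj`
(definition of `E_kj`), `E_kj E_k = q^{-1} E_k E_kj` (R4), `E_ij E_k = E_k E_ij` for
`i < k` (R6) and for `i > k+1` (R2), `E_kj E_{k+1,j} = q E_{k+1,j} E_kj` (R11).  So
`E_{k+1,j}^c E_k = q^c E_k E_{k+1,j}^c - q [c] E_kj E_{k+1,j}^{c-1}` and
`C_j(b) E_k = q^{b_{k+1,j} - b_kj} E_k C_j(b) - q [b_{k+1,j}] C_j(mvc b k j)` (the factors
`E_kj^{b_kj}`, `E_{k+1,j}^{b_{k+1,j}}` are adjacent in `C_j`), and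
`C_{k+1}(b) E_k = C_{k+1}(inc b k (k+1))` (last factor). -/
def S_RM : Prop :=
  ∀ (B : Type) [Ring B] [Algebra ℂ B] (N : ℕ) (q : ℂ) (E : ℕ → B), q ≠ 0 → q ^ 2 ≠ 1 →
    q ^ 2 ≠ -1 → SerreRel q E → ∀ (b : ℕ → ℕ → ℕ) (k : ℕ), k < N →
    mon N q E b * E k
      = (∑ j ∈ Finset.Ioc (k + 1) N,
          (wR N q b k j * (-q * qn q (b (k + 1) j))) • mon N q E (mvc b k j))
        + wR N q b k (k + 1) • mon N q E (inc b k (k + 1))

/-- SPAN: a word of length `h` in the `E_k` is a combination of monomials of height `h` with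
admissible exponents.  Hypothesis allowed: S_LM.
Proof. Induction on the word; for `b` admissible of height `h`, `E_k * mon b` is by LM a
combination of `mon (mvr b i k)` (coefficient `[b_ik]`, which is `0` if `b_ik = 0`; otherwise
height `h + 1` and exponents `< l` except possibly the one at `(i,k+1)`, which may be `l`, and
then the monomial contains the factor `E_{i,k+1}^l = 0`) and of `mon (inc b k (k+1))` (same
remark).  For `k >= N`, `E k = 0`. -/
def S_SPAN : Prop :=
  ∀ (B : Type) [Ring B] [Algebra ℂ B] (N l : ℕ) (q : ℂ) (E : ℕ → B), 0 < l → q ≠ 0 →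
    q ^ 2 ≠ 1 → q ^ 2 ≠ -1 → SerreRel q E → (∀ i, N ≤ i → E i = 0) →
    (∀ d i, rvA q E d i ^ l = 0) → ∀ w : List ℕ,
    (w.map E).prod ∈ Submodule.span ℂ {x | ∃ b, IsEx N l b ∧ ht N b = w.length ∧
      x = mon N q E b}

/-- HTOP. Proof: `b_ij (j - i) <= (l-1) (j - i)` termwise; equality of the sums forces equality of
every term, and `j - i > 0` for `i < j`. -/
def S_HTOP : Prop :=
  ∀ (N l : ℕ) (b : ℕ → ℕ → ℕ), IsEx N l b → ht N b ≤ ht N (topE N l) ∧
    (ht N b = ht N (topE N l) → b = topE N l)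

/-- MONW: a monomial is a combination of words of length equal to its height.
Proof. `E_ij = rv` is a combination of words of length `j - i` in `E_i, ..., E_{j-1}` (induction
on `j - i`); products of such. -/
def S_MONW : Prop :=
  ∀ (B : Type) [Ring B] [Algebra ℂ B] (N : ℕ) (q : ℂ) (E : ℕ → B) (b : ℕ → ℕ → ℕ),
    (∀ i j, ¬ (i < j ∧ j ≤ N) → b i j = 0) →
    mon N q E b ∈ Submodule.span ℂ {x | ∃ w : List ℕ, w.length = ht N b ∧ (∀ k ∈ w, k < N) ∧
      x = (w.map E).prod}

/-- the coefficient of `b'` in the formal expression LM for `E_k E^b`. -/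
def Lf (q : ℂ) (k : ℕ) (b b' : ℕ → ℕ → ℕ) : ℂ := by
  classical
  exact (∑ i ∈ Finset.range k, if b' = mvr b i k then wL q b k i * (-q * qn q (b i k)) else 0)
    + (if b' = inc b k (k + 1) then wL q b k k else 0)

/-- JK, the joint kernel of the formal left multiplications.
Proof. Let `x` be in the joint kernel.  Claim: if `x b != 0` then `b_ij = l-1` for all
`i < j <= k`, by induction on `k`.  Suppose it holds for `k` (`k < N`), all `b` with `x b != 0`.
The formula for `L_k` has the terms `mvr b i k` (`i < k`), whose exponent at `(i,k)` is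
`l - 2` and all other exponents at `(i',k)` are `l-1`, and the term `inc b k (k+1)`, all of whose
exponents at `(i',k)`, `i' < k`, are `l-1`.  So these `k + 1` families of terms do not interfere,
and within one family `b` is determined by the term.  For admissible target `b'` in the family
`i < k`: the coefficient is `x b * (nonzero) * [l-1]` (`q != 0`, `[l-1] = qn q (l-1) != 0` as
`q^{2(l-1)} != 1`), hence `x b = 0` whenever `mvr b i k` is admissible, i.e. unless
`b_{i,k+1} = l-1`.  Likewise `x b = 0` unless `b_{k,k+1} = l-1`.  So the claim holds for `k+1`. -/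
def S_JK : Prop :=
  ∀ (N l : ℕ) (q : ℂ), Par N l q → ∀ x : EX N l → ℂ,
    (∀ k, k < N → ∀ b' : EX N l, ∑ b : EX N l, x b * Lf q k b.1 b'.1 = 0) →
    ∀ b : EX N l, b.1 ≠ topE N l → x b = 0

/-- SOC. Hypotheses allowed: S_JK, S_HTOP.
Proof. Suppose `sum_b x_b y_b = 0` with `x != 0`.  Let `L_k x` be the formal operator
(`(L_k x)(b') = sum_b x b * Lf q k b b'`, a function on admissible `b'`): then
`sum_b' (L_k x)(b') y_b' = f_k (sum_b x_b y_b) = 0` (non-admissible targets have `y = 0` or a zero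
coefficient).  `L_k` raises the height by one, so only finitely many words `L_w` are nonzero on
`x`; take a longest word `w` with `L_w x != 0`; then `L_k L_w x = 0` for all `k`, so by JK
`L_w x` is a nonzero multiple of the top, and `0 = c y_top`: contradiction. -/
def S_SOC : Prop :=
  ∀ (N l : ℕ) (q : ℂ), Par N l q → ∀ (M : Type) [AddCommGroup M] [Module ℂ M]
    (f : ℕ → (M →ₗ[ℂ] M)) (y : (ℕ → ℕ → ℕ) → M),
    (∀ b, (∃ i j, i < j ∧ j ≤ N ∧ l ≤ b i j) → y b = 0) →
    (∀ k, k < N → ∀ b, IsEx N l b → f k (y b)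
      = (∑ i ∈ Finset.range k, (wL q b k i * (-q * qn q (b i k))) • y (mvr b i k))
        + wL q b k k • y (inc b k (k + 1))) →
    y (topE N l) ≠ 0 → LinearIndependent ℂ (fun b : EX N l => y b.1)

/-- `K^kappa`. -/
def kmon {B : Type*} [Ring B] (N : ℕ) (K : ℕ → B) (κ : ℕ → ℕ) : B :=
  ((List.range (N + 1)).map fun j => K j ^ κ j).prod

/-- TRI, the spanning half of the triangular decomposition.  Hypotheses allowed: S_SPAN, S_MONW.
Proof. Let `S` be the span of all `u * k * u'` with `u` a word in the `F`'s, `k` a product of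
`K`'s, `u'` a word in the `E`'s (by SPAN, MONW the same as the span in the statement; exponents of
`K` can be reduced mod `l`).  `1` is in `S`; `F_k S` is in `S`; `K_j S` is in `S` (weights);
`E_k u = u E_k + [E_k, u]`, `[E_k, F_{i1}...F_{ir}] = sum_s F_{i1}...[E_k,F_{is}]...F_{ir}` is a
combination of (words in `F` of length `r-1`) times `K_k K_{k+1}^{-1}` or its inverse; so
`E_k S` is in `S`.  By `A_induction` (the set of `a` with `a S` in `S` is a subalgebra) `S` is
everything. -/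
def S_TRI : Prop :=
  ∀ (N l : ℕ) (q : ℂ), Par N l q → ∀ x : A N l q,
    x ∈ Submodule.span ℂ {y | ∃ (a b : EX N l) (κ : ℕ → ℕ), (∀ j, κ j < l) ∧
      y = mon N q (gF N l q) a.1 * kmon N (gK N l q) κ * mon N q (gE N l q) b.1}

/-- FDIM. From TRI: finitely many values of `kmon` (only `κ j`, `j <= N`, matter). -/
def S_FDIM : Prop := ∀ (N l : ℕ) (q : ℂ), Par N l q → FiniteDimensional ℂ (A N l q)

/-- SV. Hypothesis allowed: S_SPAN, S_MONW, S_LM.
Proof. `x != 0` in `M`.  Choose `b` admissible with `E^b x != 0` and `ht b` maximal (`b = 0`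
works, finitely many `b`).  `E_k E^b` is a combination of words of length `ht b + 1` (MONW), hence
of monomials of height `ht b + 1` (SPAN), which kill `x`.  So `y = E^b x` is killed by all `E_k`.
Weight projections: `1_lam = prod_j (l^{-1} sum_{s<l} qz(lam_j)^{-s} K_j^s)`, `lam` in
`Fin (N+1) -> ZMod l`; they sum to `1`, `K_j 1_lam = q^{lam_j} 1_lam`, and
`E_k 1_lam y = 1_{lam + alpha_k} E_k y = 0`.  Some `1_lam y != 0`. -/
def S_SV : Prop :=
  ∀ (N l : ℕ) [NeZero l] (q : ℂ), Par N l q → ∀ (M : Type) [AddCommGroup M] [Module ℂ M]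
    [Module (A N l q) M] [IsScalarTower ℂ (A N l q) M], (∃ x : M, x ≠ 0) →
    ∃ (lam : Fin (N + 1) → ZMod l) (m : M), m ≠ 0 ∧ Sing q lam m

/-- HC. Hypotheses allowed: S_TRI, S_MONW.
Proof. `tor s` acts on the spanning elements `F^a K^kappa E^b` of TRI by scalars `s^mu`, where
`mu` in `Z^{N+1}` is the degree (sum of `b_ij (eps_i - eps_j)` minus the same for `a`).  Since
`mu -> s^mu` is injective, `a = tor s a` is a combination of the spanning elements of degree `0`
(eigenvectors of different eigenvalues are independent).  A spanning element of degree `0` with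
`b != 0` is in `sum A E_k` (MONW: `E^b`, `b != 0`, ends with some `E_k`), hence kills singular
vectors; with `b = 0`: degree `0` forces `a = 0` (all `a_ij >= 0`: take the smallest `i` with some
`a_ij != 0`), so it is `K^kappa`, which acts on a singular vector of weight `lam` by
`prod_j qz(lam_j)^{kappa_j}`. -/
def S_HC : Prop :=
  ∀ (N l : ℕ) [NeZero l] (q : ℂ) (hl : l ≠ 0), Par N l q → ∀ s : ℕ → ℂˣ,
    Function.Injective (tw N s) → ∀ a : A N l q, tor N l q hl s a = a →
    ∃ c : (Fin (N + 1) → ZMod l) → ℂ, ∀ (M : Type) [AddCommGroup M] [Module ℂ M]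
      [Module (A N l q) M] [IsScalarTower ℂ (A N l q) M] (lam : Fin (N + 1) → ZMod l) (m : M),
      Sing q lam m → a • m = c lam • m

/-- GENV. Hypothesis allowed: cup0 (S_CUPS of GoalsQ).
Proof. `v_j (x) a m = sum_i eps(a)_ji . (v_i (x) m)`: the `p`-th entry of the right side is
`sum_i delta(eps(a)_ji)_pi m = [j = p] a m`. -/
def S_GENV : Prop :=
  ∀ (N l : ℕ) (q : ℂ) (D : Dl N l q),
    (∀ a p j, ∑ i, D.dl (D.ep a j i) p i = if j = p then a else 0) →
    ∀ (M : Type) [AddCommGroup M] [Module ℂ M]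
    [Module (A N l q) M] [IsScalarTower ℂ (A N l q) M] (a : A N l q) (m : M) (j : Fin (N + 1)),
    tv D.dl j (a • m) = ∑ i, D.ep a j i • tv D.dl i m

/-- GENVS, the same for `V*` (cup1): `phi_p (x) a m = sum_k q^{2k-2p} delta(a)_pk . (phi_k (x) m)`.
-/
def S_GENVS : Prop :=
  ∀ (N l : ℕ) (q : ℂ) (D : Dl N l q), q ≠ 0 →
    (∀ a j p, ∑ k : Fin (N + 1), q ^ (2 * (k : ℕ)) • D.ep (D.dl a p k) j k
      = if j = p then q ^ (2 * (p : ℕ)) • a else 0) →
    ∀ (M : Type) [AddCommGroup M] [Module ℂ M]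
    [Module (A N l q) M] [IsScalarTower ℂ (A N l q) M] (a : A N l q) (m : M) (p : Fin (N + 1)),
    tv D.ep p (a • m)
      = ∑ k : Fin (N + 1), (q ^ (2 * ((k : ℕ) : ℤ) - 2 * ((p : ℕ) : ℤ)) • D.dl a p k) • tv D.ep k m

/-- FL, the filtration lemma.
Proof. Induction on `r`: `U_{j+1}/U_j` is a quotient of `Z(mu^j)` (universal property: the class of
`w_j` is killed by the `E_k` and has weight `mu^j`), so `dim W = sum_j dim U_{j+1}/U_j <= sum_j
d_{mu^j}`.  If equality holds then all these quotient maps are isomorphisms, so the trace of `a`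
on `U_{j+1}/U_j` is `chi_{Z(mu^j)}(a)`; traces are additive along an invariant filtration.  An
`A`-linear `P` with `P w_j - y_j w_j` in `U_j` preserves all `U_j` and acts on `U_{j+1}/U_j` by
the scalar `y_j`.  `U_j = span_A {w_i : i < j}`. -/
def S_FL : Prop :=
  ∀ (N l : ℕ) [NeZero l] (q : ℂ), Par N l q → FiniteDimensional ℂ (A N l q) →
    ∀ (W : Type) [AddCommGroup W] [Module ℂ W] [Module (A N l q) W]
    [IsScalarTower ℂ (A N l q) W] [FiniteDimensional ℂ W] (r : ℕ) (w : Fin r → W)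
    (μ : Fin r → Fin (N + 1) → ZMod l),
    (∀ j k, gE N l q k • w j ∈ Submodule.span (A N l q) {f | ∃ i, i < j ∧ f = w i}) →
    (∀ j (i : Fin (N + 1)), gK N l q i • w j - qz q (μ j i) • w j ∈
      Submodule.span (A N l q) {f | ∃ i, i < j ∧ f = w i}) →
    Submodule.span (A N l q) (Set.range w) = ⊤ →
    Module.finrank ℂ W ≤ ∑ j, dZ q (μ j) ∧
    (Module.finrank ℂ W = ∑ j, dZ q (μ j) →
      (∀ a : A N l q, chi W a = ∑ j, chi (Zl q (μ j)) a) ∧
      ∀ (P : W →ₗ[A N l q] W) (y : Fin r → ℂ),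
        (∀ j, P (w j) - y j • w j ∈ Submodule.span (A N l q) {f | ∃ i, i < j ∧ f = w i}) →
        LinearMap.trace ℂ W (P.restrictScalars ℂ) = ∑ j, y j * (dZ q (μ j) : ℂ))

/-- ZUNIV, the universal property of `Z(lam)` and its finite dimension. -/
def S_ZUNIV : Prop :=
  ∀ (N l : ℕ) [NeZero l] (q : ℂ), Par N l q → FiniteDimensional ℂ (A N l q) →
    ∀ lam : Fin (N + 1) → ZMod l, FiniteDimensional ℂ (Zl q lam) ∧
      Sing q lam (zgen q lam) ∧ Submodule.span (A N l q) {zgen q lam} = ⊤ ∧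
      ∀ (M : Type) [AddCommGroup M] [Module ℂ M] [Module (A N l q) M]
        [IsScalarTower ℂ (A N l q) M] (m : M), Sing q lam m →
        ∃ f : Zl q lam →ₗ[A N l q] M, f (zgen q lam) = m

/-- LAYA, the elementary part of LAY for `V (x) M`: `E_k (v_j (x) m) = [j = k+1] v_k (x) m`,
`K_i (v_j (x) m) = q^{lam_i + [i = j]} v_j (x) m`.
Proof: the matrices `dE`, `dK` of Defs (`D.dl_E`, `D.dl_K`). -/
def S_LAYA : Prop :=
  ∀ (N l : ℕ) [NeZero l] (q : ℂ) (D : Dl N l q), Par N l q →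
    ∀ (M : Type) [AddCommGroup M] [Module ℂ M]
    [Module (A N l q) M] [IsScalarTower ℂ (A N l q) M] (lam : Fin (N + 1) → ZMod l) (m : M),
    Sing q lam m → ∀ j : Fin (N + 1),
      (∀ k, gE N l q k • tv D.dl j m ∈ Ulow D.dl m j) ∧
      ∀ i : Fin (N + 1), gK N l q i • tv D.dl j m = qz q (addE lam j i) • tv D.dl j m

/-- LAYX: `X (v_j (x) m) = q^{2 x_j} v_j (x) m` modulo `U_j`, `x_j = lam_j - j`.
Proof. `L_bj m = [b = j] q^{lam_j} m` (for `b > j`, `L_bj` is a multiple of `E_jb K_j...`, more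
precisely `rv E j b * K b`, and `K b m` is a multiple of `m`, `rv E j b m = 0`).  So
`X (v_j (x) m) = q^{lam_j} (v_j (x) K_j m + sum_{a<j} (q - q^{-1}) v_a (x) K_a F°_aj m)`.
Claim (`i < j`): `v_i (x) F°_ij m = - q^{-2(j-1-i) - lam_i + lam_j} v_j (x) m` mod `U_j`.
Downward induction on `i`.  Facts (from `dF`): `F_k (v_i (x) w) = v_i (x) F_k w` for `k != i`,
hence `F°_{i+1,j} (v_i (x) w) = v_i (x) F°_{i+1,j} w`; `F_i (v_i (x) w)
= v_{i+1} (x) K_{i+1} K_i^{-1} w + v_i (x) F_i w`.  `i = j-1`: `v_i (x) F_i m = F_i (v_i (x) m) -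
q^{lam_j - lam_i} v_j (x) m`.  `i < j-1`: `F°_ij = F°_{i+1,j} F_i - q^{-1} F_i F°_{i+1,j}`;
`v_i (x) F°_{i+1,j} F_i m = F°_{i+1,j} (F_i (v_i (x) m) - q^{lam_{i+1} - lam_i} v_{i+1} (x) m)` is
in `U_j`; `v_i (x) F°_{i+1,j} m = F°_{i+1,j} (v_i (x) m)` is in `U_j`, so
`v_i (x) F°_ij m = - q^{-1} v_i (x) F_i F°_{i+1,j} m = q^{-1} v_{i+1} (x) K_{i+1} K_i^{-1}
F°_{i+1,j} m = q^{-2 + lam_{i+1} - lam_i} v_{i+1} (x) F°_{i+1,j} m` mod `U_j`
(`K_{i+1} F°_{i+1,j} m = q^{lam_{i+1} - 1} F°_{i+1,j} m`, `K_i F°_{i+1,j} m = q^{lam_i}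
F°_{i+1,j} m`).  Finally `K_a F°_aj m = q^{lam_a - 1} F°_aj m` and
`q^{2 lam_j} (1 - (1 - q^{-2}) sum_{s<j} q^{-2s}) = q^{2 lam_j - 2j}`. -/
def S_LAYX : Prop :=
  ∀ (N l : ℕ) [NeZero l] (q : ℂ) (D : Dl N l q), Par N l q →
    ∀ (M : Type) [AddCommGroup M] [Module ℂ M]
    [Module (A N l q) M] [IsScalarTower ℂ (A N l q) M] (lam : Fin (N + 1) → ZMod l) (m : M),
    Sing q lam m → ∀ j : Fin (N + 1),
      actM (Xm N l q) (tv D.dl j m) - qz q (2 * xl lam j) • tv D.dl j m ∈ Ulow D.dl m j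

/-- LAYS, the layers of `V* (x) M`: `E_k (phi_j (x) m) = -q [j = k] phi_{k+1} (x) m`,
`K_i (phi_j (x) m) = q^{lam_i - [i = j]} phi_j (x) m`. -/
def S_LAYS : Prop :=
  ∀ (N l : ℕ) [NeZero l] (q : ℂ) (D : Dl N l q), Par N l q →
    ∀ (M : Type) [AddCommGroup M] [Module ℂ M]
    [Module (A N l q) M] [IsScalarTower ℂ (A N l q) M] (lam : Fin (N + 1) → ZMod l) (m : M),
    Sing q lam m → ∀ j : Fin (N + 1),
      (∀ k, gE N l q k • tv D.ep j m ∈ Uhigh D.ep m j) ∧
      ∀ i : Fin (N + 1), gK N l q i • tv D.ep j m = qz q (subE lam j i) • tv D.ep j m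

/-- HARM: all `Z(lam)` have the same dimension, which is positive.
Hypotheses allowed: S_ZUNIV, S_FDIM, S_FL, S_GENV, S_LAYA, cup0.
Proof. `V (x) Z(lam)` is generated by `w_j = v_j (x) zgen` (GENV, ZUNIV), FL with
`mu^j = lam + eps_j` (LAYA): `(N+1) d_lam <= sum_j d_{lam + eps_j}`.  Sum over all `lam` in the
finite group `(ZMod l)^{N+1}`: both sides have the same sum, so equality holds for every `lam`.
Let `d_lam` be maximal at `lam0`: then `d_{lam0 + eps_j}` is maximal for all `j`; every weight is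
`lam0 + sum of eps_j`'s (order of `ZMod l` finite), so `d` is constant.  Positivity: otherwise all
`Z(lam) = 0`, so no module has a nonzero singular vector; but the vector representation
(`VREP` of GoalsQ: `A -> Mat N ℂ`, acting on columns `Fin (N+1) -> ℂ`) has the nonzero singular
vector `v_0`; alternatively apply S_SV to the left regular module of the nontrivial ring `A`
(hypothesis allowed: `Nontrivial (A N l q)`, S_SV). -/
def S_HARM : Prop :=
  ∀ (N l : ℕ) [NeZero l] (q : ℂ) (_ : Dl N l q), Par N l q →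
    (∀ lam lam' : Fin (N + 1) → ZMod l, dZ (N := N) q lam = dZ q lam') ∧
    ∀ lam : Fin (N + 1) → ZMod l, 0 < dZ (N := N) q lam

/-- NTRIV: `A` is not the zero ring. Proof: `liftA` to `Mat N ℂ` along the vector representation
(`VREP`). -/
def S_NTRIV : Prop := ∀ (N l : ℕ) (q : ℂ), Par N l q → Nontrivial (A N l q)

end

end Pool.Agent.Helper19.SQ
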