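import Pool.Agent.Helper19.SQ.Defs

/-!
Project SQ (MP_bb32d1_al), helper19.  The small quantum group `u_q(sl_{N+1})`, presented by
generators `E_i, F_i, K_i` (`i < N`) and the usual relations; `q` is a primitive `l`-th root of
unity, `K_i ^ (l - 1)` is the inverse of `K_i`.
-/

namespace Pool.Agent.Helper19.SQ

noncomputable section

/-- generators of `u_q(sl_{N+1})`. -/
inductive SGen (N : ℕ) : Type
  | E (i : Fin N) : SGen N
  | F (i : Fin N) : SGen N
  | K (i : Fin N) : SGen N

def sE {N : ℕ} (i : Fin N) : FreeAlgebra ℂ (SGen N) := FreeAlgebra.ι ℂ (SGen.E i)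
def sF {N : ℕ} (i : Fin N) : FreeAlgebra ℂ (SGen N) := FreeAlgebra.ι ℂ (SGen.F i)
def sK {N : ℕ} (i : Fin N) : FreeAlgebra ℂ (SGen N) := FreeAlgebra.ι ℂ (SGen.K i)

/-- the Cartan matrix of type `A_N`. -/
def cart {N : ℕ} (i j : Fin N) : ℤ :=
  if i = j then 2 else if (i : ℕ) + 1 = j ∨ (j : ℕ) + 1 = i then -1 else 0

/-- extension by zero of a finite family. -/
def ext0 {B : Type*} [Zero B] {N : ℕ} (f : Fin N → B) (i : ℕ) : B :=
  if h : i < N then f ⟨i, h⟩ else 0

/-- the defining relations of `u_q(sl_{N+1})`. -/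
inductive SRel (N l : ℕ) (q : ℂ) : FreeAlgebra ℂ (SGen N) → FreeAlgebra ℂ (SGen N) → Prop
  | K_comm (i j : Fin N) : SRel N l q (sK i * sK j) (sK j * sK i)
  | K_pow (i : Fin N) : SRel N l q (sK i ^ l) 1
  | KE (i j : Fin N) : SRel N l q (sK i * sE j) (q ^ cart i j • (sE j * sK i))
  | KF (i j : Fin N) : SRel N l q (sK i * sF j) (q ^ (-cart i j) • (sF j * sK i))
  | EF (i : Fin N) : SRel N l q (sE i * sF i - sF i * sE i)
      ((q - q⁻¹)⁻¹ • (sK i - sK i ^ (l - 1)))
  | EF_ne (i j : Fin N) (h : i ≠ j) : SRel N l q (sE i * sF j) (sF j * sE i)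
  | farE (i j : Fin N) (h : cart i j = 0) : SRel N l q (sE i * sE j) (sE j * sE i)
  | serreE (i j : Fin N) (h : cart i j = -1) : SRel N l q
      (sE i ^ 2 * sE j - (q + q⁻¹) • (sE i * sE j * sE i) + sE j * sE i ^ 2) 0
  | farF (i j : Fin N) (h : cart i j = 0) : SRel N l q (sF i * sF j) (sF j * sF i)
  | serreF (i j : Fin N) (h : cart i j = -1) : SRel N l q
      (sF i ^ 2 * sF j - (q + q⁻¹) • (sF i * sF j * sF i) + sF j * sF i ^ 2) 0
  | powE (i j : ℕ) (h : i < j) (h' : j ≤ N) : SRel N l q (rv q (ext0 (sE (N := N))) i j ^ l) 0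
  | powF (i j : ℕ) (h : i < j) (h' : j ≤ N) : SRel N l q (rv q (ext0 (sF (N := N))) i j ^ l) 0

/-- The small quantum group `u_q(sl_{N+1})`. -/
def Usl (N l : ℕ) (q : ℂ) : Type := RingQuot (SRel N l q)

instance (N l : ℕ) (q : ℂ) : Ring (Usl N l q) := inferInstanceAs (Ring (RingQuot (SRel N l q)))

instance (N l : ℕ) (q : ℂ) : Algebra ℂ (Usl N l q) :=
  inferInstanceAs (Algebra ℂ (RingQuot (SRel N l q)))

variable {N l : ℕ} {q : ℂ}

/-- the quotient map. -/
def mkU (N l : ℕ) (q : ℂ) : FreeAlgebra ℂ (SGen N) →ₐ[ℂ] Usl N l q :=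
  RingQuot.mkAlgHom ℂ (SRel N l q)

def uE (N l : ℕ) (q : ℂ) (i : Fin N) : Usl N l q := mkU N l q (sE i)
def uF (N l : ℕ) (q : ℂ) (i : Fin N) : Usl N l q := mkU N l q (sF i)
def uK (N l : ℕ) (q : ℂ) (i : Fin N) : Usl N l q := mkU N l q (sK i)

/-- the relations of `u_q(sl_{N+1})` for a family of elements of an algebra. -/
structure SlRel {B : Type*} [Ring B] [Algebra ℂ B] (N l : ℕ) (q : ℂ) (E F K : Fin N → B) :
    Prop where
  K_comm : ∀ i j, K i * K j = K j * K i
  K_pow : ∀ i, K i ^ l = 1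
  KE : ∀ i j, K i * E j = q ^ cart i j • (E j * K i)
  KF : ∀ i j, K i * F j = q ^ (-cart i j) • (F j * K i)
  EF : ∀ i, E i * F i - F i * E i = (q - q⁻¹)⁻¹ • (K i - K i ^ (l - 1))
  EF_ne : ∀ i j, i ≠ j → E i * F j = F j * E i
  farE : ∀ i j, cart i j = 0 → E i * E j = E j * E i
  serreE : ∀ i j, cart i j = -1 →
    E i ^ 2 * E j - (q + q⁻¹) • (E i * E j * E i) + E j * E i ^ 2 = 0
  farF : ∀ i j, cart i j = 0 → F i * F j = F j * F i
  serreF : ∀ i j, cart i j = -1 →
    F i ^ 2 * F j - (q + q⁻¹) • (F i * F j * F i) + F j * F i ^ 2 = 0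
  powE : ∀ i j, i < j → j ≤ N → rv q (ext0 E) i j ^ l = 0
  powF : ∀ i j, i < j → j ≤ N → rv q (ext0 F) i j ^ l = 0

theorem mkU_rel {x y : FreeAlgebra ℂ (SGen N)} (h : SRel N l q x y) :
    mkU N l q x = mkU N l q y := RingQuot.mkAlgHom_rel ℂ h

theorem map_ext0 {B C : Type*} [Ring B] [Algebra ℂ B] [Ring C] [Algebra ℂ C] (f : B →ₐ[ℂ] C)
    (E : Fin N → B) : (fun k => f (ext0 E k)) = ext0 (fun i => f (E i)) := by
  funext k
  by_cases h : k < N <;> simp [ext0, h]

theorem slU (N l : ℕ) (q : ℂ) : SlRel N l q (uE N l q) (uF N l q) (uK N l q) where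
  K_comm i j := by
    simpa only [uK, map_mul] using mkU_rel (SRel.K_comm (N := N) (l := l) (q := q) i j)
  K_pow j := by
    simpa only [uK, map_pow, map_one] using mkU_rel (SRel.K_pow (N := N) (l := l) (q := q) j)
  KE j i := by
    simpa only [uK, uE, map_mul, map_smul] using mkU_rel (SRel.KE (N := N) (l := l) (q := q) j i)
  KF j i := by
    simpa only [uK, uF, map_mul, map_smul] using mkU_rel (SRel.KF (N := N) (l := l) (q := q) j i)
  EF i := by
    simpa only [uK, uE, uF, map_mul, map_smul, map_sub, map_pow] using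
      mkU_rel (SRel.EF (N := N) (l := l) (q := q) i)
  EF_ne i j h := by
    simpa only [uE, uF, map_mul] using mkU_rel (SRel.EF_ne (N := N) (l := l) (q := q) i j h)
  farE i j h := by
    simpa only [uE, map_mul] using mkU_rel (SRel.farE (N := N) (l := l) (q := q) i j h)
  serreE i j h := by
    simpa only [uE, map_mul, map_smul, map_sub, map_add, map_pow, map_zero] using
      mkU_rel (SRel.serreE (N := N) (l := l) (q := q) i j h)
  farF i j h := by
    simpa only [uF, map_mul] using mkU_rel (SRel.farF (N := N) (l := l) (q := q) i j h)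
  serreF i j h := by
    simpa only [uF, map_mul, map_smul, map_sub, map_add, map_pow, map_zero] using
      mkU_rel (SRel.serreF (N := N) (l := l) (q := q) i j h)
  powE i j h h' := by
    have := mkU_rel (SRel.powE (N := N) (l := l) (q := q) i j h h')
    rw [map_pow, map_zero, ← rv_map, map_ext0] at this
    exact this
  powF i j h h' := by
    have := mkU_rel (SRel.powF (N := N) (l := l) (q := q) i j h h')
    rw [map_pow, map_zero, ← rv_map, map_ext0] at this
    exact this

section Lift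

variable {B : Type*} [Ring B] [Algebra ℂ B]

/-- values on generators. -/
def sgenVal (E F K : Fin N → B) : SGen N → B
  | SGen.E i => E i
  | SGen.F i => F i
  | SGen.K i => K i

theorem lift_sE (E F K : Fin N → B) (i : Fin N) :
    FreeAlgebra.lift ℂ (sgenVal E F K) (sE i) = E i := by simp [sE, sgenVal]
theorem lift_sF (E F K : Fin N → B) (i : Fin N) :
    FreeAlgebra.lift ℂ (sgenVal E F K) (sF i) = F i := by simp [sF, sgenVal]
theorem lift_sK (E F K : Fin N → B) (i : Fin N) :
    FreeAlgebra.lift ℂ (sgenVal E F K) (sK i) = K i := by simp [sK, sgenVal]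

theorem lift_srel {E F K : Fin N → B} (h : SlRel N l q E F K) ⦃x y : FreeAlgebra ℂ (SGen N)⦄
    (r : SRel N l q x y) :
    FreeAlgebra.lift ℂ (sgenVal E F K) x = FreeAlgebra.lift ℂ (sgenVal E F K) y := by
  have hE : (fun k => FreeAlgebra.lift ℂ (sgenVal E F K) (ext0 (sE (N := N)) k)) = ext0 E := by
    rw [map_ext0]; congr 1; funext k; exact lift_sE E F K k
  have hF : (fun k => FreeAlgebra.lift ℂ (sgenVal E F K) (ext0 (sF (N := N)) k)) = ext0 F := by
    rw [map_ext0]; congr 1; funext k; exact lift_sF E F K k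
  cases r with
  | K_comm i j => simpa [lift_sK] using h.K_comm i j
  | K_pow j => simpa [lift_sK] using h.K_pow j
  | KE j i => simpa only [map_mul, map_smul, lift_sK, lift_sE] using h.KE j i
  | KF j i => simpa only [map_mul, map_smul, lift_sK, lift_sF] using h.KF j i
  | EF i => simpa only [map_mul, map_smul, map_sub, map_pow, lift_sK, lift_sE, lift_sF]
      using h.EF i
  | EF_ne i j hij => simpa only [map_mul, lift_sE, lift_sF] using h.EF_ne i j hij
  | farE i j hij => simpa only [map_mul, lift_sE] using h.farE i j hij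
  | serreE i j hij =>
    simpa only [map_mul, map_smul, map_sub, map_add, map_pow, map_zero, lift_sE]
      using h.serreE i j hij
  | farF i j hij => simpa only [map_mul, lift_sF] using h.farF i j hij
  | serreF i j hij =>
    simpa only [map_mul, map_smul, map_sub, map_add, map_pow, map_zero, lift_sF]
      using h.serreF i j hij
  | powE i j h1 h2 => rw [map_pow, map_zero, ← rv_map, hE]; exact h.powE i j h1 h2
  | powF i j h1 h2 => rw [map_pow, map_zero, ← rv_map, hF]; exact h.powF i j h1 h2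

/-- universal property of `Usl N l q`. -/
def liftU {E F K : Fin N → B} (h : SlRel N l q E F K) : Usl N l q →ₐ[ℂ] B :=
  RingQuot.liftAlgHom ℂ ⟨FreeAlgebra.lift ℂ (sgenVal E F K), fun _ _ r => lift_srel h r⟩

theorem liftU_mk {E F K : Fin N → B} (h : SlRel N l q E F K) (x : FreeAlgebra ℂ (SGen N)) :
    liftU h (mkU N l q x) = FreeAlgebra.lift ℂ (sgenVal E F K) x :=
  RingQuot.liftAlgHom_mkAlgHom_apply ℂ _ _ x

@[simp] theorem liftU_E {E F K : Fin N → B} (h : SlRel N l q E F K) (i : Fin N) :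
    liftU h (uE N l q i) = E i := by rw [uE, liftU_mk, lift_sE]
@[simp] theorem liftU_F {E F K : Fin N → B} (h : SlRel N l q E F K) (i : Fin N) :
    liftU h (uF N l q i) = F i := by rw [uF, liftU_mk, lift_sF]
@[simp] theorem liftU_K {E F K : Fin N → B} (h : SlRel N l q E F K) (i : Fin N) :
    liftU h (uK N l q i) = K i := by rw [uK, liftU_mk, lift_sK]

theorem mkU_surj : Function.Surjective (mkU N l q) := RingQuot.mkAlgHom_surjective ℂ (SRel N l q)

/-- induction principle on `Usl N l q`. -/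
theorem U_induction {P : Usl N l q → Prop} (hc : ∀ c : ℂ, P (algebraMap ℂ (Usl N l q) c))
    (hE : ∀ i, P (uE N l q i)) (hF : ∀ i, P (uF N l q i)) (hK : ∀ i, P (uK N l q i))
    (hadd : ∀ a b, P a → P b → P (a + b)) (hmul : ∀ a b, P a → P b → P (a * b))
    (a : Usl N l q) : P a := by
  obtain ⟨x, rfl⟩ := mkU_surj (N := N) (l := l) (q := q) a
  induction x using FreeAlgebra.induction with
  | grade0 r => simpa using hc r
  | grade1 g =>
    cases g with
    | E i => exact hE i
    | F i => exact hF i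
    | K i => exact hK i
  | mul a b ha hb => rw [map_mul]; exact hmul _ _ ha hb
  | add a b ha hb => rw [map_add]; exact hadd _ _ ha hb

end Lift

/-- partial products: `sOf t i = (t_0 ... t_{i-1})⁻¹`, so that `sOf t i / sOf t (i+1) = t_i`. -/
def sOf {N : ℕ} (t : Fin N → ℂˣ) (i : ℕ) : ℂˣ :=
  (∏ k ∈ Finset.range i, if h : k < N then t ⟨k, h⟩ else 1)⁻¹

theorem rv_ext0_scale {B : Type*} [Ring B] [Algebra ℂ B] (q : ℂ) (t : Fin N → ℂˣ)
    (E : Fin N → B) (i j : ℕ) (hij : i < j) :
    rv q (ext0 fun k => (t k : ℂ) • E k) i j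
      = ((sOf t i : ℂ) * (sOf t j : ℂ)⁻¹) • rv q (ext0 E) i j := by
  have h1 : (ext0 fun k => (t k : ℂ) • E k)
      = fun k => ((sOf t k : ℂ) * (sOf t (k + 1) : ℂ)⁻¹) • ext0 E k := by
    funext k
    by_cases h : k < N
    · have : ((sOf t k : ℂ) * (sOf t (k + 1) : ℂ)⁻¹) = t ⟨k, h⟩ := by
        have hne : ((∏ x ∈ Finset.range k, if h : x < N then t ⟨x, h⟩ else 1 : ℂˣ) : ℂ) ≠ 0 :=
          Units.ne_zero _
        simp only [sOf, Finset.prod_range_succ, h, dif_pos, Units.val_inv_eq_inv_val,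
          Units.val_mul, inv_inv]
        field_simp
      rw [this]
      simp [ext0, h]
    · simp [ext0, h]
  rw [h1]
  unfold rv
  rw [rvA_scale]
  rw [show i + (j - i - 1) + 1 = j by omega]

/-- the torus automorphism `E_i ↦ t_i E_i`, `F_i ↦ t_i⁻¹ F_i`, `K_i ↦ K_i`. -/
theorem slScale (t : Fin N → ℂˣ) :
    SlRel N l q (fun i => (t i : ℂ) • uE N l q i) (fun i => ((t i)⁻¹ : ℂˣ).val • uF N l q i)
      (uK N l q) where
  K_comm := (slU N l q).K_comm
  K_pow := (slU N l q).K_pow
  KE i j := by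
    rw [mul_smul_comm, (slU N l q).KE, smul_mul_assoc, smul_comm]
  KF i j := by
    rw [mul_smul_comm, (slU N l q).KF, smul_mul_assoc, smul_comm]
  EF i := by
    have h0 : (t i : ℂ) ≠ 0 := (t i).ne_zero
    rw [← (slU N l q).EF]
    rw [smul_mul_smul_comm, smul_mul_smul_comm, Units.val_inv_eq_inv_val, mul_inv_cancel₀ h0,
      inv_mul_cancel₀ h0, one_smul, one_smul]
  EF_ne i j hij := by
    rw [smul_mul_smul_comm, smul_mul_smul_comm, (slU N l q).EF_ne i j hij, mul_comm]
  farE i j hij := by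
    rw [smul_mul_smul_comm, smul_mul_smul_comm, (slU N l q).farE i j hij, mul_comm]
  serreE i j hij := by
    have h1 := (slU N l q).serreE i j hij
    simp only [smul_pow, smul_mul_smul_comm, smul_smul]
    generalize uE N l q i ^ 2 * uE N l q j = X at *
    generalize uE N l q i * uE N l q j * uE N l q i = Y at *
    generalize uE N l q j * uE N l q i ^ 2 = Z at *
    linear_combination (norm := module) ((t i : ℂ) ^ 2 * (t j : ℂ)) • h1
  farF i j hij := by
    rw [smul_mul_smul_comm, smul_mul_smul_comm, (slU N l q).farF i j hij, mul_comm]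
  serreF i j hij := by
    have h1 := (slU N l q).serreF i j hij
    simp only [smul_pow, smul_mul_smul_comm, smul_smul]
    generalize uF N l q i ^ 2 * uF N l q j = X at *
    generalize uF N l q i * uF N l q j * uF N l q i = Y at *
    generalize uF N l q j * uF N l q i ^ 2 = Z at *
    linear_combination (norm := module)
      (((t i)⁻¹ : ℂˣ).val ^ 2 * ((t j)⁻¹ : ℂˣ).val) • h1
  powE i j h h' := by
    rw [rv_ext0_scale q t _ i j h, smul_pow, (slU N l q).powE i j h h', smul_zero]
  powF i j h h' := by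
    have := rv_ext0_scale q (fun k => (t k)⁻¹) (uF N l q) i j h
    rw [this, smul_pow, (slU N l q).powF i j h h', smul_zero]

/-- `torusAut t : E_i ↦ t_i E_i`, `F_i ↦ t_i⁻¹ F_i`, `K_i ↦ K_i` on `u_q(sl_{N+1})`. -/
def torusAut (N l : ℕ) (q : ℂ) (t : Fin N → ℂˣ) : Usl N l q →ₐ[ℂ] Usl N l q :=
  liftU (slScale t)

/-- the final statement. -/
def S_FINAL : Prop :=
  ∀ (N l : ℕ), 1 ≤ N → Odd l → 3 ≤ l → Nat.Coprime (N + 1) l → ∀ q : ℂ, IsPrimitiveRoot q l →
    ∀ (t : Fin N → ℂˣ) (z : Usl N l q), z ∈ Subalgebra.center ℂ (Usl N l q) →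
    torusAut N l q t z = z

end

end Pool.Agent.Helper19.SQ
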