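import Pool.Agent.Helper19.SQ.GoalsH
import Pool.Agent.Helper19.SQ.Usl

/-!
Project SQ (MP_bb32d1_al), helper19: goals for section 10 (Steinberg block, PBW basis, symmetric
form), the transfer from `sl` to `gl` (section 1) and the end (section 13).
-/

namespace Pool.Agent.Helper19.SQ

noncomputable section

open scoped TensorProduct

/-- CT, the coproduct lemma (goal of helper4, stated here once more for reference): two commuting
`GlRel` families give a `GlRel` family. -/
def S_CT : Prop :=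
  ∀ (B : Type) [Ring B] [Algebra ℂ B] (N l : ℕ) (q : ℂ), Par N l q →
    ∀ (E F K E' F' K' : ℕ → B), GlRel N l q E F K → GlRel N l q E' F' K' →
    (∀ i j, E i * E' j = E' j * E i) → (∀ i j, E i * F' j = F' j * E i) →
    (∀ i j, E i * K' j = K' j * E i) → (∀ i j, F i * E' j = E' j * F i) →
    (∀ i j, F i * F' j = F' j * F i) → (∀ i j, F i * K' j = K' j * F i) →
    (∀ i j, K i * E' j = E' j * K i) → (∀ i j, K i * F' j = F' j * K i) →
    (∀ i j, K i * K' j = K' j * K i) →
    GlRel N l q (fun i => E i + K i * K (i + 1) ^ (l - 1) * E' i)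
      (fun i => F i * (K' (i + 1) * K' i ^ (l - 1)) + F' i) (fun j => K j * K' j)

/-- GAM (goal of helper4).  Proof: section 10 of the proof text. -/
def S_GAM : Prop :=
  ∀ (N l : ℕ) [NeZero l] (q : ℂ), Par N l q → ∀ c : ZMod l,
    ∃ γ : ℂ, γ ≠ 0 ∧ ∀ (M : Type) [AddCommGroup M] [Module ℂ M]
      [Module (A N l q) M] [IsScalarTower ℂ (A N l q) M] (m : M),
      Sing q (fun j : Fin (N + 1) => c + ((j : ℕ) : ZMod l)) m →
      mon N q (gE N l q) (topE N l) • mon N q (gF N l q) (topE N l) • m = γ • m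

/-- ZB: the vectors `F^a zgen` form a basis of `Z(lam)`.
Hypotheses allowed: S_GAM, S_SOC, S_ROOT, S_LM, S_TRI, S_FDIM, S_ZUNIV, S_HARM.
Proof. Let `kappa_j = j` (the case `c = 0` of GAM) and `m = zgen kappa`, which is nonzero since
`Z(kappa)` is generated by it and `d_kappa > 0`.  Put `y_b = mon N q gF b • m`,
`f_k = lsm (gF k)`.  LM for `gF` (it satisfies SerreRel) gives the hypothesis of SOC; if some
`b_ij >= l` (`i < j <= N`) then `mon` contains the factor `rv^l = 0`.  `y_top != 0` by GAM.  So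
the `F^a m` are independent, `card EX <= d_kappa`.  For every `lam`, `Z(lam) = A zgen` is spanned
by the `F^a zgen` (TRI: `K^kappa` acts on `zgen` by scalars, `E^b zgen = 0` for `b != 0`: `mon b`
ends with a positive power of some `rv` which kills `zgen`; and `E^0 = 1`), so
`d_lam <= card EX`.  By HARM all `d_lam` are equal, so `d_lam = card EX` for all `lam`, and a
spanning family with `d_lam` members is a basis. -/
def S_ZB : Prop :=
  ∀ (N l : ℕ) [NeZero l] (q : ℂ) (_ : Dl N l q), Par N l q → ∀ lam : Fin (N + 1) → ZMod l,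
    LinearIndependent ℂ (fun a : EX N l => mon N q (gF N l q) a.1 • zgen q lam) ∧
    Submodule.span ℂ (Set.range fun a : EX N l => mon N q (gF N l q) a.1 • zgen q lam) = ⊤ ∧
    dZ (N := N) q lam = Fintype.card (EX N l)

/-- T2: the tensor product of two modules.  Hypothesis allowed: S_CT.
Proof. In `B = Module.End ℂ (M1 ⊗ M2)` take the families `lsm (gE i) ⊗ id` etc. (images of
`glA` under the algebra maps `a -> lsm a ⊗ id`, `a -> id ⊗ lsm a`; `GlRel.map`); they commute, so
CT and `liftA` give `rho`. -/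
def S_T2 : Prop :=
  ∀ (N l : ℕ) (q : ℂ), Par N l q → ∀ (M1 M2 : Type) [AddCommGroup M1] [Module ℂ M1]
    [Module (A N l q) M1] [IsScalarTower ℂ (A N l q) M1] [AddCommGroup M2] [Module ℂ M2]
    [Module (A N l q) M2] [IsScalarTower ℂ (A N l q) M2],
    ∃ ρ : A N l q →ₐ[ℂ] Module.End ℂ (M1 ⊗[ℂ] M2), ∀ (x : M1) (y : M2),
      (∀ i, ρ (gE N l q i) (x ⊗ₜ y) = (gE N l q i • x) ⊗ₜ y
        + ((gK N l q i * gK N l q (i + 1) ^ (l - 1)) • x) ⊗ₜ (gE N l q i • y)) ∧
      (∀ i, ρ (gF N l q i) (x ⊗ₜ y) = (gF N l q i • x) ⊗ₜ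
          ((gK N l q (i + 1) * gK N l q i ^ (l - 1)) • y) + x ⊗ₜ (gF N l q i • y)) ∧
      (∀ j, ρ (gK N l q j) (x ⊗ₜ y) = (gK N l q j • x) ⊗ₜ (gK N l q j • y))

/-- exponents of `K` as a function on `ℕ`. -/
def kx {N l : ℕ} (κ : Fin (N + 1) → Fin l) : ℕ → ℕ := fun j =>
  if h : j < N + 1 then (κ ⟨j, h⟩ : ℕ) else 0

/-- the PBW monomials `F^a K^kappa E^b`. -/
def pb (N l : ℕ) (q : ℂ) (x : EX N l × (Fin (N + 1) → Fin l) × EX N l) : A N l q :=
  mon N q (gF N l q) x.1.1 * kmon N (gK N l q) (kx x.2.1) * mon N q (gE N l q) x.2.2.1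

/-- PBWI: the PBW monomials are linearly independent.
Hypotheses allowed: S_ZB, S_GAM, S_SOC, S_ROOT, S_LM, S_T2, S_ZUNIV, S_HTOP.
Proof. Let `kappa0_j = j`, `m0 = zgen kappa0`, `t = F^top m0` in `Z(kappa0)`; by GAM
`E^top t = gamma m0 != 0`, so by SOC (with `y_b = E^b t`, `f_k = E_k`, LM) the vectors `E^b t`
(`b` in EX) are independent; each is a weight vector.  Let `lam` be any weight, `v = zgen lam` in
`Z(lam)`; `Z(lam)` has the basis `F^a v` (ZB); let `Z_h` be the span of those with `ht a = h`.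
In `Z(kappa0) ⊗ Z(lam)` (T2): `E_k (x ⊗ v) = E_k x ⊗ v`, so `E^b (t ⊗ v) = E^b t ⊗ v`;
`K^kappa (x ⊗ v) = K^kappa x ⊗ K^kappa v`; `F_k` maps `x ⊗ z`, `z` in `Z_h`, to
`(F_k x) ⊗ (K.. z) + x ⊗ F_k z`, the first in `Z(kappa0) ⊗ Z_h`, the second in
`Z(kappa0) ⊗ Z_{h+1}` (LM for `F`: `F_k F^a v` is a combination of `F^{a'} v`,
`ht a' = ht a + 1`).  Hence `F^a (x ⊗ v) = x ⊗ F^a v` modulo `Z(kappa0) ⊗ sum_{h < ht a} Z_h`.
Let `sum c_{a kappa b} F^a K^kappa E^b = 0`, not all `c` zero, `h` the maximal height of an `a`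
occurring.  Apply it to `t ⊗ v` and take the component in `Z(kappa0) ⊗ Z_h`:
`sum_{ht a = h} sum_{kappa, b} c (K^kappa E^b t) ⊗ (scalar(lam, kappa) F^a v) = 0`, where
`scalar = prod_j qz(lam_j)^{kappa_j}`.  As the `F^a v` are independent, and then the `E^b t` are
independent weight vectors of weight `mu_b`: for all `a` with `ht a = h`, all `b`,
`sum_kappa c_{a kappa b} prod_j qz(lam_j + mu_{b,j})^{kappa_j} = 0` for all `lam` in
`(Z/l)^{N+1}`.  Characters of the finite abelian group are independent (or: invert the finite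
Fourier transform), so `c_{a kappa b} = 0` for all `kappa`.  Contradiction. -/
def S_PBWI : Prop :=
  ∀ (N l : ℕ) [NeZero l] (q : ℂ) (_ : Dl N l q), Par N l q → LinearIndependent ℂ (pb N l q)

/-- PBWS: they span (from S_TRI; `kmon N K κ` only depends on `κ j`, `j <= N`). -/
def S_PBWS : Prop :=
  ∀ (N l : ℕ) (q : ℂ), Par N l q → Submodule.span ℂ (Set.range (pb N l q)) = ⊤

/-- the top exponent as an element of `EX`. -/
def topX (N l : ℕ) (hl : 0 < l) : EX N l := ⟨topE N l, fun i j => by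
  unfold topE
  constructor
  · intro h; rw [if_pos h]; omega
  · intro h; rw [if_neg h]⟩

/-- `t` is the coefficient of `F^top E^top` in the PBW basis. -/
def IsT (N l : ℕ) (q : ℂ) (t : A N l q →ₗ[ℂ] ℂ) : Prop :=
  ∀ x : EX N l × (Fin (N + 1) → Fin l) × EX N l,
    t (pb N l q x) = by
      classical
      exact if x.1.1 = topE N l ∧ (∀ j, (x.2.1 j : ℕ) = 0) ∧ x.2.2.1 = topE N l then 1 else 0

/-- TF0: existence of `t`. Hypotheses allowed: S_PBWI, S_PBWS. -/
def S_TF0 : Prop :=
  ∀ (N l : ℕ) [NeZero l] (q : ℂ) (_ : Dl N l q), Par N l q → ∃ t, IsT N l q t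

/-- TFK: `t(K_j x) = t(x K_j)`.  Hypothesis allowed: S_PBWS.
Proof. It suffices to take `x = F^a K^kappa E^b`; both sides vanish unless `a = b = top` (moving
`K_j` through `F^a` or `E^b` gives a scalar), and then `K_j F^top = q^{-w} F^top K_j`,
`E^top K_j = q^{-w} K_j E^top` with the same `w = sum_{i<i'} (l-1) ([j = i] - [j = i'])`. For
`j > N`, `K_j = 1`. -/
def S_TFK : Prop :=
  ∀ (N l : ℕ) [NeZero l] (q : ℂ), Par N l q → ∀ t, IsT N l q t →
    ∀ (j : ℕ) (x : A N l q), t (gK N l q j * x) = t (x * gK N l q j)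

/-- TFE: `t(E_k x) = t(x E_k)`.
Hypotheses allowed: S_PBWS, S_ROOT, S_LM, S_RM, S_SPAN, S_MONW, S_HTOP.
Proof. `x = F^a K^kappa E^b`, `k < N`.  Right side: `F^a K^kappa (E^b E_k)`; by RM the coefficient
of `E^top` in `E^b E_k` is nonzero only for `b = top - (k,k+1)` (`mvc b k j = top` would need
`b_{k+1,j} = l`), where it is `wR = 1`; so `t(x E_k) = [a = top][kappa = 0][b = top - (k,k+1)]`.
Left side: `E_k F^a = F^a E_k + [E_k, F^a]`, and `[E_k, F^a]` is a combination of (words in the
`F` of length `ht a - 1`) times `K_k^{±1} K_{k+1}^{∓1}` (MONW, and the commutator with a word),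
hence (SPAN) of `F^{a'} K..` with `ht a' < ht top`, whose contribution to `t` is zero.
`F^a E_k K^kappa E^b = (scalar, 1 if kappa = 0) F^a K^kappa E_k E^b`, and by LM the coefficient of
`E^top` in `E_k E^b` is nonzero only for `b = top - (k,k+1)`, where it is `wL = 1`.  For `k >= N`,
`E_k = 0`. -/
def S_TFE : Prop :=
  ∀ (N l : ℕ) [NeZero l] (q : ℂ), Par N l q → ∀ t, IsT N l q t →
    ∀ (k : ℕ) (x : A N l q), t (gE N l q k * x) = t (x * gE N l q k)

/-- TFF: `t(F_k x) = t(x F_k)`.  Same hypotheses as TFE.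
Proof. `t(F_k F^a K^kappa E^b) = [b = top][kappa = 0][a = top - (k,k+1)]` by LM for `F`.
`F^a K^kappa E^b F_k = F^a K^kappa F_k E^b + F^a K^kappa [E^b, F_k]`, the second term has
`E`-height `< ht top` (a combination of `K..` times words in `E` of length `ht b - 1`); the first
is `(scalar, 1 if kappa = 0) F^a F_k K^kappa E^b`, use RM for `F`. -/
def S_TFF : Prop :=
  ∀ (N l : ℕ) [NeZero l] (q : ℂ), Par N l q → ∀ t, IsT N l q t →
    ∀ (k : ℕ) (x : A N l q), t (gF N l q k * x) = t (x * gF N l q k)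

/-- TFN: `t` is nondegenerate.
Hypotheses allowed: S_PBWI, S_PBWS, S_ROOT, S_LM, S_RM, S_JK, S_SPAN, S_MONW, S_HTOP, and the
trace property.
Proof. Let `x != 0`.  Among the words `w` in the `F_k` choose a longest one with `w x != 0` (words
longer than `ht top` vanish by SPAN and HTOP); `x1 = w x`.  Then `F_k x1 = 0` for all `k`.  Write
`x1 = sum_{a,kappa,b} c F^a K^kappa E^b`; for fixed `(kappa, b)` the function `a -> c` is in the
joint kernel of the formal left multiplications (LM for `F`, PBWI), so by JK only `a = top`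
occurs: `x1 = F^top x2`, `x2 = sum_{kappa,b} c_{kappa b} K^kappa E^b`.  Similarly a longest word
`w'` in the `E_k` with `x1 w' != 0`; the function `b -> c_{kappa b}` of `x1 w'` is in the joint
kernel of the formal right multiplications (RM), which is again `C top`: the formal RM becomes the
formal LM under `b*_ij = b_{N-j,N-i}`, `k* = N-1-k` (or repeat the proof of JK).  So
`x1 w' = F^top x3 E^top` with `x3` a nonzero combination of the `K^kappa`; multiply by a suitable
`K^{kappa'}` on the right (moving it through `E^top` gives a scalar) to get a nonzero coefficient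
of `F^top E^top`.  So `t(w x w'') != 0` for some `w''`, hence `t(x w'' w) != 0`. -/
def S_TFN : Prop :=
  ∀ (N l : ℕ) [NeZero l] (q : ℂ) (_ : Dl N l q), Par N l q → ∀ t, IsT N l q t →
    (∀ x y, t (x * y) = t (y * x)) → ∀ x, (∀ y, t (x * y) = 0) → x = 0

/-- TFD: `t (tor s x) = t x`. Hypothesis allowed: S_PBWS.
Proof: `tor s` multiplies `F^a K^kappa E^b` by a scalar, which is `1` for `a = b = top`. -/
def S_TFD : Prop :=
  ∀ (N l : ℕ) [NeZero l] (q : ℂ) (hl : l ≠ 0), Par N l q → ∀ t, IsT N l q t →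
    ∀ (s : ℕ → ℂˣ) x, t (tor N l q hl s x) = t x

/-- TF, the symmetric form.  Hypotheses allowed: S_TF0, S_TFK, S_TFE, S_TFF, S_TFN, S_TFD.
Proof. The set of `a` with `t(a y) = t(y a)` for all `y` is a subalgebra. -/
def S_TF : Prop :=
  ∀ (N l : ℕ) [NeZero l] (q : ℂ) (hl : l ≠ 0) (_ : Dl N l q), Par N l q →
    ∃ t : A N l q →ₗ[ℂ] ℂ, (∀ x y, t (x * y) = t (y * x)) ∧
      (∀ x, (∀ y, t (x * y) = 0) → x = 0) ∧ ∀ (s : ℕ → ℂˣ) x, t (tor N l q hl s x) = t x

/-- STT: homogeneous traces of nonzero degree vanish on the Steinberg block.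
Hypotheses allowed: S_GAM, S_TRI, S_SPAN, S_MONW, S_HTOP, S_SV, S_FDIM.
Proof. `c` is fixed, `kappa_j = c + j`; `e` is a central idempotent of `A` such that for all
singular `v` (weight `lam`, in any f.d. module) `e v = v` if `lam = kappa` and `e v = 0`
otherwise.  Let `kap'_j = kappa_j + w_j`, where `w` is the weight `mod l` of `E^top` changed in
sign, such that `F^top m` has weight `kap'` for `m` singular of weight `kappa` (`w_j = - sum (l-1)
([j = i] - [j = i'])` over `i < i' <= N`), and `1_{kap'}` the idempotent of the span of the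
`K^kappa` projecting to the weight space `kap'` (see SV).  `y = E^top 1_{kap'}` in `A`:
`E_k y = 0` (a word of length `ht top + 1`: SPAN, HTOP), `K_j y = q^{kappa_j} y`, so `y` is
singular of weight `kappa` in the left regular module.  `f = gamma^{-1} F^top y`.
(1) For singular `y` and words: `(word in E of length h)(word in F of length h') y = 0` if
`h > h'` (each `E_k` either passes to `y` or shortens the word in `F` by one), so
`E^top F^a y = 0` for admissible `a != top` (`ht a < ht top`), `E^top F^top y = gamma y`.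
Since `A y = span F^a y` (TRI), `E^top A y` is in `C y`; so `f x f = gamma^{-2} F^top E^top
1_{kap'} x F^top y` is in `C F^top y = C f`, for all `x`; `f f = f` (`1_{kap'} F^top y = F^top y`).
(2) `phi(f) = f` for `phi = tor s` (degree 0: `F^top` and `E^top` have opposite degrees), so
`tau(f) = tau(phi f) = zeta tau(f)`, `tau(f) = 0`, and `tau(x f x') = tau(f x' x f) = 0` (`f` is
idempotent), because `f x' x f` is in `C f`.  So `tau` vanishes on `A f A`.
(3) `e` is in `A f A`: let `J = A f A + A (1 - e)` (two-sided).  If `J != A` then `A/J` has a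
nonzero singular vector `v` (SV); `e v = v`, so its weight is `kappa`; `F^top v` has weight `kap'`
and `f F^top v = gamma^{-1} F^top E^top 1_{kap'} F^top v = gamma^{-1} F^top E^top F^top v = F^top v`;
`f` acts as zero on `A/J` (`f x` is in `J`), so `F^top v = 0`, contradicting
`E^top F^top v = gamma v != 0`.  So `1 = j + x (1-e)`, `e = j e` with `j` in `A f A`.
Hence `tau(x) = tau(x e) = 0`. -/
def S_STT : Prop :=
  ∀ (N l : ℕ) [NeZero l] (q : ℂ) (hl : l ≠ 0), Par N l q → ∀ (s : ℕ → ℂˣ) (c : ZMod l)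
    (e : A N l q), (∀ a, e * a = a * e) → e * e = e →
    (∀ (M : Type) [AddCommGroup M] [Module ℂ M] [Module (A N l q) M]
      [IsScalarTower ℂ (A N l q) M] [FiniteDimensional ℂ M] (lam : Fin (N + 1) → ZMod l) (v : M),
      Sing q lam v → ((∀ j : Fin (N + 1), lam j = c + ((j : ℕ) : ZMod l)) → e • v = v) ∧
        ((¬ ∀ j : Fin (N + 1), lam j = c + ((j : ℕ) : ZMod l)) → e • v = 0)) →
    ∀ (ζ : ℂ) (τ : A N l q →ₗ[ℂ] ℂ), ζ ≠ 1 → (∀ x y, τ (x * y) = τ (y * x)) →
      (∀ x, τ (tor N l q hl s x) = ζ * τ x) → (∀ x, τ (x * e) = τ x) → τ = 0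

/-! ### transfer from `sl` to `gl` -/

/-- IOTA: the relations of `u_q(sl)` hold for `E_i, F_i, K_i K_{i+1}^{-1}` in `A`.
Proof: direct (`cart i j = pr i j - pr (i+1) j`; the root vectors of `ext0` agree with those of
`gE`, `i < j <= N`; `K^{l-1}` is the inverse of `K`; `(K_i K_{i+1}^{l-1})^{l-1} =
K_i^{l-1} K_{i+1}`; far commutation and Serre relations from `SerreRel`). -/
def S_IOTA : Prop :=
  ∀ (N l : ℕ) (q : ℂ), Par N l q →
    SlRel N l q (fun i => gE N l q i) (fun i => gF N l q i)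
      (fun i : Fin N => gK N l q i * gK N l q (i + 1) ^ (l - 1))

/-- `kappa_j = prod_{i<N} K_i ^ ([j <= i] + (l-1) n' (i+1))`, `n' (N+1) = 1 mod l`. -/
def kap (N l : ℕ) (q : ℂ) (n' : ℕ) (j : ℕ) : Usl N l q :=
  if j ≤ N then ((List.range N).map fun i =>
    ext1 (uK N l q) i ^ ((if j ≤ i then 1 else 0) + (l - 1) * n' * (i + 1))).prod else 1
where
  /-- extension by one. -/
  ext1 {B : Type} [One B] {N : ℕ} (f : Fin N → B) (i : ℕ) : B :=
    if h : i < N then f ⟨i, h⟩ else 1

/-- PI: the relations of `u_q(gl)` hold in `Usl` for `E_i, F_i, kappa_j`, and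
`kappa_j kappa_{j+1}^{-1} = K_j` (`j < N`).
Proof. The `K_i` commute and have `l`-th power `1`, so products of powers may be computed with
exponents mod `l`.  `kappa_j kappa_{j+1}^{-1}`: the exponents differ by `[j <= i] - [j+1 <= i] =
[i = j]`.  `kappa_j E_k = q^{e} E_k kappa_j` with `e = sum_i ([j <= i] - n'(i+1)) cart i k`,
and `sum_i [j <= i] cart i k = pr j k - [k = N-1]·(-1)...`: precisely, put `g_i = [j <= i] -
n'(i+1)` for `0 <= i <= N` and `g_{-1} = 0`; `g_N = 1 - n'(N+1) = 0 mod l`, so for `0 <= k < N`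
`e = 2 g_k - g_{k-1} - g_{k+1}` mod `l` (the term `g_{k+1}` for `k = N-1` is `g_N = 0`), and
`g_i - g_{i-1} = [i = j] - n'`, so `e = (g_k - g_{k-1}) - (g_{k+1} - g_k) = [k = j] - [k+1 = j] =
pr j k`.  Same for `F` with the opposite sign. -/
def S_PI : Prop :=
  ∀ (N l : ℕ) (q : ℂ), Par N l q → ∀ n' : ℕ, (n' * (N + 1)) % l = 1 →
    GlRel N l q (ext0 (uE N l q)) (ext0 (uF N l q)) (kap N l q n') ∧
    ∀ j : Fin N, kap N l q n' j * kap N l q n' (j + 1) ^ (l - 1) = uK N l q j

/-- TRA: the transfer.  Hypotheses allowed: S_IOTA, S_PI.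
Proof. `iota = liftU` (IOTA), `pi = liftA` (PI); `pi (iota x) = x` (check on generators), so
`iota` is injective.  `C = K_0 ... K_N` in `A` is central: it commutes with `E_k`
(`sum_j pr j k = 0` for `k < N`), `F_k`, `K_j`.  `K_j^{N+1} = C prod_{i<=N} (K_j K_i^{-1})` and
`K_j K_i^{-1}` is in the image of `iota` (products of `K_i K_{i+1}^{-1}`), and
`K_j = (K_j^{N+1})^{n'}`; so `A` is generated by the image of `iota` and `C`.  Let `z` be central
in `Usl`: `iota z` commutes with the image of `iota` and with `C`, so it is central in `A`.  With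
`s = sOf t` (`s_i s_{i+1}^{-1} = t_i`), `tor s (iota x) = iota (torusAut t x)` (check on
generators).  So `iota (torusAut t z) = tor s (iota z) = iota z`. -/
def S_TRA : Prop :=
  ∀ (N l : ℕ) (q : ℂ) (hl : l ≠ 0), Par N l q → Nat.Coprime (N + 1) l →
    (∀ z : A N l q, (∀ a, z * a = a * z) → ∀ s : ℕ → ℂˣ, tor N l q hl s z = z) →
    ∀ (t : Fin N → ℂˣ) (z : Usl N l q), z ∈ Subalgebra.center ℂ (Usl N l q) →
    torusAut N l q t z = z

/-! ### the end -/

/-- TWI: there is a generic torus element.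
Proof. `s_j` = the `j`-th prime (as a unit of `ℂ`): `prod p_j^{mu_j} = prod p_j^{nu_j}` with
integer exponents forces `mu = nu` (unique factorization; move negative exponents to the other
side, or use `padicValRat`). -/
def S_TWI : Prop := ∀ N : ℕ, ∃ s : ℕ → ℂˣ, Function.Injective (tw N s)

/-- HOMG: degree `0` for one generic element means degree `0`.  Hypothesis allowed: S_TRI.
Proof. The spanning elements of TRI are eigenvectors of `tor s0` with eigenvalue `tw N s0 mu`,
`mu` their degree, and of `tor s` with eigenvalue `tw N s mu`.  Group `z = sum_mu z_mu` by degrees;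
`tor s0 z = z` gives `sum_mu (tw N s0 mu - 1) z_mu = 0`, with distinct eigenvalues, so `z_mu = 0`
for `mu != 0` (eigenvectors for distinct eigenvalues are independent): `z = z_0`. -/
def S_HOMG : Prop :=
  ∀ (N l : ℕ) (q : ℂ) (hl : l ≠ 0), Par N l q → ∀ s0 : ℕ → ℂˣ,
    Function.Injective (tw N s0) → ∀ z : A N l q, tor N l q hl s0 z = z →
    ∀ s : ℕ → ℂˣ, tor N l q hl s z = z

/-- ZDEG: Hypotheses allowed: S_TRI, S_FDIM.
Proof. `A` is the sum of the eigenspaces of `phi = tor s0` (TRI), so `z = sum_zeta z_zeta`, a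
finite sum, `phi z_zeta = zeta z_zeta`; each `z_zeta` is a polynomial in `phi` applied to `z`
(Lagrange), and `phi^k z` is central (`phi` is bijective: its inverse is `tor s0⁻¹`); so `z_zeta`
is central, `z_zeta = 0` for `zeta != 1`, and `z = z_1`. -/
def S_ZDEG : Prop :=
  ∀ (N l : ℕ) (q : ℂ) (hl : l ≠ 0), Par N l q → ∀ s0 : ℕ → ℂˣ,
    (∀ z : A N l q, (∀ a, z * a = a * z) → ∀ ζ : ℂ, ζ ≠ 1 → tor N l q hl s0 z = ζ • z → z = 0) →
    ∀ z : A N l q, (∀ a, z * a = a * z) → tor N l q hl s0 z = z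

end

end Pool.Agent.Helper19.SQ
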