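import Pool.Agent.Helper19.SQ.Defs2

/-!
Project SQ (MP_bb32d1_al), quantum group half (written by helper4): root vectors, coproduct of two
commuting families, the maps `delta` and `eps`.

Conventions for the packets: deliver `Pool/Agent/<YourSeat>/SQ/XX.lean`, importing this file, with
theorems `sXX : S_XX`; every other goal `S_YY` may be taken as a hypothesis `(h : S_YY)`.
`E_ij` is `rv q E i j`, `E°_ij` is `rvo q E i j` (`i < j`), `ki l K j = K j ^ (l - 1)` is the inverse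
of `K j`.  Indices of products of scalars: `q ^ (z : ℤ)` needs `q ≠ 0` for `zpow_add₀`.
-/

namespace Pool.Agent.Helper19.SQ

noncomputable section

/-! ### Section 2: root vectors -/

/-- **R2** (part of packet RA).  `E_k E_ij = E_ij E_k` if `k + 1 < i` or `j < k`.
Proof.  `rvA q E d i` is a noncommutative polynomial in `E_i, ..., E_{i+d}`; induction on `d`
(generalizing `i`): `E k` commutes with each of them by `SerreRel.far`. -/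
def S_R2 : Prop := ∀ (B : Type) [Ring B] [Algebra ℂ B] (q : ℂ) (E : ℕ → B), SerreRel q E →
  ∀ i j k, i < j → (k + 1 < i ∨ j < k) → E k * rv q E i j = rv q E i j * E k

/-- **R9** (part of packet RA).  `E_ij E_kl = E_kl E_ij` if `j < k`.
Proof.  `E_kl` is a polynomial in `E_k, ..., E_{l-1}`, and each of these commutes with `E_ij` by R2
(index `> j`).  Induction on `l - k`. -/
def S_R9 : Prop := ∀ (B : Type) [Ring B] [Algebra ℂ B] (q : ℂ) (E : ℕ → B), SerreRel q E →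
  ∀ i j k m, i < j → j < k → k < m → rv q E i j * rv q E k m = rv q E k m * rv q E i j

/-- **R3** (part of packet RA).  `E_{i,j+1} = E_ij E_j - q⁻¹ E_j E_ij` (`i < j`).
Proof.  Induction on `j - i` (in terms of `rvA`: `rvA (d+1) i = rvA d i * E (i+d+1) -
q⁻¹ • (E (i+d+1) * rvA d i)`, induction on `d`).  `d = 0` is the definition.  Step:
`E_{i,j+1} = E_i E_{i+1,j+1} - q⁻¹ E_{i+1,j+1} E_i`, insert `E_{i+1,j+1} = E_{i+1,j} E_j -
q⁻¹ E_j E_{i+1,j}`, use `E_i E_j = E_j E_i` (`j ≥ i + 2`), and collect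
`E_ij = E_i E_{i+1,j} - q⁻¹ E_{i+1,j} E_i` twice. -/
def S_R3 : Prop := ∀ (B : Type) [Ring B] [Algebra ℂ B] (q : ℂ) (E : ℕ → B), SerreRel q E →
  ∀ i j, i < j → rv q E i (j + 1) = rv q E i j * E j - q⁻¹ • (E j * rv q E i j)

/-- **R4** (part of packet RB).  `E_i E_ij = q E_ij E_i` (`j ≥ i + 2`).
Proof.  `j = i + 2`: `E_i (E_i E_{i+1} - q⁻¹ E_{i+1} E_i) - q (E_i E_{i+1} - q⁻¹ E_{i+1} E_i) E_i` is
the left side of `s1`.  Step `j → j + 1` by R3: `E_{i,j+1} = E_ij E_j - q⁻¹ E_j E_ij` and `E_i`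
commutes with `E_j` (`j ≥ i + 2`). -/
def S_R4 : Prop := ∀ (B : Type) [Ring B] [Algebra ℂ B] (q : ℂ) (E : ℕ → B), q ≠ 0 →
  SerreRel q E → ∀ i j, i + 2 ≤ j → E i * rv q E i j = q • (rv q E i j * E i)

/-- **R5** (part of packet RB).  `E_{i,j+1} E_j = q E_j E_{i,j+1}` (`i < j`).
Proof.  `j = i + 1`: `(E_i E_{i+1} - q⁻¹ E_{i+1} E_i) E_{i+1} - q E_{i+1} (E_i E_{i+1} -
q⁻¹ E_{i+1} E_i)` is the left side of `s2`.  Step `i → i - 1` by the definition of `rv`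
(`E_{i-1}` commutes with `E_j`). -/
def S_R5 : Prop := ∀ (B : Type) [Ring B] [Algebra ℂ B] (q : ℂ) (E : ℕ → B), q ≠ 0 →
  SerreRel q E → ∀ i j, i < j → rv q E i (j + 1) * E j = q • (E j * rv q E i (j + 1))

/-- **R6** (part of packet RC).  `E_k E_ij = E_ij E_k` (`i < k`, `k + 1 < j`).
Proof.  (1) The case `i = k - 1`, `j = k + 2`: `a = E_{k-1}`, `b = E_k`, `c = E_{k+1}`,
`u = ab - q⁻¹ ba`, `v = bc - q⁻¹ cb`, `x = uc - q⁻¹ cu = av - q⁻¹ va` (R3 and definition),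
`ub = q bu` (R5), `bv = q vb` (R4).  From `x = av - q⁻¹ va` and `bv = q vb`: `bx = [ba, v]`,
`xb = q⁻¹ [ab, v]`.  From `x = uc - q⁻¹ cu` and `ub = q bu`: `bx = q⁻¹ [u, bc]`, `xb = [u, cb]`.  So
`q (bx - xb) = [v, ab - q ba] = [v, u] + (q - q⁻¹) bx` (as `ab - q ba = u - (q - q⁻¹) ba`) and
`q (bx - xb) = [u, bc - q cb] = [u, v] - (q - q⁻¹) xb`.  Add: `(q + q⁻¹)(bx - xb) = 0`, and
`q + q⁻¹ ≠ 0`.
(2) General: extend to the left with the definition of `rv` (`E_i`, `i ≤ k - 2`, commutes with `E_k`),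
to the right with R3 (`E_j`, `j ≥ k + 2`, commutes with `E_k`). -/
def S_R6 : Prop := ∀ (B : Type) [Ring B] [Algebra ℂ B] (q : ℂ) (E : ℕ → B), q ≠ 0 → q ^ 2 ≠ -1 →
  SerreRel q E → ∀ i j k, i < k → k + 1 < j → E k * rv q E i j = rv q E i j * E k

/-- **R8** (part of packet RD).  Nested root vectors commute: `i < k < m < j`.
Proof.  `E_km` is a polynomial in `E_k, ..., E_{m-1}`, each commutes with `E_ij` by R6; induction on
`m - k` with the definition of `rv`. -/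
def S_R8 : Prop := ∀ (B : Type) [Ring B] [Algebra ℂ B] (q : ℂ) (E : ℕ → B), q ≠ 0 → q ^ 2 ≠ -1 →
  SerreRel q E → ∀ i j k m, i < k → k < m → m < j →
    rv q E i j * rv q E k m = rv q E k m * rv q E i j

/-- **R10** (part of packet RD).  `E_ij E_ik = q E_ik E_ij` (`i < j < k`).
Proof.  `j = i + 1` is R4.  Otherwise `E_ij = E_i E_{i+1,j} - q⁻¹ E_{i+1,j} E_i`, where `E_{i+1,j}`
commutes with `E_ik` (R8) and `E_i E_ik = q E_ik E_i` (R4). -/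
def S_R10 : Prop := ∀ (B : Type) [Ring B] [Algebra ℂ B] (q : ℂ) (E : ℕ → B), q ≠ 0 → q ^ 2 ≠ -1 →
  SerreRel q E → ∀ i j k, i < j → j < k →
    rv q E i j * rv q E i k = q • (rv q E i k * rv q E i j)

/-- **R11** (part of packet RD).  `E_ik E_jk = q E_jk E_ik` (`i < j < k`).
Proof.  `k = j + 1` is R5.  Otherwise `E_jk = E_{j,k-1} E_{k-1} - q⁻¹ E_{k-1} E_{j,k-1}` (R3), where
`E_{j,k-1}` commutes with `E_ik` (R8) and `E_ik E_{k-1} = q E_{k-1} E_ik` (R5). -/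
def S_R11 : Prop := ∀ (B : Type) [Ring B] [Algebra ℂ B] (q : ℂ) (E : ℕ → B), q ≠ 0 → q ^ 2 ≠ -1 →
  SerreRel q E → ∀ i j k, i < j → j < k →
    rv q E i k * rv q E j k = q • (rv q E j k * rv q E i k)

/-- **RO** (packet RO; uses R2, R3, R4, R5, R6).  The relations for the opposite root vectors.
Proof.  In `Bᵐᵒᵖ` the family `op ∘ E` satisfies `SerreRel q` (in `s1`, `s2` the outer terms are
exchanged) and `rvA q (op ∘ E) d i = op (rvoA q E d i)` (induction on `d`); apply R2, R3, R4, R5, R6 in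
`Bᵐᵒᵖ` and `unop`. -/
def S_RO : Prop := ∀ (B : Type) [Ring B] [Algebra ℂ B] (q : ℂ) (E : ℕ → B), q ≠ 0 → q ^ 2 ≠ -1 →
  SerreRel q E →
    (∀ i j k, i < j → (k + 1 < i ∨ j < k) → E k * rvo q E i j = rvo q E i j * E k) ∧
    (∀ i j, i < j → rvo q E i (j + 1) = E j * rvo q E i j - q⁻¹ • (rvo q E i j * E j)) ∧
    (∀ i j, i + 2 ≤ j → rvo q E i j * E i = q • (E i * rvo q E i j)) ∧
    (∀ i j, i < j → E j * rvo q E i (j + 1) = q • (rvo q E i (j + 1) * E j)) ∧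
    (∀ i j k, i < k → k + 1 < j → E k * rvo q E i j = rvo q E i j * E k)

/-! ### Section 3: half families, weights, coproduct of two commuting families -/

section Cop

variable {B : Type*} [Ring B] [Algebra ℂ B]

/-- the relations between the `E_i` and the `K_j` only. -/
structure HRel (l : ℕ) (q : ℂ) (E K : ℕ → B) : Prop where
  K_comm : ∀ i j, K i * K j = K j * K i
  K_pow : ∀ j, K j ^ l = 1
  KE : ∀ j i, K j * E i = q ^ pr j i • (E i * K j)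
  sE : SerreRel q E
  pE : ∀ d i, rvA q E d i ^ l = 0

/-- `K_i K_j⁻¹`. -/
def kk (l : ℕ) (K : ℕ → B) (i j : ℕ) : B := K i * ki l K j

/-- the `K_p`-weight of `E_ij`. -/
def ew (p i j : ℕ) : ℤ := (if p = i then 1 else 0) - (if p = j then 1 else 0)

/-- all members of `X` commute with all members of `Y`. -/
def Cm (X Y : ℕ → B) : Prop := ∀ i j, X i * Y j = Y j * X i

/-- `E'_i + k'_i E''_i`. -/
def cE (l : ℕ) (E1 K1 E2 : ℕ → B) (i : ℕ) : B := E1 i + kk l K1 i (i + 1) * E2 i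

/-- `F'_i k''_i⁻¹ + F''_i`. -/
def cF (l : ℕ) (F1 K2 F2 : ℕ → B) (i : ℕ) : B := F1 i * kk l K2 (i + 1) i + F2 i

/-- `K'_j K''_j`. -/
def cK (K1 K2 : ℕ → B) (j : ℕ) : B := K1 j * K2 j

/-- two commuting families. -/
structure Cm2 (E1 F1 K1 E2 F2 K2 : ℕ → B) : Prop where
  EE : Cm E1 E2
  EF : Cm E1 F2
  EK : Cm E1 K2
  FE : Cm F1 E2
  FF : Cm F1 F2
  FK : Cm F1 K2
  KE : Cm K1 E2
  KF : Cm K1 F2
  KK : Cm K1 K2

end Cop

/-- **KI** (packet KW).  The inverse of `K_j`. -/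
def S_KI : Prop := ∀ (B : Type) [Ring B] [Algebra ℂ B] (l : ℕ) (K : ℕ → B), 1 ≤ l →
  (∀ i j, K i * K j = K j * K i) → (∀ j, K j ^ l = 1) →
    (∀ j, K j * ki l K j = 1) ∧ (∀ j, ki l K j * K j = 1) ∧
    (∀ i j, K i * ki l K j = ki l K j * K i) ∧ (∀ i j, ki l K i * ki l K j = ki l K j * ki l K i) ∧
    (∀ j, ki l (ki l K) j = K j) ∧ (∀ j, ki l K j ^ l = 1)

/-- **HF** (packet KW).  `(E, K)` and `(F, K⁻¹)` are half families.
Proof.  `K_j F_i = q^{-pr} F_i K_j`; multiply by `K_j⁻¹` on both sides: `K_j⁻¹ F_i = q^{pr} F_i K_j⁻¹`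
(S_KI). -/
def S_HF : Prop := ∀ (B : Type) [Ring B] [Algebra ℂ B] (N l : ℕ) (q : ℂ) (E F K : ℕ → B), 1 ≤ l →
  q ≠ 0 → GlRel N l q E F K → HRel l q E K ∧ HRel l q F (ki l K)

/-- **KW** (packet KW).  Weights of the root vectors.
Proof.  `pr p k = ew p k (k+1)`, `ew p i (i+1) + ew p (i+1) j = ew p i j`; induction on `j - i` with the
definitions of `rvA`, `rvoA`.  For `ki`: multiply `K_p R = q^e R K_p` by `K_p⁻¹` on both sides. -/
def S_KW : Prop := ∀ (B : Type) [Ring B] [Algebra ℂ B] (l : ℕ) (q : ℂ) (E K : ℕ → B), 1 ≤ l →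
  q ≠ 0 → HRel l q E K → ∀ p i j, i < j →
    K p * rv q E i j = q ^ ew p i j • (rv q E i j * K p) ∧
    ki l K p * rv q E i j = q ^ (-ew p i j) • (rv q E i j * ki l K p) ∧
    K p * rvo q E i j = q ^ ew p i j • (rvo q E i j * K p) ∧
    ki l K p * rvo q E i j = q ^ (-ew p i j) • (rvo q E i j * ki l K p)

/-- **KG** (packet KW; from HF, KW, KI).  The same for the three kinds of root vectors of a `GlRel`
family, in the form in which it is used (for `F` apply `S_KW` to `(F, ki l K)` and use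
`ki l (ki l K) = K`). -/
def S_KG : Prop := ∀ (B : Type) [Ring B] [Algebra ℂ B] (N l : ℕ) (q : ℂ) (E F K : ℕ → B), 1 ≤ l →
  q ≠ 0 → GlRel N l q E F K → ∀ p i j, i < j →
    (K p * rv q E i j = q ^ ew p i j • (rv q E i j * K p) ∧
    ki l K p * rv q E i j = q ^ (-ew p i j) • (rv q E i j * ki l K p)) ∧
    (K p * rv q F i j = q ^ (-ew p i j) • (rv q F i j * K p) ∧
    ki l K p * rv q F i j = q ^ ew p i j • (rv q F i j * ki l K p)) ∧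
    (K p * rvo q F i j = q ^ (-ew p i j) • (rvo q F i j * K p) ∧
    ki l K p * rvo q F i j = q ^ ew p i j • (rvo q F i j * ki l K p))

/-- **QBIN** (packet QB).  `x y = q² y x` implies `(x + y)^l = x^l + y^l`.
Proof.  `t = q²` is a primitive `l`-th root of unity (`l` odd).  Gaussian binomials by the recursion
`g (n+1) (k+1) = g n k + t^(k+1) g n (k+1)` (or the other one), `(x + y)^n = ∑_k g n k • (y^k x^(n-k))`
by induction on `n` (`x y^k = t^k y^k x`), and `g n k * ∏_{i<k} (1 - t^(i+1)) = ∏_{i<k}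
(1 - t^(n-i))`, so `g l k = 0` for `0 < k < l` (the factor `i = 0` of the right side vanishes and
`1 - t^(i+1) ≠ 0` for `i + 1 < l`).  Check first whether some file of Pool/Agent already has
the `q`-binomial theorem for `q`-commuting elements. -/
def S_QBIN : Prop := ∀ (B : Type) [Ring B] [Algebra ℂ B] (l : ℕ) (q : ℂ), Odd l →
  IsPrimitiveRoot q l → ∀ x y : B, x * y = (q ^ 2) • (y * x) → (x + y) ^ l = x ^ l + y ^ l

/-- **QBINS** (packet QB; from QBIN).  Several terms.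
Proof.  Induction on `n`: `(∑_{p<n} T_p) T_n = q² T_n (∑_{p<n} T_p)`. -/
def S_QBINS : Prop := ∀ (B : Type) [Ring B] [Algebra ℂ B] (l : ℕ) (q : ℂ), Odd l →
  IsPrimitiveRoot q l → ∀ (n : ℕ) (T : ℕ → B),
    (∀ p r, p < r → r < n → T p * T r = (q ^ 2) • (T r * T p)) → (∀ p, p < n → T p ^ l = 0) →
    (∑ p ∈ Finset.range n, T p) ^ l = 0

/-- **CS** (packet CS).  The Serre relations for `x_i + y_i`.
`a_ij = pr i j - pr (i+1) j`: `a_ii = 2`, `a_{i,i+1} = a_{i+1,i} = -1`, `a_ij = 0` otherwise.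
Proof.  Far: `a_ij = 0`, expand.  `s1` with `x = x_i, y = y_i, x' = x_{i+1}, y' = y_{i+1}`:
`yx = q² xy`, `yx' = q⁻¹ x'y`, `y'x = q⁻¹ xy'`.  Expand `(x+y)²(x'+y') - [2](x+y)(x'+y')(x+y) +
(x'+y')(x+y)²`, `[2] = q + q⁻¹`.  The terms `xxx'` and `yyy'` are the Serre relations of `x`, `y`.
`x,y,x'`: `(1+q²)q⁻¹ xx'y - [2](xx'y + q x'xy) + (1+q²) x'xy = 0`.  `y,y,x'`: `(q⁻² - [2]q⁻¹ + 1) x'yy =
0`.  `x,x,y'`: `(1 - [2]q⁻¹ + q⁻²) xxy' = 0`.  `x,y,y'`: `(1+q²) xyy' - [2](xy'y + q xyy') +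
(1+q²)q⁻¹ xy'y = 0`.  `s2` is the same with `i` and `i+1` exchanged. -/
def S_CS : Prop := ∀ (B : Type) [Ring B] [Algebra ℂ B] (q : ℂ) (x y : ℕ → B), q ≠ 0 →
  SerreRel q x → SerreRel q y →
  (∀ i j, y i * x j = q ^ (pr i j - pr (i + 1) j) • (x j * y i)) → SerreRel q (fun i => x i + y i)

/-- **CR** (packet CR; uses KW, R2).  Root vectors of `E_i = E'_i + k'_i E''_i`.
Proof.  Induction on `j - i`, `E_ij = E_i E_{i+1,j} - q⁻¹ E_{i+1,j} E_i` with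
`E_i = E'_i + k'_i E''_i`, `E_{i+1,j} = E'_{i+1,j} + (1-q⁻²) ∑_{i+1<p<j} E'_{i+1,p} k'_pj E''_pj +
k'_{i+1,j} E''_{i+1,j}`.  Six groups of terms:
(1) `E'_i` with `E'_{i+1,j}`: gives `E'_ij`.
(2) `E'_i` with the `p`-term: `k'_pj E'_i = E'_i k'_pj` (`p > i + 1`), gives `(1-q⁻²) E'_ip k'_pj E''_pj`.
(3) `E'_i` with `k'_{i+1,j} E''_{i+1,j}`: `k'_{i+1,j} E'_i = q⁻¹ E'_i k'_{i+1,j}`, gives
`(1-q⁻²) E'_i k'_{i+1,j} E''_{i+1,j}`, the term `p = i + 1`.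
(4) `k'_i E''_i` with `E'_{i+1,j}`: `k'_i E'_{i+1,j} = q⁻¹ E'_{i+1,j} k'_i`, cancels.
(5) `k'_i E''_i` with the `p`-term: `k'_i E'_{i+1,p} = q⁻¹ E'_{i+1,p} k'_i`, `E''_i E''_pj = E''_pj E''_i`
(R2, `p > i + 1`), cancels.
(6) `k'_i E''_i` with `k'_{i+1,j} E''_{i+1,j}`: gives `k'_ij E''_ij` (`k'_i k'_{i+1,j} = k'_ij`). -/
def S_CR : Prop := ∀ (B : Type) [Ring B] [Algebra ℂ B] (l : ℕ) (q : ℂ) (E1 K1 E2 : ℕ → B),
  1 ≤ l → q ≠ 0 → HRel l q E1 K1 → SerreRel q E2 → Cm E1 E2 → Cm K1 E2 → ∀ i j, i < j →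
    rv q (cE l E1 K1 E2) i j = rv q E1 i j +
      (1 - q⁻¹ ^ 2) • ∑ p ∈ Finset.Ioo i j, rv q E1 i p * (kk l K1 p j * rv q E2 p j) +
      kk l K1 i j * rv q E2 i j

/-- **CP** (packet CP; uses CR, QBINS, KW, R10, R11).  The root vectors of `E'_i + k'_i E''_i` are
nilpotent of order `l`.
Proof.  `i < j`.  `T_i = k'_ij E''_ij`, `T_p = (1-q⁻²) E'_ip k'_pj E''_pj` (`i < p < j`),
`T_j = E'_ij`; `E_ij = T_i + ... + T_j` (CR), `T_p T_r = q² T_r T_p` for `p < r`: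
`i < p < r < j`: `k'_pj` commutes with `E'_ir`, `k'_rj` with `E'_ip`, `E'_ip E'_ir = q E'_ir E'_ip` (R10),
`E''_pj E''_rj = q E''_rj E''_pj` (R11).  `p > i, r = j`: `k'_pj E'_ij = q E'_ij k'_pj` and R10.
`p = i, r < j`: `k'_ij E'_ir = q E'_ir k'_ij` and R11.  `p = i, r = j`: `k'_ij E'_ij = q² E'_ij k'_ij`.
`T_p^l = 0`: the factors of `T_p` commute up to scalars, so `T_p^l` is a scalar multiple of
`E'_ip^l ... = 0` (resp. `E''_ij^l = 0`).  Apply QBINS to `T_i, T_{i+1}, ..., T_j` (in this order).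
(`i ≥ j` never occurs: `rvA d i = rv i (i+d+1)`.) -/
def S_CP : Prop := ∀ (B : Type) [Ring B] [Algebra ℂ B] (l : ℕ) (q : ℂ) (E1 K1 E2 K2 : ℕ → B),
  Odd l → 3 ≤ l → IsPrimitiveRoot q l → HRel l q E1 K1 → HRel l q E2 K2 → Cm E1 E2 → Cm K1 E2 →
    ∀ d i, rvA q (cE l E1 K1 E2) d i ^ l = 0

/-- **CO** (packet CO; uses KG or KW, RO).  Opposite root vectors of `F_i = F'_i k''_i⁻¹ + F''_i`
(`kk l K2 p i = k''_ip⁻¹`).
Proof.  Induction on `j - i` with `F°_ij = F°_{i+1,j} F_i - q⁻¹ F_i F°_{i+1,j}`.  Groups: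
(1) `F''°_{i+1,j}` with `F''_i`: `F''°_ij`.
(2) `F''°_{i+1,j}` with `F'_i k''_i⁻¹`: `k''_i⁻¹ F''°_{i+1,j} = q⁻¹ F''°_{i+1,j} k''_i⁻¹`, gives
`(1-q⁻²) F'_i F''°_{i+1,j} k''_i⁻¹`, the term `p = i + 1`.
(3) the `p`-term with `F''_i`: `k''_{i+1,p}⁻¹ F''_i = q⁻¹ F''_i k''_{i+1,p}⁻¹`, `F''_i` commutes with
`F''°_pj` (`p > i + 1`), cancels.
(4) the `p`-term with `F'_i k''_i⁻¹`: `k''_i⁻¹` commutes with `F''°_pj`, gives
`(1-q⁻²) F'°_ip F''°_pj k''_ip⁻¹`.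
(5) `F'°_{i+1,j} k''_{i+1,j}⁻¹` with `F''_i`: `k''_{i+1,j}⁻¹ F''_i = q⁻¹ F''_i k''_{i+1,j}⁻¹`, cancels.
(6) `F'°_{i+1,j} k''_{i+1,j}⁻¹` with `F'_i k''_i⁻¹`: `F'°_ij k''_ij⁻¹`. -/
def S_CO : Prop := ∀ (B : Type) [Ring B] [Algebra ℂ B] (N l : ℕ) (q : ℂ)
  (E1 F1 K1 E2 F2 K2 : ℕ → B), 3 ≤ l → q ≠ 0 → q ^ 2 ≠ -1 → GlRel N l q E1 F1 K1 →
  GlRel N l q E2 F2 K2 → Cm2 E1 F1 K1 E2 F2 K2 → ∀ i j, i < j →
    rvo q (cF l F1 K2 F2) i j = rvo q F2 i j +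
      (1 - q⁻¹ ^ 2) • ∑ p ∈ Finset.Ioo i j, rvo q F1 i p * rvo q F2 p j * kk l K2 p i +
      rvo q F1 i j * kk l K2 j i

/-- **CE** (packet CE; uses KI).  The commutators `[E_i, F_j]` of the coproduct family.
Proof.  `[E'_i + k'_i E''_i, F'_j k''_j⁻¹ + F''_j]`: `[E'_i, F'_j] k''_j⁻¹ + k'_i [E''_i, F''_j] +
(k'_i E''_i F'_j k''_j⁻¹ - F'_j k''_j⁻¹ k'_i E''_i)`, and the last bracket is zero:
`k'_i F'_j = q^{-a_ij} F'_j k'_i`, `k''_j⁻¹ E''_i = q^{-a_ji} E''_i k''_j⁻¹`, where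
`a_ij = pr i j - pr (i+1) j = a_ji`.  For `i = j < N`: `(q - q⁻¹)⁻¹` times
`(k' - k'⁻¹) k''⁻¹ + k' (k'' - k''⁻¹) = k' k'' - (k' k'')⁻¹`.
(`(K'_i K''_i)^(l-1) = K'_i^(l-1) K''_i^(l-1)` since `K'_i`, `K''_i` commute.) -/
def S_CE : Prop := ∀ (B : Type) [Ring B] [Algebra ℂ B] (N l : ℕ) (q : ℂ)
  (E1 F1 K1 E2 F2 K2 : ℕ → B), 3 ≤ l → q ≠ 0 → GlRel N l q E1 F1 K1 → GlRel N l q E2 F2 K2 →
  Cm2 E1 F1 K1 E2 F2 K2 →
    (∀ i j, i ≠ j → cE l E1 K1 E2 i * cF l F1 K2 F2 j = cF l F1 K2 F2 j * cE l E1 K1 E2 i) ∧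
    (∀ i, i < N → cE l E1 K1 E2 i * cF l F1 K2 F2 i - cF l F1 K2 F2 i * cE l E1 K1 E2 i
      = (q - q⁻¹)⁻¹ • (cK K1 K2 i * cK K1 K2 (i + 1) ^ (l - 1)
        - cK K1 K2 i ^ (l - 1) * cK K1 K2 (i + 1)))

/-- **CT** (packet CT, Prop S_CTG; uses CS, CP, CE, HF, KI, KW).  The coproduct lemma.
Proof.  `EF`, `EF_ne`: CE.  `sE`: CS for `x_i = E'_i`, `y_i = k'_i E''_i`, where
`y_i x_j = q^{a_ij} x_j y_i` and `SerreRel q y` because `y_i y_j = k'_i k'_j E''_i E''_j`.  `pE`: CP.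
`F`-part: `cF l F1 K2 F2 = cE l F2 (ki l K2) F1` (`kk l (ki l K2) i (i+1) = kk l K2 (i+1) i`,
commutation) and `(F2, ki l K2)`, `(F1, ki l K1)` are half families (HF), so `sF`, `pF` are the
`E`-statements for them.  `KE`, `KF`, `K_comm`, `K_pow`, `E_out`, `F_out`, `K_out`: directly. -/
def S_CTG : Prop := ∀ (B : Type) [Ring B] [Algebra ℂ B] (N l : ℕ) (q : ℂ)
  (E1 F1 K1 E2 F2 K2 : ℕ → B), Par N l q → GlRel N l q E1 F1 K1 → GlRel N l q E2 F2 K2 →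
  Cm2 E1 F1 K1 E2 F2 K2 → GlRel N l q (cE l E1 K1 E2) (cF l F1 K2 F2) (cK K1 K2)

/-! ### Section 4: the representations `V`, `V*`, the maps `delta`, `eps`, cups and caps -/

/-- `V`: `E_k = e_{k,k+1}`. -/
def vE (N k : ℕ) : Mat N ℂ := Matrix.of fun a b => if (a : ℕ) = k ∧ (b : ℕ) = k + 1 then 1 else 0
/-- `V`: `F_k = e_{k+1,k}`. -/
def vF (N k : ℕ) : Mat N ℂ := Matrix.of fun a b => if (a : ℕ) = k + 1 ∧ (b : ℕ) = k then 1 else 0
/-- `V`: `K_j`. -/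
def vK (N : ℕ) (q : ℂ) (j : ℕ) : Mat N ℂ := Matrix.diagonal fun a => if (a : ℕ) = j then q else 1
/-- `V*`: `E_k = -q e_{k+1,k}`. -/
def wE (N : ℕ) (q : ℂ) (k : ℕ) : Mat N ℂ :=
  Matrix.of fun a b => if (a : ℕ) = k + 1 ∧ (b : ℕ) = k then -q else 0
/-- `V*`: `F_k = -q⁻¹ e_{k,k+1}`. -/
def wF (N : ℕ) (q : ℂ) (k : ℕ) : Mat N ℂ :=
  Matrix.of fun a b => if (a : ℕ) = k ∧ (b : ℕ) = k + 1 then -q⁻¹ else 0
/-- `V*`: `K_j`. -/
def wK (N : ℕ) (q : ℂ) (j : ℕ) : Mat N ℂ := Matrix.diagonal fun a => if (a : ℕ) = j then q⁻¹ else 1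

/-- **VRV** (packet VR).  Root vectors of `V` and `V*`.
Proof.  Induction on `j - i` with the definitions; `e_ab e_cd = [b = c] e_ad`. -/
def S_VRV : Prop := ∀ (N : ℕ) (q : ℂ), q ≠ 0 → ∀ i j, i < j →
  (rv q (vE N) i j = Matrix.of fun a b : Fin (N + 1) =>
    if (a : ℕ) = i ∧ (b : ℕ) = j ∧ j ≤ N then (1 : ℂ) else 0) ∧
  (rv q (vF N) i j = Matrix.of fun a b : Fin (N + 1) =>
    if (a : ℕ) = j ∧ (b : ℕ) = i ∧ j ≤ N then (-q⁻¹) ^ (j - i - 1) else 0) ∧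
  (rvo q (vF N) i j = Matrix.of fun a b : Fin (N + 1) =>
    if (a : ℕ) = j ∧ (b : ℕ) = i ∧ j ≤ N then (1 : ℂ) else 0) ∧
  (rv q (wE N q) i j = Matrix.of fun a b : Fin (N + 1) =>
    if (a : ℕ) = j ∧ (b : ℕ) = i ∧ j ≤ N then -q else 0) ∧
  (rv q (wF N q) i j = Matrix.of fun a b : Fin (N + 1) =>
    if (a : ℕ) = i ∧ (b : ℕ) = j ∧ j ≤ N then (-q⁻¹) ^ (j - i) else 0) ∧
  (rvo q (wF N q) i j = Matrix.of fun a b : Fin (N + 1) =>
    if (a : ℕ) = i ∧ (b : ℕ) = j ∧ j ≤ N then -q⁻¹ ^ (2 * (j - i) - 1) else 0)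

/-- **VREP** (packet VR; uses VRV).  `V` and `V*` satisfy the relations.
Proof.  Entries.  `E_i² = 0`, `E_i E_{i±1} E_i = 0` on `V` and `V*`.  `K_j^l = 1` as `q^l = 1`;
`[E_i, F_i] = ±(e_ii - e_{i+1,i+1})`, and `q - q^(l-1) = q - q⁻¹ ≠ 0`.  The root vectors are
multiples of one `e_ab`, `a ≠ b`, so their square is zero. -/
def S_VREP : Prop := ∀ (N l : ℕ) (q : ℂ), Par N l q →
  GlRel N l q (vE N) (vF N) (vK N q) ∧ GlRel N l q (wE N q) (wF N q) (wK N q)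

/-- **DELTA** (packet DE; uses CTG, VREP).  Existence of `delta` and `eps`.
Proof.  In `Mat N (A N l q)` take the two commuting families `(sc A (vE N i), ...)` (image of VREP
under `Matrix.map (algebraMap)`, an algebra map `Mat N ℂ →ₐ Mat N A`, `GlRel.map`) and
`(diagonal (fun _ => gE i), ...)` (image of `glA` under `Matrix.scalar`/`diagonal`); the coproduct
family of CT has the entries `dE`, `dF`, `dK`; `liftA`.  The same with `wE, wF, wK` gives `eps`. -/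
def S_DELTA : Prop := ∀ (N l : ℕ) (q : ℂ), Par N l q → Nonempty (Dl N l q)

/-- **CAP0** (packet CUP). -/
def S_CAP0 : Prop := ∀ (N l : ℕ) (q : ℂ), Par N l q → ∀ (D : Dl N l q) (a : A N l q)
  (i k : Fin (N + 1)), ∑ j, D.ep (D.dl a j i) j k = if k = i then a else 0

/-- **CUP0** (packet CUP). -/
def S_CUP0 : Prop := ∀ (N l : ℕ) (q : ℂ), Par N l q → ∀ (D : Dl N l q) (a : A N l q)
  (p j : Fin (N + 1)), ∑ i, D.dl (D.ep a j i) p i = if j = p then a else 0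

/-- **CAP1** (packet CUP). -/
def S_CAP1 : Prop := ∀ (N l : ℕ) (q : ℂ), Par N l q → ∀ (D : Dl N l q) (a : A N l q)
  (i k : Fin (N + 1)), ∑ j : Fin (N + 1), (q⁻¹ ^ (2 * (j : ℕ))) • D.dl (D.ep a j i) j k
    = if k = i then (q⁻¹ ^ (2 * (k : ℕ))) • a else 0

/-- **CUP1** (packet CUP).  Proof of the four identities.  For each the set of `a` with the identity
(for all indices) is closed under sums, scalars and products; e.g. cap0:
`∑_j ε(δ(ab)_ji)_jk = ∑_{r,s} (∑_j ε(δ(a)_jr)_js) ε(δ(b)_ri)_sk = a ∑_r ε(δ(b)_ri)_rk`;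
cup0: `∑_i δ(ε(ab)_ji)_pi = ∑_{r,s} δ(ε(a)_jr)_ps (∑_i δ(ε(b)_ri)_si) = (∑_r δ(ε(a)_jr)_pr) b`;
cap1: with the weights `q^{-2j}` (first inner sum `∑_j q^{-2j} δ(ε(a)_jr)_js = [s = r] q^{-2s} a`);
cup1: `∑_k q^{2k} ε(δ(ab)_pk)_jk = ∑_{r,s} ε(δ(a)_pr)_js (∑_k q^{2k} ε(δ(b)_rk)_sk)`.
So (`A_induction`) check generators.  cap0 for `E_p`: `δ(E_p)_ji = [j=p, i=p+1] + [j=i] q^{pr(i,p)}
E_p`, so the sum is `[k=p, i=p+1] + q^{pr(i,p)} (-q [i=p+1, k=p] + [i=k] q^{-pr(i,p)} E_p) = [i=k] E_p`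
(`pr(p+1,p) = -1`).  The others are similar (`K_j`: `q q⁻¹ = 1`; `F_p`: use
`ε(K_{p+1} K_p⁻¹) = diag(q^{pr(s,p)}) K_{p+1} K_p⁻¹`, `δ(K_{p+1} K_p⁻¹) = diag(q^{-pr(s,p)}) ...`; here
`K_p⁻¹ = K_p^(l-1)` and `q^(l-1) = q⁻¹`). -/
def S_CUP1 : Prop := ∀ (N l : ℕ) (q : ℂ), Par N l q → ∀ (D : Dl N l q) (a : A N l q)
  (p j : Fin (N + 1)), ∑ k : Fin (N + 1), (q ^ (2 * (k : ℕ))) • D.ep (D.dl a p k) j k
    = if j = p then (q ^ (2 * (p : ℕ))) • a else 0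

end

end Pool.Agent.Helper19.SQ
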