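import Pool.Agent.Helper19.SQ.GoalsH
import Pool.Agent.Helper19.SQ.GoalsQ
import Pool.Agent.Helper34.SQ.GoalsT0
import Pool.Agent.Helper41.SQ.BBasic

/-!
Project SQ (MP_bb32d1_al), helper41: goals for sections 8 and 9 (characters, central elements,
block idempotents, the operator `X` and the blocks).  Every goal is a `def S_XX : Prop` with its
complete proof in the docstring.  Basic lemmas (`chiL`, `chi_mul_comm`, `chi_scalar`, `qz_add`,
`qz_mul_nat`, `qz2_inj`, `mem_typs`, `pair_add`, ...) and definitions (`typs`, `pim`, `Bser`, `Bco`,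
`Gser`, `pair`, `Good`, `IsBl`) are in `Pool/Agent/Helper41/SQ/BBasic.lean` (proved).
-/

namespace Pool.Agent.Helper19.SQ

noncomputable section

open Matrix Pool.Agent.Helper41.SQ

/-! ### characters of `V (x) M`, `V* (x) M` -/

/-- **CHARV** (trace of a matrix acting on columns).  No hypotheses.
Proof. `Ten H M` is `Fin (N+1) → M`.  Take a basis `b` of `M`; `Pi.basis (fun _ => b)` is a basis of
`Fin (N+1) → M`; by `LinearMap.trace_eq_matrix_trace` the trace of `actM Y` is the sum over `(i, k)` of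
the `k`-th coordinate of the `i`-th entry of `actM Y (b_k in place i)`, which is `b.repr (Y i i • b k) k`.
Sum over `k` first: `trace (lsm (Y i i)) = chi M (Y i i)`; then `chi` is additive (`chiL`).
(`Matrix.trace Y = sum_i Y i i`.)  The second claim is the first for `Y = H a`, as
`a • f = actM (H a) f` (`Ten.smul_def`), so `lsm a = actM (H a)` on `Ten H M`. -/
def S_CHARV : Prop :=
  ∀ (N l : ℕ) (q : ℂ) (H : A N l q →ₐ[ℂ] Mat N (A N l q)) (M : Type) [AddCommGroup M]
    [Module ℂ M] [Module (A N l q) M] [IsScalarTower ℂ (A N l q) M] [FiniteDimensional ℂ M],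
    (∀ Y : Mat N (A N l q), LinearMap.trace ℂ (Ten H M) (actM Y) = chi M (Matrix.trace Y)) ∧
    ∀ a : A N l q, chi (Ten H M) a = chi M (Matrix.trace (H a))

/-- **XLAY** (polynomials in `X` on the layers of `V (x) M`).  Hypothesis allowed: S_LAYX.
Proof. Write `X = Xm N l q`, `w_i = tv D.dl i m`, `y_i = qz q (2 * xl lam i)`,
`U_j = Ulow D.dl m j = span_A {w_i : i < j}`.  `X` acts `A`-linearly (`actMA X hX`).
(a) `X U_j ⊆ U_j`: for `i < j`, `X w_i - y_i w_i ∈ U_i ⊆ U_j` (LAYX), so `X w_i ∈ U_j`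
(`y_i w_i ∈ U_j`: a `ℂ`-multiple is an `A`-multiple); `Submodule.span_le` / `Submodule.map_span`.
Hence `p(X) U_j ⊆ U_j` for every polynomial `p` (only needed for `p = X^k`).
(b) `X^k w_j - y_j^k w_j ∈ U_j` by induction on `k`: `X^{k+1} w_j = X (X^k w_j) = y^k X w_j + X u
= y^{k+1} w_j + u'` with `u, u' ∈ U_j` (use `actM_mul`).  (c) general `p`: both sides are linear in `p`
(`Polynomial.induction_on'`; `pev p X = Polynomial.aeval X p`; `actM` is additive and `ℂ`-linear in the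
matrix: prove `actM (Y + Z) f = actM Y f + actM Z f` and `actM (c • Y) f = c • actM Y f` from
`actM_apply`). -/
def S_XLAY : Prop :=
  ∀ (N l : ℕ) [NeZero l] (q : ℂ) (D : Dl N l q), Par N l q →
    (∀ a, Xm N l q * D.dl a = D.dl a * Xm N l q) →
    ∀ (M : Type) [AddCommGroup M] [Module ℂ M]
    [Module (A N l q) M] [IsScalarTower ℂ (A N l q) M] (lam : Fin (N + 1) → ZMod l) (m : M),
    Sing q lam m → ∀ (j : Fin (N + 1)) (p : Polynomial ℂ),
      actM (pev p (Xm N l q)) (tv D.dl j m) - (p.eval (qz q (2 * xl lam j))) • tv D.dl j m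
        ∈ Ulow D.dl m j

/-- **CH1**.  Hypotheses allowed: S_FL, S_LAYA, S_XLAY, S_HARM, S_ZUNIV, S_GENV, S_CUP0, S_FDIM,
S_CHARV.
Proof. Apply FL to `W = Ten D.dl (Zl q lam)` (finite dimensional by ZUNIV), `r = N + 1`,
`w_j = tv D.dl j (zgen q lam)`, `μ j = addE lam j`.  The first two hypotheses of FL are LAYA (the set
`{f | ∃ i, i < j ∧ f = w i}` is the one in `Ulow`; the second difference is `0`).  The `w_j` generate:
every `f` is `sum_j tv D.dl j (f j)`, `f j = a_j • zgen` (ZUNIV, `Submodule.mem_span_singleton`), and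
`tv D.dl j (a • zgen) = sum_i D.ep a j i • w_i` (GENV with CUP0).  `finrank W = (N+1) * dZ lam` and all
`dZ` are equal (HARM), so `finrank W = sum_j dZ (μ j)`.  FL with `P = actMA (X^k) _` (`X^k` commutes
with `D.dl a`) and `y_j = (qz q (2 * xl lam j))^k` (XLAY for `p = X^k`) gives
`trace P = sum_j y_j dZ (μ j) = dZ lam * sum_j y_j`, and `trace P = chi (Zl q lam) (tr X^k)` by CHARV. -/
def S_CH1 : Prop :=
  ∀ (N l : ℕ) [NeZero l] (q : ℂ) (D : Dl N l q), Par N l q →
    (∀ a, Xm N l q * D.dl a = D.dl a * Xm N l q) →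
    ∀ (lam : Fin (N + 1) → ZMod l) (k : ℕ),
      chi (Zl q lam) (Matrix.trace (Xm N l q ^ k))
        = (dZ q lam : ℂ) * ∑ j, qz q (2 * xl lam j) ^ k

/-- **CH2**.  Hypotheses allowed: S_FL, S_LAYS, S_HARM, S_ZUNIV, S_GENVS, S_CUP1, S_FDIM, S_CHARV.
Proof. Apply FL to `W = Ten D.ep (Zl q lam)`, `r = N + 1`, in reversed order:
`w_j = tv D.ep (Fin.rev j) (zgen q lam)`, `μ j = subE lam (Fin.rev j)`.  The set
`{f | ∃ i, i < j ∧ f = w i}` is `{f | ∃ i, Fin.rev j < i ∧ f = tv D.ep i zgen}` (`Fin.rev_lt_rev`), so the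
first two hypotheses of FL are LAYS.  Generation: as in CH1 with GENVS (hypothesis CUP1, `q ≠ 0`; the
scalar times `D.dl a p k` is an element of `A`).  `finrank W = (N+1) * dZ lam = sum_j dZ (μ j)` (HARM).
FL: `chi W a = sum_j chi (Zl q (μ j)) a = sum_j chi (Zl q (subE lam j)) a` (`Fin.revPerm`), and
`chi W a = chi (Zl q lam) (tr (D.ep a))` by CHARV. -/
def S_CH2 : Prop :=
  ∀ (N l : ℕ) [NeZero l] (q : ℂ) (D : Dl N l q), Par N l q →
    ∀ (lam : Fin (N + 1) → ZMod l) (a : A N l q),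
      chi (Zl q lam) (Matrix.trace (D.ep a)) = ∑ j, chi (Zl q (subE lam j)) a

/-- **TYP** (combinatorics of types).  No hypotheses.
Proof. `ty lam c = #{j : xl lam j = c}`, so it is `≥ 0` and sums to `N + 1`
(`Finset.card_eq_sum_card_fiberwise`).  `xl (addE lam j) i = xl lam i + [i = j]`: the value at `j` moves
from `x_j` to `x_j + 1`, so `ty (addE lam j) c = ty lam c - [c = x_j] + [c = x_j + 1]
= (ty lam - al (x_j)) c`.  `xl (subE lam j) i = xl lam i - [i = j]`: `ty (subE lam j) c = ty lam c -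
[c = x_j] + [c = x_j - 1] = (ty lam + al (x_j - 1)) c`.  (Write `ty lam c = sum_j [x_j = c]` and split
off the term `j`.)  `al c = al c'` implies `c = c'`: `al c c = 1` as `c ≠ c + 1` (`l ≥ 3`), and
`al c' c = [c = c'] - [c = c' + 1]` is `1` only if `c = c'`.  Last claim:
`sum_j qz q (2 x_j)^k = sum_c ty(c) qz q (2 c)^k` (`Finset.sum_fiberwise`) and
`sum_j qz q (2 (x_j - 1))^k = sum_c ty(c) qz q (2 (c - 1))^k = sum_c ty(c + 1) qz q (2 c)^k`
(reindex by `Equiv.addRight 1`). -/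
def S_TYP : Prop :=
  ∀ (N l : ℕ) [NeZero l] (q : ℂ), Par N l q → ∀ (lam : Fin (N + 1) → ZMod l),
    ty lam ∈ typs N l ∧
    (∀ j, ty (addE lam j) = ty lam - al (xl lam j)) ∧
    (∀ j, ty (subE lam j) = ty lam + al (xl lam j - 1)) ∧
    (∀ c c' : ZMod l, al c = al c' → c = c') ∧
    (∀ k : ℕ, ∑ j, (qz q (2 * (xl lam j - 1)) ^ k - qz q (2 * xl lam j) ^ k)
      = pim q (ty lam) k)

/-- **EVAL** (`pi_k` acts on a singular vector of weight `lam` by `pi_k(ty lam)`).  Hypotheses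
allowed: S_CORE0, S_TR (of Helper34), S_HC, S_CH1, S_CH2, S_HARM, S_ZUNIV, S_FDIM, S_TYP.
Proof. `a = C.pi k` is central and fixed by `C.φ = tor` (CORE0, last two claims), so HC gives `c(lam)`
with `a • v = c(lam) • v` for all singular `v` of weight `lam` in all modules.  Take `Z = Zl q lam`: `a`
acts on `zgen`, hence (central, `zgen` generates, ZUNIV) on all of `Z` by `c(lam)`, so
`chi Z a = c(lam) * dZ lam` (`chi_scalar`).  TR for the algebra `A N l q`, `κ = ι × ι`
(`ι = Fin (N+1)`), `Y = X2 C.ε C.X`, `Y' = C.X1p` (field `X2eq`), `D = 1`, `x = 1`, `u = C.u`, `v = C.v`,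
`τ = chiL Z`: `τ(tr X2^k) - τ(tr X1p^k) = τ(C.pi k)`.
`X1p^k = S X1^k T` (CORE0 (5) for `p = X^k`), so `τ(tr X1p^k) = τ(tr(X1^k T S)) = τ(tr X1^k)`
(`trace_comm_of_tr`, `TS`, `sc_mul`, `sc_one`), `X1(X)^k = X1(X^k)` (`pev_X1` or `bd`) and
`tr X1(M) = sum_{(j,p)} M_pp = (N+1) tr M`; so by CH1 it is `(N+1) d sum_j y_j^k`, `y_j = qz(2 x_j)`,
`d = dZ lam`.  `X2^k = Phi ε (X^k)` (`pev_X2`), `tr (Phi ε M) = sum_{p,j} ε(M_pp)_jj = tr (ε (tr M))`, so
by CH2, CH1: `τ(tr X2^k) = sum_i chi_{Z(lam - eps_i)}(tr X^k) = sum_i d (sum_{j ≠ i} y_j^k + y'_i^k)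
= d (N sum_j y_j^k + sum_j y'_j^k)`, `y'_j = qz(2 (x_j - 1))` (all `dZ` equal `d`, HARM;
`xl (subE lam i) j = xl lam j - [j = i]`).  So `c(lam) d = d sum_j (y'_j^k - y_j^k)`, `d ≠ 0` (HARM), and
TYP (last claim). -/
def S_EVAL : Prop :=
  ∀ (N l : ℕ) [NeZero l] (q : ℂ) (D : Dl N l q) (hl : l ≠ 0) (s : ℕ → ℂˣ)
    (C : Core0 (A N l q) (Fin (N + 1))), Par N l q → Function.Injective (tw N s) →
    IsC0 D hl s C → ∀ (k : ℕ) (M : Type) [AddCommGroup M] [Module ℂ M]
    [Module (A N l q) M] [IsScalarTower ℂ (A N l q) M] (lam : Fin (N + 1) → ZMod l) (v : M),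
    Sing q lam v → C.pi k • v = pim q (ty lam) k • v

/-! ### power series -/

/-- **GDER**.  No hypotheses.
Proof. `G = 1 + sum_k b_k z^{k+1}`, `T = sum_r β_r z^{r+1}` (`= X * mk β`).  REL says `G = 1 + T G`
(coefficient of `z^{k+1}`: `b_k = β_k + sum_{r+s=k-1} β_r b_s`), i.e. `(1 - T) G = 1`.  The definition of
`piv` says `mk (piv b β) = (1 - T) z G'`: the coefficient of `z^{k+1}` of `z G'` is `(k+1) b_k`, that
of `T z G'` is `sum_{r+s=k-1} β_r (s+1) b_s`, `s + 1 = k - r`.  So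
`mk (piv b β) G = (1 - T) G z G' = z G'`. -/
def S_GDER : Prop :=
  ∀ (R : Type) [CommRing R] [Algebra ℂ R] (b β : ℕ → R),
    (∀ k, b k = β k + ∑ r ∈ Finset.range k, β r * b (k - 1 - r)) →
    PowerSeries.X * PowerSeries.derivative R (Gser b)
      = PowerSeries.mk (piv b β) * Gser b

/-- **BDER**.  No hypotheses.
Proof. For a unit `U` of `PowerSeries ℂ` put `L(U) = z U' U^{-1}`; `L(U V) = L(U) + L(V)`, so
`L(U^n) = n L(U)` for `n` in `ℤ` and `L(prod) = sum L` (`L` is a monoid map to `Multiplicative`, or do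
the inductions by hand; `L(U^{-1}) = - L(U)` from `U U^{-1} = 1`).  For `U = linU a`:
`z U' = - a z` and `(- sum_{k ≥ 1} a^k z^k)(1 - a z) = - a z`, so `L(linU a) = - sum_{k ≥ 1} a^k z^k`.  Hence
`L(Bser q m)` has the coefficient `- sum_c (m_c - m_{c+1}) qz(2c)^k = pim q m k` for `k ≥ 1`, and `0` for
`k = 0`, and `pim q m 0 = 0` (`pim_zero`). -/
def S_BDER : Prop :=
  ∀ (l : ℕ) [NeZero l] (q : ℂ) (m : ZMod l → ℤ),
    PowerSeries.X * PowerSeries.derivative ℂ (Bser q m : PowerSeries ℂ)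
      = PowerSeries.mk (pim q m) * (Bser q m : PowerSeries ℂ)

/-- **BUNIQ**.  Hypotheses allowed: S_GDER, S_BDER.
Proof. `G = Gser b` and `B = Bser q m` satisfy `z G' = P G`, `z B' = P B` with the same
`P = mk (pim q m)`, `P_0 = 0` (`pim_zero`), and `G_0 = 1 = B_0` (the constant coefficient of `linU a` is
`1`, so that of every integer power and product is `1`).  Coefficient of `z^k`, `k ≥ 1`:
`k G_k = sum_{i+j=k, j<k} P_i G_j` and the same for `B`, so `G_k = B_k` by strong induction.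
`G_{k+1} = b k`, `B_{k+1} = Bco q m k`. -/
def S_BUNIQ : Prop :=
  ∀ (l : ℕ) [NeZero l] (q : ℂ) (m : ZMod l → ℤ) (b β : ℕ → ℂ),
    (∀ k, b k = β k + ∑ r ∈ Finset.range k, β r * b (k - 1 - r)) →
    (∀ k, piv b β k = pim q m k) → ∀ k, b k = Bco q m k

/-- **GOOD** (the calculus of `Good l K F`: `(1 - z^l)^K F` is a polynomial of degree `≤ l K`).
No hypotheses.
Proof. (1) multiply the two polynomials.  (2) multiply by `(1 - z^l)^{K'-K}`, a polynomial of degree
`≤ l (K' - K)`.  (3), (4) clear.  (5) `Polynomial.map`, `PowerSeries.map`.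
(7) the coefficient of `z^{lK+j+1}` in `(1 - z^l)^K F`: by the binomial theorem
`(1 - z^l)^K = sum_t C(K,t) (-1)^{K-t} z^{l(K-t)}` and `(u^l - 1)^K = sum_t C(K,t) (-1)^{K-t} u^{lt}`, so
with `h_i` the coefficients of `(u^l - 1)^K` it is
`sum_t C(K,t) (-1)^{K-t} F_{lt + j + 1} = sum_{i ≤ lK} h_i F_{i+j+1}` (E).  If all these vanish, then
`(1 - z^l)^K F` is its truncation at `lK + 1` (`PowerSeries.trunc`), a polynomial of degree `≤ lK`.
(6) By linearity in `g` (`pair_add`, `pair_smul`) take `g = u^j`: the pairing of `u^{j+1} (u^l - 1)^K`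
with the coefficients of `F` is `sum_i h_i F_{i+j+1}`, which by (E) is the coefficient of `z^{lK+j+1}`
in a polynomial of degree `≤ lK`, so it is `0`. -/
def S_GOOD : Prop :=
  ∀ (R : Type) [CommRing R] [Algebra ℂ R] (l : ℕ) [NeZero l],
    (∀ (K K' : ℕ) (F F' : PowerSeries R), Good l K F → Good l K' F' → Good l (K + K') (F * F')) ∧
    (∀ (K K' : ℕ) (F : PowerSeries R), K ≤ K' → Good l K F → Good l K' F) ∧
    (∀ (K : ℕ) (F F' : PowerSeries R), Good l K F → Good l K F' → Good l K (F + F')) ∧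
    (∀ (K : ℕ) (F : PowerSeries R) (c : R), Good l K F → Good l K (PowerSeries.C c * F)) ∧
    (∀ (K : ℕ) (F : PowerSeries ℂ), Good l K F →
      Good l K (PowerSeries.map (algebraMap ℂ R) F)) ∧
    (∀ (K : ℕ) (F : PowerSeries R), Good l K F → ∀ g : Polynomial ℂ,
      pair (Polynomial.X * ((Polynomial.X ^ l - 1) ^ K * g))
        (fun k => PowerSeries.coeff k F) = 0) ∧
    (∀ (K : ℕ) (F : PowerSeries R),
      (∀ j, ∑ i ∈ Finset.range (l * K + 1),
        ((Polynomial.X ^ l - 1 : Polynomial ℂ) ^ K).coeff i • PowerSeries.coeff (i + j + 1) F = 0) →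
      Good l K F)

/-- **BINV**.  No hypotheses.
Proof. `a_c = m_c - m_{c+1}`, `sum_c a_c = 0` (`sum_diff`).  Take `K` with `a_c ≤ K` for all `c`.
`1 - z^l = prod_c (1 - qz(2c) z)`: the numbers `qz(2c)` are `l` distinct `l`-th roots of unity
(`qz2_inj`, `qz_pow_l`); from `X_pow_sub_one_eq_prod`/`Polynomial` roots: `u^l - 1 = prod_c (u - qz(2c))`,
hence the reversed identity (or: both sides are polynomials of degree `≤ l` with the same `l` distinct
roots `qz(2c)^{-1}` and the same value `1` at `0`).  So `(1 - z^l)^K B^{-1} = prod_c (1 - qz(2c) z)^{K - a_c}`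
(`Int.toNat (K - a_c)`; in the group of units: `prod_c linU^K * prod_c linU^{-a_c}`), a polynomial of
degree `≤ sum_c (K - a_c) = l K`. -/
def S_BINV : Prop :=
  ∀ (l : ℕ) [NeZero l] (q : ℂ), IsPrimitiveRoot q l → Odd l → ∀ m : ZMod l → ℤ,
    ∃ K, Good l K (((Bser q m)⁻¹ : (PowerSeries ℂ)ˣ) : PowerSeries ℂ)

/-- **NU** (logarithmic derivative on a block).  No hypotheses.
Proof. `w = C e`, `ν = w (G Bi - 1)`; `w² = w`, `w ν = ν`, `w' = 0`.  `w G = B (w + ν)`
(`B Bi = 1`).  Derivative: `z (w G)' = w P G = P B (w + ν)` and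
`z (B (w + ν))' = P0 B (w + ν) + B z ν'`.  Cancel `B` (multiply by `Bi`):
`(P - P0)(w + ν) = z ν'`.  Let `S = sum_{i<J} (-1)^i ν^i`; `(1 + ν) S = 1 - (-ν)^J = 1`, and
`(w + ν) w = w (1 + ν)`, so `(w + ν) w S = w`.  Hence `w (P - P0) = z ν' w S = z ν' S`
(`w ν' = ν'`), and `ν' ν^i = (ν^{i+1})' / (i + 1)` (`Derivation.leibniz_pow`; `(i + 1)` is invertible in
`ℂ`).  `C e` is `PowerSeries.C e`. -/
def S_NU : Prop :=
  ∀ (R : Type) [CommRing R] [Algebra ℂ R] (G B Bi P P0 : PowerSeries R) (e : R) (J : ℕ),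
    e * e = e → B * Bi = 1 → PowerSeries.X * PowerSeries.derivative R G = P * G →
    PowerSeries.X * PowerSeries.derivative R B = P0 * B →
    (PowerSeries.C e * (G * Bi - 1)) ^ J = 0 →
    PowerSeries.C e * (P - P0) = PowerSeries.X * PowerSeries.derivative R
      (∑ i ∈ Finset.range J,
        ((-1 : ℂ) ^ i / ((i : ℂ) + 1)) • (PowerSeries.C e * (G * Bi - 1)) ^ (i + 1))

/-- **NILS**: a power series with nilpotent coefficients over a finite dimensional commutative
algebra is nilpotent.  No hypotheses.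
Proof. `R` is Noetherian (finite dimensional over `ℂ`), so the ideal `I = nilradical R` is nilpotent:
`I^J = ⊥` (`IsNoetherianRing.isNilpotent_nilradical`).  The coefficients of `F^i` are in `I^i` by
induction (`PowerSeries.coeff_mul`, `Ideal.mul_mem_mul`, `Ideal.sum_mem`), so `F^J = 0`. -/
def S_NILS : Prop :=
  ∀ (R : Type) [CommRing R] [Algebra ℂ R] [FiniteDimensional ℂ R] (F : PowerSeries R),
    (∀ k, IsNilpotent (PowerSeries.coeff k F)) → IsNilpotent F

/-- **DLABS**.  Hypotheses allowed: S_GDER, S_BDER, S_BINV, S_GOOD, S_NU, S_NILS.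
Proof. `G = Gser b`, `B` and `Bi` the images of `Bser q m` and its inverse under
`PowerSeries.map (algebraMap ℂ R)`, `P = mk (piv b β)`, `P0 = mk (algebraMap (pim q m k))`.
`z G' = P G` (GDER), `z B' = P0 B` (map BDER; `map` commutes with the derivative, compare
coefficients), `ν = C e (G Bi - 1) = (C e (G - B)) Bi`.  The coefficients of `C e (G - B)` are `0`
(constant) and `(b_k - Bco q m k) e`, nilpotent, so all coefficients of `ν` are in the nilradical
(an ideal), hence `ν^J = 0` for some `J` (NILS).  NU: `C e (P - P0) = z G1'`,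
`G1 = sum_{i<J} c_i ν^{i+1}`.  Coefficient of `z^k`: `e (π_k - pim_k) = k G1_k`.
So for a polynomial `p`: `pair p (e (π_k - pim_k)) = sum_k p_k k G1_k = pair (u p') (G1_k)`
(`u = Polynomial.X`, `p'` the derivative; check on monomials).
`Good`: `Good l K G` (GOOD (7), as `G_{i+j+1} = b_{i+j}`), `Good l M Bi` (BINV, GOOD (5)), so
`Good l (K+M) (G Bi)`, also `1` and hence `G Bi - 1`, `ν` are Good for `K + M`; `ν^{i+1}` is Good for
`(i+1)(K+M) ≤ K1 = J (K+M)`, so `Good l K1 G1`.  If `(u^l - 1)^{K1}` divides `p'`,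
`u p' = u ((u^l-1)^{K1} g)`, then the pairing is `0` (GOOD (6)).  So `K' = K1` works:
`(pair p π) e = (pair p pim) e`, and `pair p (pim q m) = sum_c (m_{c+1} - m_c) p(qz(2c))`
(`Polynomial.eval_eq_sum`). -/
def S_DLABS : Prop :=
  ∀ (R : Type) [CommRing R] [Algebra ℂ R] [FiniteDimensional ℂ R] (l : ℕ) [NeZero l] (q : ℂ),
    IsPrimitiveRoot q l → Odd l → ∀ (m : ZMod l → ℤ) (b β : ℕ → R) (e : R) (K : ℕ),
    e * e = e →
    (∀ k, b k = β k + ∑ r ∈ Finset.range k, β r * b (k - 1 - r)) →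
    (∀ j, ∑ i ∈ Finset.range (l * K + 1),
      ((Polynomial.X ^ l - 1 : Polynomial ℂ) ^ K).coeff i • b (i + j) = 0) →
    (∀ k, IsNilpotent ((b k - algebraMap ℂ R (Bco q m k)) * e)) →
    ∃ K' : ℕ, ∀ p : Polynomial ℂ, (Polynomial.X ^ l - 1) ^ K' ∣ Polynomial.derivative p →
      pair p (piv b β) * e
        = (∑ c : ZMod l, ((m (c + 1) - m c : ℤ) : ℂ) * p.eval (qz q (2 * c))) • e

/-! ### spectral idempotents and block idempotents -/

/-- **SPEC** (spectral idempotent).  No hypotheses.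
Proof. `μ = minpoly ℂ g` (`g` is integral), `μ = (X - s)^r f` with `f(s) ≠ 0`
(`Polynomial.exists_eq_pow_rootMultiplicity_mul_and_not_dvd`).  `(X - s)^{r+1}` and `f` are coprime:
`a (X - s)^{r+1} + b f = 1`.  Put `P = b f`, `Y = a (X - s)^r`.  `P(s) = 1`;
`P (1 - P) = b f a (X-s)^{r+1}` is a multiple of `μ`, so `P(g)² = P(g)`; `(X - s)^r P = b μ`;
`(X - s) Y = 1 - P`. -/
def S_SPEC : Prop :=
  ∀ (B : Type) [Ring B] [Algebra ℂ B] [FiniteDimensional ℂ B] (g : B) (s : ℂ),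
    ∃ (P Y : Polynomial ℂ) (r : ℕ),
      Polynomial.aeval g P * Polynomial.aeval g P = Polynomial.aeval g P ∧
      (g - algebraMap ℂ B s) ^ r * Polynomial.aeval g P = 0 ∧
      (g - algebraMap ℂ B s) * Polynomial.aeval g Y = 1 - Polynomial.aeval g P ∧
      P.eval s = 1

/-- **FOUR** (Fourier).  No hypotheses.
Proof. `d = m - m'`, `a_c = d(c+1) - d(c)`.  `sum_c a_c qz(2c)^k = 0` for `1 ≤ k < l` (hypothesis) and for
`k = 0` (`sum_diff`).  The `l` numbers `qz q (2 * c)` are distinct (`qz2_inj`), so `a = 0`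
(Vandermonde: `Matrix.eq_zero_of_forall_pow_sum_mul_pow_eq_zero`, after reindexing `ZMod l` by
`Fin l`).  So `d(c+1) = d(c)` for all `c`, `d` is constant (every `c` is a natural number), and
`l d(0) = sum d = 0` (`mem_typs`). -/
def S_FOUR : Prop :=
  ∀ (N l : ℕ) [NeZero l] (q : ℂ), Par N l q → ∀ m ∈ typs N l, ∀ m' ∈ typs N l,
    (∀ k, 1 ≤ k → k < l → pim q m k = pim q m' k) → m = m'

/-- **NILC**: a central element that kills all singular vectors of `A` is nilpotent (for an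
idempotent this is ZID).  Hypotheses allowed: S_SV, S_FDIM.
Proof. `W_r = {a^r x : x ∈ A}` is a submodule of the left regular module (`a` central), decreasing in
`r`; `A` is finite dimensional, so `W_r = W_{r+1}` for some `r`.  Suppose `a^r ≠ 0`; then `W_r ≠ 0` and by
SV (applied to the module `W_r`) there is a nonzero singular vector `v ∈ W_r`, singular also in `A`, so
`a v = 0`.  But multiplication by `a` maps `W_r` onto `W_{r+1} = W_r`, hence is injective on `W_r`
(finite dimension): contradiction. -/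
def S_NILC : Prop :=
  ∀ (N l : ℕ) [NeZero l] (q : ℂ), Par N l q → ∀ a : A N l q, (∀ b, a * b = b * a) →
    (∀ (lam : Fin (N + 1) → ZMod l) (v : A N l q), Sing q lam v → a * v = 0) → IsNilpotent a

/-- **IDEM** (block idempotents).  Hypotheses allowed: S_SPEC, S_FOUR, S_NILC, S_FDIM, S_TYP.
Proof. For every `k` and every type `m` choose `P_{k,m}` (SPEC for `g = p k`, `s = pim q m k`) and
`e_m = prod_{k=1}^{l-1} P_{k,m}(p k)` (`aeval`) if `m ∈ typs N l`, `e_m = 0` otherwise.  The elements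
`P(p k)` are central, fixed by `tor` (`tor` is an algebra map, `Polynomial.aeval_algHom_apply`) and
idempotent, they commute, so `e_m` is a central `tor`-fixed idempotent.  (Work in the commutative
subalgebra of central fixed elements, or use `Finset.prod` replaced by `List.prod` over
`List.range l`.)
Action on a singular `v` of weight `lam`, `m0 = ty lam` (a type, TYP): `p k • v = s' • v`,
`s' = pim q m0 k`, so `P_{k,m}(p k) • v = P_{k,m}(s') • v`.  If `s' = s = pim q m k` this is `v`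
(`P.eval s = 1`).  If `s' ≠ s`: `0 = (p k - s)^r P(p k) • v = (s' - s)^r P(s') • v`, so
`P(p k) • v = 0`.  Hence `e_m • v = v` if `pim q m0 k = pim q m k` for all `1 ≤ k < l`, i.e. (FOUR) if
`m = m0`, and `0` otherwise.
A central idempotent killing all singular vectors of `A` is nilpotent (NILC), so it is `0`.  Apply
this to `e_m e_{m'}` (`m ≠ m'`): orthogonality; and to `1 - sum_m e_m` (idempotent by orthogonality):
the sum is `1`. -/
def S_IDEM : Prop :=
  ∀ (N l : ℕ) [NeZero l] (q : ℂ) (hl : l ≠ 0) (s : ℕ → ℂˣ), Par N l q →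
    ∀ p : ℕ → A N l q, (∀ k a, p k * a = a * p k) → (∀ k, tor N l q hl s (p k) = p k) →
    (∀ (k : ℕ) (M : Type) [AddCommGroup M] [Module ℂ M] [Module (A N l q) M]
      [IsScalarTower ℂ (A N l q) M] (lam : Fin (N + 1) → ZMod l) (v : M),
      Sing q lam v → p k • v = pim q (ty lam) k • v) →
    ∃ e : (ZMod l → ℤ) → A N l q, IsBl N l q hl s e

/-- **BEVAL**.  Hypotheses allowed: S_CORE0, S_HC, S_EVAL, S_BUNIQ.
Proof. If `v = 0` it is clear; let `v ≠ 0`.  `C.b k` and `C.β k` are central and fixed by `tor`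
(CORE0), so by HC they act on `v` by scalars `c_k`, `c'_k`.  CORE0 (11) gives REL for the scalars
(`v ≠ 0`), and `C.pi k = piv C.b C.β k` acts by `piv c c' k`, so `piv c c' k = pim q (ty lam) k`
(EVAL).  BUNIQ: `c_k = Bco q (ty lam) k`. -/
def S_BEVAL : Prop :=
  ∀ (N l : ℕ) [NeZero l] (q : ℂ) (D : Dl N l q) (hl : l ≠ 0) (s : ℕ → ℂˣ)
    (C : Core0 (A N l q) (Fin (N + 1))), Par N l q → Function.Injective (tw N s) →
    IsC0 D hl s C → ∀ (k : ℕ) (M : Type) [AddCommGroup M] [Module ℂ M]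
    [Module (A N l q) M] [IsScalarTower ℂ (A N l q) M] (lam : Fin (N + 1) → ZMod l) (v : M),
    Sing q lam v → C.b k • v = Bco q (ty lam) k • v

/-- **NILP**.  Hypothesis allowed: S_NILC.
Proof. The element is central, and on a singular `v` of weight `lam` in `A` it acts by
`[ty lam = m] (Bco q (ty lam) k - Bco q m k) = 0` (`IsBl.act`, the hypothesis on `b`).  NILC. -/
def S_NILP : Prop :=
  ∀ (N l : ℕ) [NeZero l] (q : ℂ) (hl : l ≠ 0) (s : ℕ → ℂˣ), Par N l q →
    ∀ e : (ZMod l → ℤ) → A N l q, IsBl N l q hl s e →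
    ∀ b : ℕ → A N l q, (∀ k a, b k * a = a * b k) →
    (∀ (k : ℕ) (M : Type) [AddCommGroup M] [Module ℂ M] [Module (A N l q) M]
      [IsScalarTower ℂ (A N l q) M] (lam : Fin (N + 1) → ZMod l) (v : M),
      Sing q lam v → b k • v = Bco q (ty lam) k • v) →
    ∀ (m : ZMod l → ℤ) (k : ℕ),
      IsNilpotent ((b k - algebraMap ℂ (A N l q) (Bco q m k)) * e m)

/-! ### `X` and the blocks -/

/-- **DVG** (general form of DV).  Hypothesis allowed: S_SV.
Proof. Claim: for every finite dimensional `M` there is `r` with `actM (Θ^r) f = 0` for all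
`f : Ten H M`.  Strong induction on `finrank ℂ M`.  If `M = 0` take `r = 0`.  Otherwise SV gives a
singular `m ≠ 0`; `M1 = span_A {m}`.  For `t : ℕ` let `V_t = span_A {tv H i m : ρ i < t}` in `Ten H M`;
`V_0 = 0`.  `Θ` acts `A`-linearly (`actMA`) and `Θ (tv H i m) ∈ span_A {tv H i' m : ρ i' < ρ i} ⊆ V_t` for
`ρ i < t + 1`, so `Θ V_{t+1} ⊆ V_t`, `Θ^t V_t = 0`.  For `T` larger than all `ρ i`, `V_T` contains all
`tv H j (a • m)` (third hypothesis), hence every `f` all of whose entries are in `M1` (such an `f` is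
`sum_j tv H j (f j)`, `f j = a_j • m`).  By induction for `M ⧸ M1` (`finrank` smaller, since
`M1 ≠ 0`): `actM (Θ^r)` is zero on `Ten H (M ⧸ M1)`, so for `f : Ten H M` the entries of
`actM (Θ^r) f` are in `M1` (`Submodule.mkQ` commutes with the action), and `actM (Θ^{T+r}) f = 0`.
Now take `M = A` (left regular module, finite dimensional) and `f = tv H j 1`:
`(actM (Θ^r) f) i = (Θ^r) i j`, so `Θ^r = 0`. -/
def S_DVG : Prop :=
  ∀ (N l : ℕ) [NeZero l] (q : ℂ), Par N l q → FiniteDimensional ℂ (A N l q) →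
    ∀ (H : A N l q →ₐ[ℂ] Mat N (A N l q)) (ρ : Fin (N + 1) → ℕ) (Θ : Mat N (A N l q)),
    (∀ a, Θ * H a = H a * Θ) →
    (∀ (M : Type) [AddCommGroup M] [Module ℂ M] [Module (A N l q) M]
      [IsScalarTower ℂ (A N l q) M] (a : A N l q) (m : M) (j : Fin (N + 1)),
      tv H j (a • m) ∈ Submodule.span (A N l q) (Set.range fun i => tv H i m)) →
    (∀ (M : Type) [AddCommGroup M] [Module ℂ M] [Module (A N l q) M]
      [IsScalarTower ℂ (A N l q) M] [FiniteDimensional ℂ M] (lam : Fin (N + 1) → ZMod l) (m : M),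
      Sing q lam m → ∀ j, actM Θ (tv H j m) ∈
        Submodule.span (A N l q) {f : Ten H M | ∃ i, ρ i < ρ j ∧ f = tv H i m}) →
    IsNilpotent Θ

/-- **DVD** (DV for `V`).  Hypotheses allowed: S_DVG, S_GENV, S_CUP0.
Proof. DVG with `H = D.dl`, `ρ j = j`; the third hypothesis of DVG is GENV (with CUP0):
`tv D.dl j (a • m) = sum_i D.ep a j i • tv D.dl i m`. -/
def S_DVD : Prop :=
  ∀ (N l : ℕ) [NeZero l] (q : ℂ) (D : Dl N l q), Par N l q → FiniteDimensional ℂ (A N l q) →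
    ∀ Θ : Mat N (A N l q), (∀ a, Θ * D.dl a = D.dl a * Θ) →
    (∀ (M : Type) [AddCommGroup M] [Module ℂ M] [Module (A N l q) M]
      [IsScalarTower ℂ (A N l q) M] [FiniteDimensional ℂ M] (lam : Fin (N + 1) → ZMod l) (m : M),
      Sing q lam m → ∀ j, actM Θ (tv D.dl j m) ∈ Ulow D.dl m j) → IsNilpotent Θ

/-- **DVE** (DV for `V*`).  Hypotheses allowed: S_DVG, S_GENVS, S_CUP1.
Proof. DVG with `H = D.ep`, `ρ j = N - j`; the third hypothesis of DVG is GENVS (with CUP1,
`q ≠ 0`). -/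
def S_DVE : Prop :=
  ∀ (N l : ℕ) [NeZero l] (q : ℂ) (D : Dl N l q), Par N l q → FiniteDimensional ℂ (A N l q) →
    ∀ Θ : Mat N (A N l q), (∀ a, Θ * D.ep a = D.ep a * Θ) →
    (∀ (M : Type) [AddCommGroup M] [Module ℂ M] [Module (A N l q) M]
      [IsScalarTower ℂ (A N l q) M] [FiniteDimensional ℂ M] (lam : Fin (N + 1) → ZMod l) (m : M),
      Sing q lam m → ∀ j, actM Θ (tv D.ep j m) ∈ Uhigh D.ep m j) → IsNilpotent Θ

/-- **XNIL**.  Hypotheses allowed: S_DVD, S_XLAY, S_FDIM.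
Proof. `Θ = X^l - 1` (`= pev (X^l - 1) X`) commutes with `D.dl a`; by XLAY with `p = X^l - 1`,
`p(qz(2 x_j)) = 0` (`qz_pow_l`, `q^l = 1`), so `Θ (tv D.dl j m) ∈ Ulow D.dl m j`.  DVD. -/
def S_XNIL : Prop :=
  ∀ (N l : ℕ) [NeZero l] (q : ℂ) (D : Dl N l q), Par N l q →
    (∀ a, Xm N l q * D.dl a = D.dl a * Xm N l q) → ∃ K : ℕ, (Xm N l q ^ l - 1) ^ K = 0

/-- **PC** (the polynomials `p_c`).  No hypotheses.
Proof. The `l` numbers `ω_c = qz q (2 * c)` are distinct (`qz2_inj`) and are the roots of `u^l - 1`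
(`qz_pow_l`), so `u^l - 1 = prod_c (u - ω_c)` with pairwise coprime factors.  Chinese remainder
theorem (or by hand: for each `c`, `(u - ω_c)^{K+1}` and `prod_{c' ≠ c} (u - ω_{c'})^{K+1}` are coprime,
`a_c (u - ω_c)^{K+1} + b_c prod_{c' ≠ c} (u - ω_{c'})^{K+1} = 1`, `p_c = b_c prod_{c' ≠ c} (..)^{K+1}`):
`(u - ω_{c'})^{K+1}` divides `p_c - [c = c']` for all `c'`.  Values: clear.  `p_c² - p_c =
p_c (p_c - 1)` is divisible by every `(u - ω_{c'})^{K+1}`, so by every `(..)^K`, so by their product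
`(u^l - 1)^K` (`Finset.prod_dvd_of_coprime`).  `p_c' = (p_c - [c = c'])'` is divisible by
`(u - ω_{c'})^K` for every `c'`, so by `(u^l - 1)^K`. -/
def S_PC : Prop :=
  ∀ (l : ℕ) [NeZero l] (q : ℂ), IsPrimitiveRoot q l → Odd l → ∀ K : ℕ,
    ∃ p : ZMod l → Polynomial ℂ,
      (∀ c c', (p c).eval (qz q (2 * c')) = if c = c' then 1 else 0) ∧
      (∀ c, (Polynomial.X ^ l - 1) ^ K ∣ p c ^ 2 - p c) ∧
      (∀ c, (Polynomial.X ^ l - 1) ^ K ∣ Polynomial.derivative (p c))

/-- **QS** (singular vectors modulo a submodule).  No hypotheses.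
Proof. In the quotient module `W ⧸ U` (with its `ℂ`- and `A`-module structures) the class of `w` is
singular of weight `mu`, so `IsBl.act` gives `e m • [w] = [w]` or `0`; translate back with
`Submodule.Quotient.mk_eq_zero`. -/
def S_QS : Prop :=
  ∀ (N l : ℕ) [NeZero l] (q : ℂ) (hl : l ≠ 0) (s : ℕ → ℂˣ) (e : (ZMod l → ℤ) → A N l q),
    IsBl N l q hl s e → ∀ (W : Type) [AddCommGroup W] [Module ℂ W] [Module (A N l q) W]
    [IsScalarTower ℂ (A N l q) W] (U : Submodule (A N l q) W) (w : W)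
    (mu : Fin (N + 1) → ZMod l),
    (∀ i, gE N l q i • w ∈ U) → (∀ j : Fin (N + 1), gK N l q j • w - qz q (mu j) • w ∈ U) →
    ∀ m : ZMod l → ℤ, e m • w - (if ty mu = m then w else 0) ∈ U

/-- **BL1**.  Hypotheses allowed: S_DVD, S_XLAY, S_LAYA, S_TYP, S_QS, S_FDIM.
Proof. `E = p_c(X) diag(e_m)`, `F = D.dl (e_{m - al c}) diag(e_m)`; `diag(e_m)` commutes with every
matrix (`e_m` central), `p_c(X)` commutes with `D.dl a` (`hX`), `D.dl (e_{m - al c})` commutes with
`D.dl a` (central) and with `X`.  So `E`, `F` commute with `D.dl a` and with each other.  `F² = F`.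
`E² = E`: `p_c(X)² - p_c(X) = (p_c² - p_c)(X)` is a multiple of `(X^l - 1)^K = 0`.
`Θ = E - F` satisfies the hypothesis of DVD: let `m0` be singular of weight `lam` in `M`,
`w = tv D.dl j m0`.  `actM (diag(e_m)) w = tv D.dl j (e_m • m0)`, which is `w` if `ty lam = m` and `0`
otherwise (`IsBl.act`).  In the second case `Θ w = 0`.  Let `ty lam = m`.  By XLAY
`p_c(X) w - p_c(qz(2 x_j)) w ∈ U_j`, `p_c(qz(2 x_j)) = [c = x_j]`.  By LAYA and QS (`mu = addE lam j`,
`D.dl (a) ` acts as `a`, `Ten.smul_def`): `D.dl (e_{m - al c}) w - [ty (addE lam j) = m - al c] w ∈ U_j`, and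
`ty (addE lam j) = m - al (x_j)` (TYP) equals `m - al c` iff `x_j = c` (TYP).  So `Θ w ∈ U_j`.
By DVD `Θ` is nilpotent.  For commuting idempotents `(E - F)^3 = E - F`, so `Θ = Θ^(3^r) = 0`. -/
def S_BL1 : Prop :=
  ∀ (N l : ℕ) [NeZero l] (q : ℂ) (D : Dl N l q) (hl : l ≠ 0) (s : ℕ → ℂˣ), Par N l q →
    (∀ a, Xm N l q * D.dl a = D.dl a * Xm N l q) →
    ∀ e : (ZMod l → ℤ) → A N l q, IsBl N l q hl s e →
    ∀ K : ℕ, (Xm N l q ^ l - 1) ^ K = 0 → ∀ p : ZMod l → Polynomial ℂ,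
    (∀ c c', (p c).eval (qz q (2 * c')) = if c = c' then 1 else 0) →
    (∀ c, (Polynomial.X ^ l - 1) ^ K ∣ p c ^ 2 - p c) → ∀ (c : ZMod l) (m : ZMod l → ℤ),
    pev (p c) (Xm N l q) * Matrix.diagonal (fun _ => e m)
      = D.dl (e (m - al c)) * Matrix.diagonal (fun _ => e m)

/-- **BL2**.  Hypotheses allowed: S_DVE, S_LAYS, S_TYP, S_QS, S_FDIM.
Proof. Suppose `m' ≠ m + al c` for all `c`; show `Θ = D.ep (e_{m'}) diag(e_m) = 0`.  `Θ` is idempotent
(`diag(e_m)` commutes with everything) and commutes with `D.ep a` (`e_{m'}`, `e_m` central).  Let `m0`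
be singular of weight `lam`, `w = tv D.ep j m0`.  If `ty lam ≠ m` then `Θ w = 0`.  If `ty lam = m`:
by LAYS and QS (`mu = subE lam j`, `U = Uhigh D.ep m0 j`) `D.ep (e_{m'}) w - [ty (subE lam j) = m'] w ∈ U`,
and `ty (subE lam j) = m + al (x_j - 1) ≠ m'` (TYP), so `Θ w ∈ U`.  DVE: `Θ` is nilpotent and
idempotent, so `0`. -/
def S_BL2 : Prop :=
  ∀ (N l : ℕ) [NeZero l] (q : ℂ) (D : Dl N l q) (hl : l ≠ 0) (s : ℕ → ℂˣ), Par N l q →
    ∀ e : (ZMod l → ℤ) → A N l q, IsBl N l q hl s e → ∀ m m' : ZMod l → ℤ,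
    D.ep (e m') * Matrix.diagonal (fun _ => e m) ≠ 0 → ∃ c, m' = m + al c

/-- **DL**.  Hypotheses allowed: S_CORE0, S_DLABS, S_FDIM.
Proof. Let `R = Subalgebra.center ℂ (A N l q)`, a commutative finite dimensional algebra; the
`C.b k`, `C.β k` (CORE0) and `e m` are in it.  REL: CORE0 (11).  Recurrence: `X2 = X2 C.ε C.X = Phi C.ε X`
and `Phi` is an algebra map, so `(X2^l - 1)^K = 0`, i.e. `sum_i h_i X2^i = 0`, `h_i` the coefficients of
`(u^l - 1)^K` (degree `l K`); multiply by `X2^j`, apply `v`, `u`: `sum_i h_i b_{i+j} = 0`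
(`b_k = v X2^k u`; `bvu` is linear in the matrix).  Nilpotency is the hypothesis.  Apply DLABS in `R`
and map to `A` (`piv` is compatible with algebra maps; `C.pi = piv C.b C.β`; injectivity of
`R → A`; `pair_eq_range`). -/
def S_DL : Prop :=
  ∀ (N l : ℕ) [NeZero l] (q : ℂ) (D : Dl N l q) (hl : l ≠ 0) (s : ℕ → ℂˣ)
    (C : Core0 (A N l q) (Fin (N + 1))), Par N l q → IsC0 D hl s C →
    ∀ e : (ZMod l → ℤ) → A N l q, IsBl N l q hl s e →
    ∀ K : ℕ, (Xm N l q ^ l - 1) ^ K = 0 → ∀ m : ZMod l → ℤ,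
    (∀ k, IsNilpotent ((C.b k - algebraMap ℂ (A N l q) (Bco q m k)) * e m)) →
    ∃ K' : ℕ, ∀ p : Polynomial ℂ, (Polynomial.X ^ l - 1) ^ K' ∣ Polynomial.derivative p →
      (∑ k ∈ Finset.range (p.natDegree + 1), p.coeff k • C.pi k) * e m
        = (∑ c : ZMod l, ((m (c + 1) - m c : ℤ) : ℂ) * p.eval (qz q (2 * c))) • e m

/-- **CORE** (assembly of sections 8 and 9; helper41).  From all the above. -/
def S_CORE : Prop :=
  ∀ (N l : ℕ) [NeZero l] (q : ℂ) (D : Dl N l q) (hl : l ≠ 0) (s : ℕ → ℂˣ)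
    (C0 : Core0 (A N l q) (Fin (N + 1))), Par N l q → Function.Injective (tw N s) →
    IsC0 D hl s C0 →
    ∃ C : Core (A N l q) (Fin (N + 1)) l, C.toCore0 = C0 ∧ C.types = typs N l ∧
      IsBl N l q hl s C.e

end

end Pool.Agent.Helper19.SQ
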