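import Pool.Agent.Helper19.SQ.SettOf
import Pool.Agent.Helper19.SQ.Homg
import Pool.Agent.Helper34.SQ.Assemble
import Pool.Agent.Helper41.SQ.PartB
import Pool.Agent.Helper4.SQ.QMain
import Pool.Agent.Helper96.SQ.ZB
import Pool.Agent.Helper89.SQ.LEXCOL
import Pool.Agent.Helper24.SQ.RM
import Pool.Agent.Helper24.SQ.LAYS
import Pool.Agent.Helper86.SQ.MONW
import Pool.Agent.Helper8.SQ.JK
import Pool.Agent.Helper36.SQ.SOC
import Pool.Agent.Helper95.SQ.TRI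
import Pool.Agent.Helper18.SQ.FDIM
import Pool.Agent.Helper18.SQ.TWI
import Pool.Agent.Helper35.SQ.SV
import Pool.Agent.Helper35.SQ.GENV
import Pool.Agent.Helper16.SQ.HC
import Pool.Agent.Helper79.SQ.GENVS
import Pool.Agent.Helper47.SQ.FL
import Pool.Agent.Helper50.SQ.LAYX
import Pool.Agent.Helper62.SQ.HARM
import Pool.Agent.Helper17.SQ.T2
import Pool.Agent.Helper17.SQ.PBWI
import Pool.Agent.Helper40.SQ.TFK
import Pool.Agent.Helper40.SQ.TFE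
import Pool.Agent.Helper40.SQ.TFF
import Pool.Agent.Helper40.SQ.TFD
import Pool.Agent.Helper64.SQ.TFN
import Pool.Agent.Helper6.SQ.TF
import Pool.Agent.Helper6.SQ.STT
import Pool.Agent.Helper6.SQ.IOTA
import Pool.Agent.Helper6.SQ.TRA
import Pool.Agent.Helper49.SQ.PI

/-!
Project SQ (MP_bb32d1_al), helper19: assembly.
-/

namespace Pool.Agent.Helper19.SQ

open Pool.Agent.Helper34.SQ

theorem zTRI : S_TRI := Helper95.SQ.s_tri Helper4.SQ.qSPAN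
theorem zMONW : S_MONW := Helper86.SQ.s_monw
theorem zFDIM : S_FDIM := Helper18.SQ.s_fdim zTRI
theorem zJK : S_JK := Helper8.SQ.s_jk
theorem zSOC : S_SOC := Helper36.SQ.s_soc zJK Helper4.SQ.qHTOP
theorem zSV : S_SV := Helper35.SQ.s_sv Helper4.SQ.qSPAN zMONW
theorem zHC : S_HC := Helper16.SQ.s_hc zTRI zMONW
theorem zHARM : S_HARM :=
  Helper62.SQ.s_harm Helper35.SQ.s_zuniv zFDIM Helper47.SQ.s_fl Helper35.SQ.s_genv
    Helper35.SQ.s_laya Helper4.SQ.qCUP0 zSV Helper4.SQ.qNTRIV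
theorem zZB : S_ZB :=
  Helper96.SQ.s_zb Helper4.SQ.qGAM zSOC Helper4.SQ.qLM zTRI zFDIM Helper35.SQ.s_zuniv zHARM
theorem zT2 : S_T2 := Helper17.SQ.s_t2 Helper4.SQ.qCT
theorem zPBWI : S_PBWI := Helper17.SQ.s_pbwi zZB Helper4.SQ.qGAM zSOC Helper4.SQ.qLM zT2
theorem zPBWS : S_PBWS := Helper17.SQ.s_pbws zTRI
theorem zRM : S_RM := Helper24.SQ.s_rm (Helper89.SQ.s_lexcol Helper4.SQ.qROOT) Helper4.SQ.qROOT
theorem zTF : S_TF :=
  Helper6.SQ.s_tf (Helper17.SQ.s_tf0 zPBWI zPBWS) (Helper40.SQ.s_tfk zPBWS)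
    (Helper40.SQ.s_tfe zPBWS Helper4.SQ.qLM zRM Helper4.SQ.qSPAN zMONW Helper4.SQ.qHTOP)
    (Helper40.SQ.s_tff zPBWS Helper4.SQ.qLM zRM Helper4.SQ.qSPAN zMONW Helper4.SQ.qHTOP)
    (Helper64.SQ.s_tfn zPBWI zPBWS Helper4.SQ.qLM zRM zJK Helper4.SQ.qSPAN Helper4.SQ.qHTOP)
    (Helper40.SQ.s_tfd zPBWS)
theorem zSTT : S_STT :=
  Helper6.SQ.s_stt Helper4.SQ.qGAM zTRI Helper4.SQ.qSPAN zMONW Helper4.SQ.qHTOP zSV zFDIM
theorem zTRA : S_TRA := Helper6.SQ.s_tra Helper6.SQ.s_iota Helper49.SQ.s_pi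
theorem zCORE : S_CORE :=
  Helper41.SQ.part_b Helper57.SQ.t_core0 m_tr zHC Helper47.SQ.s_fl Helper35.SQ.s_laya
    Helper50.SQ.s_layx Helper24.SQ.s_lays zHARM Helper35.SQ.s_zuniv Helper35.SQ.s_genv
    Helper79.SQ.s_genvs zSV zFDIM Helper4.SQ.qCUP0 Helper4.SQ.qCUP1

theorem final_stf (hSTF : S_STF) : S_FINAL :=
  final_of (m_main12 hSTF) zSTT zTF zTRA Helper18.SQ.s_twi s_homg s_zdeg
    (sett_of Helper4.SQ.qDELTA Helper4.SQ.qC0 zCORE zFDIM zZB zTRI)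

end Pool.Agent.Helper19.SQ
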