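import Pool.Agent.Helper19.SQ.AbsData

/-!
Project SQ (MP_bb32d1_al), second stage, helper19: definitions for the count.

`LoopA D` are loop operators `e_ab(x^r y^s)` for the currents of `D : AbsData`.
`Cnt l n T` is the structure used in the count.  `DR n` is the ring of diagonal coinvariants.
-/

namespace Pool.Agent.Helper19.SQ

noncomputable section

/-- the unit vector `δ_c`. -/
def sg {l : ℕ} (c : ZMod l) : ZMod l → ℤ := fun x => if x = c then 1 else 0

/-- loop operators for the currents of `D`. -/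
structure LoopA {l n : ℕ} [NeZero l] {T : Type} [AddCommGroup T] [Module ℂ T]
    (D : AbsData l n T) where
  e : ZMod l → ZMod l → ℕ → ℤ → Module.End ℂ T
  mul : ∀ a b c r s r' s', a ≠ b → b ≠ c → a ≠ c →
    e a b r s * e b c r' s' - e b c r' s' * e a b r s = e a c (r + r') (s + s')
  com : ∀ a b c d r s r' s', a ≠ b → c ≠ d → b ≠ c → a ≠ d →
    e a b r s * e c d r' s' = e c d r' s' * e a b r s
  E_eq : ∀ c r, c ≠ -1 → e c (c + 1) r 0 = D.E c r
  F_eq : ∀ c r, c ≠ -1 → e (c + 1) c r 0 = D.F c r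
  Ez_eq : ∀ r, e (-1) 0 r (-1) = D.E (-1) r
  Fz_eq : ∀ r, e 0 (-1) r 1 = D.F (-1) r

/-- the letter `(a, b, r, s)` stands for `e_ab(x^r y^s)`. -/
abbrev Lt4 (l : ℕ) : Type := ZMod l × ZMod l × ℕ × ℤ

/-- the weight of a word. -/
def eWt {l : ℕ} (w : List (Lt4 l)) : ZMod l → ℤ := (w.map fun u => sg u.1 - sg u.2.1).sum

/-- the operator of a word; the last letter acts first. -/
def eOp {l : ℕ} {T : Type} [AddCommGroup T] [Module ℂ T]
    (e : ZMod l → ZMod l → ℕ → ℤ → Module.End ℂ T) (w : List (Lt4 l)) : Module.End ℂ T :=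
  (w.map fun u => e u.1 u.2.1 u.2.2.1 u.2.2.2).prod

/-- The structure used in the count. -/
structure Cnt (l n : ℕ) [NeZero l] (T : Type) [AddCommGroup T] [Module ℂ T] where
  gr : (ZMod l → ℤ) → Submodule ℂ T
  e : ZMod l → ZMod l → ℕ → ℤ → Module.End ℂ T
  ch : (ZMod l → ℤ) → T
  fd : FiniteDimensional ℂ T
  top : ⨆ m, gr m = ⊤
  bot : ∀ m, ¬ IsTy n m → gr m = ⊥
  mul : ∀ a b c r s r' s', a ≠ b → b ≠ c → a ≠ c →
    e a b r s * e b c r' s' - e b c r' s' * e a b r s = e a c (r + r') (s + s')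
  com : ∀ a b c d r s r' s', a ≠ b → c ≠ d → b ≠ c → a ≠ d →
    e a b r s * e c d r' s' = e c d r' s' * e a b r s
  e_gr : ∀ a b r s, a ≠ b → ∀ m, ∀ x ∈ gr m, e a b r s x ∈ gr (m + sg a - sg b)
  nondeg : ∀ m, ∀ x ∈ gr m,
    (∀ (w : List (Lt4 l)) (c : ZMod l), (∀ u ∈ w, u.1 ≠ u.2.1) → m + eWt w = nd n c →
      eOp e w x = 0) → x = 0
  one : ∀ c, Module.finrank ℂ (gr (nd n c)) ≤ 1
  ch_mem : ∀ m, IsTy n m → ch m ∈ gr m
  ch_ne : ∀ c, ch (nd n c) ≠ 0
  e_ch : ∀ a b r s m, a ≠ b → IsTy n m → IsTy n (m + sg a - sg b) →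
    e a b r s (ch m) = (if r = 0 then (m a : ℂ) + 1 else 0) • ch (m + sg a - sg b)

section ops

variable {l n : ℕ} [NeZero l] {T : Type} [AddCommGroup T] [Module ℂ T] (C : Cnt l n T)

/-- the letter `(c, r, s)` stands for `e_dc(x^r y^s)`. -/
abbrev Lt3 (l : ℕ) : Type := ZMod l × ℕ × ℤ

/-- the weight of a word in the letters `e_dc`. -/
def dWt {l : ℕ} (d : ZMod l) (u : List (Lt3 l)) : ZMod l → ℤ := (u.map fun a => sg d - sg a.1).sum

/-- the operator of a word in the letters `e_dc`. -/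
def dOp (d : ZMod l) (u : List (Lt3 l)) : Module.End ℂ T :=
  (u.map fun a => C.e d a.1 a.2.1 a.2.2).prod

/-- the type of `x`: the number of particles at every site. -/
def tyc {l n : ℕ} (x : Fin n → ZMod l) : ZMod l → ℤ := ∑ k, sg (x k)

/-- `∏_k e_{d, x_k}(x^{α_k} y^{β_k})` for the exponents `(α_k, β_k)`. -/
def pOp (d : ZMod l) (x : Fin n → ZMod l) (a : Fin n → ℕ × ℕ) : Module.End ℂ T :=
  (List.ofFn fun k => C.e d (x k) (a k).1 ((a k).2 : ℤ)).prod

/-- exponents of a monomial in `x_k = X (inl k)`, `y_k = X (inr k)`. -/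
def exps {n : ℕ} (s : (Fin n ⊕ Fin n) →₀ ℕ) (k : Fin n) : ℕ × ℕ := (s (Sum.inl k), s (Sum.inr k))

/-- `ℂ[x_1, …, x_n, y_1, …, y_n]`. -/
abbrev Pn (n : ℕ) : Type := MvPolynomial (Fin n ⊕ Fin n) ℂ

/-- The functional `∏ x_k^{α_k} y_k^{β_k} ↦ lam (∏_k e_{d, x_k}(x^{α_k} y^{β_k}) τ)`. -/
def phi (d : ZMod l) (x : Fin n → ZMod l) (lam : T →ₗ[ℂ] ℂ) :
    T →ₗ[ℂ] (Pn n →ₗ[ℂ] ℂ) where
  toFun τ := (MvPolynomial.basisMonomials (Fin n ⊕ Fin n) ℂ).constr ℂ
    fun s => lam (pOp C d x (exps s) τ)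
  map_add' τ τ' := by
    refine (MvPolynomial.basisMonomials (Fin n ⊕ Fin n) ℂ).ext fun s => ?_
    rw [LinearMap.add_apply, Module.Basis.constr_basis, Module.Basis.constr_basis,
      Module.Basis.constr_basis, map_add, map_add]
  map_smul' c τ := by
    refine (MvPolynomial.basisMonomials (Fin n ⊕ Fin n) ℂ).ext fun s => ?_
    rw [LinearMap.smul_apply, Module.Basis.constr_basis, Module.Basis.constr_basis,
      map_smul, map_smul, RingHom.id_apply]

theorem phi_monomial (d : ZMod l) (x : Fin n → ZMod l) (lam : T →ₗ[ℂ] ℂ) (τ : T)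
    (s : (Fin n ⊕ Fin n) →₀ ℕ) :
    phi C d x lam τ (MvPolynomial.monomial s 1) = lam (pOp C d x (exps s) τ) := by
  have h := (MvPolynomial.basisMonomials (Fin n ⊕ Fin n) ℂ).constr_basis ℂ
    (fun s => lam (pOp C d x (exps s) τ)) s
  rw [MvPolynomial.coe_basisMonomials] at h
  exact h

end ops

/-! ### diagonal coinvariants -/

section DR

open MvPolynomial

/-- `σ` acts on the polynomials by `x_k ↦ x_{σ k}`, `y_k ↦ y_{σ k}`. -/
def rn {n : ℕ} (σ : Equiv.Perm (Fin n)) : Pn n →ₐ[ℂ] Pn n := rename (Sum.map σ σ)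

/-- the ideal generated by the invariant polynomials without constant term. -/
def dIdeal (n : ℕ) : Ideal (Pn n) :=
  Ideal.span {f | (∀ σ : Equiv.Perm (Fin n), rn σ f = f) ∧ constantCoeff f = 0}

/-- the ring of diagonal coinvariants. -/
abbrev DR (n : ℕ) : Type := Pn n ⧸ dIdeal n

theorem rn_dIdeal {n : ℕ} (σ : Equiv.Perm (Fin n)) : dIdeal n ≤ (dIdeal n).comap (rn σ) := by
  refine Ideal.span_le.2 ?_
  intro f hf
  rw [SetLike.mem_coe, Ideal.mem_comap]
  rw [hf.1 σ]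
  exact Ideal.subset_span hf

/-- the action of `σ` on the diagonal coinvariants. -/
def rq {n : ℕ} (σ : Equiv.Perm (Fin n)) : DR n →ₐ[ℂ] DR n :=
  Ideal.quotientMapₐ (dIdeal n) (rn σ) (rn_dIdeal σ)

/-- the equivariant maps `(Z/l)^n → DR_n`. -/
def DRmaps (n l : ℕ) : Submodule ℂ ((Fin n → ZMod l) → DR n) where
  carrier := {f | ∀ (σ : Equiv.Perm (Fin n)) (x : Fin n → ZMod l), rq σ (f (x ∘ σ)) = f x}
  add_mem' := by
    intro a b ha hb σ x
    rw [Pi.add_apply, Pi.add_apply, map_add, ha σ x, hb σ x]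
  zero_mem' := by
    intro σ x
    rw [Pi.zero_apply, Pi.zero_apply, map_zero]
  smul_mem' := by
    intro c a ha σ x
    rw [Pi.smul_apply, Pi.smul_apply, map_smul, ha σ x]

/-- the elements of `DR_n` fixed by the stabiliser of `x`. -/
def DRfix {n l : ℕ} (x : Fin n → ZMod l) : Submodule ℂ (DR n) where
  carrier := {f | ∀ σ : Equiv.Perm (Fin n), x ∘ σ = x → rq σ f = f}
  add_mem' := by
    intro a b ha hb σ hσ
    rw [map_add, ha σ hσ, hb σ hσ]
  zero_mem' := by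
    intro σ _
    rw [map_zero]
  smul_mem' := by
    intro c a ha σ hσ
    rw [map_smul, ha σ hσ]

/-- the power sums `∑_k x_k^i y_k^j`. -/
def ps (n i j : ℕ) : Pn n := ∑ k : Fin n, X (Sum.inl k) ^ i * X (Sum.inr k) ^ j

/-- the translation `y_k ↦ y_k - 1`. -/
def sh (n : ℕ) : Pn n →ₐ[ℂ] Pn n :=
  aeval (Sum.elim (fun k => X (Sum.inl k)) fun k => X (Sum.inr k) - 1)

end DR

end

end Pool.Agent.Helper19.SQ
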