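import Pool.Agent.Helper19.SQ.CDefs

/-!
Project SQ (MP_bb32d1_al), second stage, helper19: the goals of the count (from the loop
operators to the diagonal coinvariants), with complete proofs.

Deliver `Pool/Agent/<Seat>/SQ/XX.lean` with a theorem `... : Pool.Agent.Helper19.SQ.S_XX`.
Hypotheses allowed are named in every doc-string (take them as hypotheses of the theorem).
Notation in the proofs: `[A, B] = A * B - B * A`, `e d c f` for the operator of the monomial
`f = x^r y^s` (`r ∈ ℕ`, `s ∈ ℤ`), products of operators: the last factor acts first.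
-/

namespace Pool.Agent.Helper19.SQ

noncomputable section

/-- **CLP** (packet CLP): a closure lemma.  No hypotheses.
PROOF.  Write `(r, s) ∈ P a b`.  `z = -1 = l - 1`, `z.val = l - 1`.
(1) `(0, 0) ∈ P a b` for all `a ≠ b`: for `a.val < b.val` by induction on `b.val - a.val`: if
`b = a + 1` it is `h1` (`a ≠ z`), otherwise `P a (b - 1)`, `P (b - 1) b` and closure.  For
`a.val > b.val` in the same way with `P (c + 1) c`.
(2) Let `a, b, c` be distinct.  By (1) and closure `P a b ⊆ P a c` (multiply by `(0,0) ∈ P b c`) and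
`P a b ⊆ P c b`.  So `P a b ⊆ P a c ⊆ P b c ⊆ P b a`, and in the end all `P a b`, `a ≠ b`, are equal
(`l ≥ 3` gives a third index: to go from `(a,b)` to `(a',b')`: first change the first entry to `a'`
if `a' ≠ b`, then the second to `b'`; if `a' = b` go first to `(b, a)` by the chain above).
(3) The common set `P` is closed under addition (take distinct `a, b, c`), it contains `(r, 0)`
(`h1` for `c = 0`, `l ≥ 2`), `(0, -1)`, `(0, 1)` (`h2`).  So it contains `(r, s) = (r, 0) + s (0, ± 1)`. -/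
def S_CLP : Prop :=
  ∀ (l : ℕ) [NeZero l], 3 ≤ l → ∀ P : ZMod l → ZMod l → ℕ → ℤ → Prop,
    (∀ a b c r s r' s', a ≠ b → b ≠ c → a ≠ c → P a b r s → P b c r' s' →
      P a c (r + r') (s + s')) →
    (∀ (c : ZMod l) (r : ℕ), c ≠ -1 → P c (c + 1) r 0 ∧ P (c + 1) c r 0) →
    (∀ r : ℕ, P (-1) 0 r (-1) ∧ P 0 (-1) r 1) →
    ∀ a b r s, a ≠ b → P a b r s

/-- **CNT** (packet CNT): from `AbsData` and `LoopA` to `Cnt`.  Hypothesis allowed: S_CLP.
PROOF.  `gr, ch` from `D`, `e` from `L`; the fields `fd, top, bot, mul, com, one, ch_mem, ch_ne` are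
given.  `al c = sg c - sg (c + 1)` (unfold).
`e_gr`: CLP with `P a b r s := ∀ m, ∀ x ∈ gr m, e a b r s x ∈ gr (m + sg a - sg b)`: closure by `mul`
(`e a c x = e a b (e b c x) - e b c (e a b x)`), generators by `E_eq, F_eq, Ez_eq, Fz_eq` and `E_gr, F_gr`.
`e_ch`: put `ch' m = if IsTy n m then ch m else 0` and
`P a b r s := ∀ m, e a b r s (ch' m) = (if r = 0 then m a + 1 else 0) • ch' (m + sg a - sg b)`.
Closure: `e a c (ch' m) = e a b (e b c (ch' m)) - e b c (e a b (ch' m))`; if `r ≠ 0` or `r' ≠ 0` both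
terms are `0`; if `r = r' = 0` it is `((m b + 1) (m a + 1) - (m a + 1) m b) • ch' (m + sg a - sg c) =
(m a + 1) • ch' (...)` (the value of `m + sg b - sg c` at `a` is `m a`, the value of
`m + sg a - sg b` at `b` is `m b - 1`).
Generators, for `e c (c+1) r 0 = E_c^r` (`F` in the same way): if `m` and `m + al c` are types: `ch_E`,
`ch_E0`.  If `m` is a type and `m + al c` is not: `E_c^r (ch m) ∈ gr (m + al c) = ⊥`, so it is `0`.  If `m` is
not a type: the left side is `0`; if `m + al c` is a type, then `m x < 0` for some `x` (the sums are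
equal), and `x = c`, `m c = -1`, the coefficient is `0`.
`nondeg`: let `w'` be a word as in `D.nondeg`; replace every letter `(true, c, r)` by `(c, c+1, r, 0)`
(`c ≠ -1`) or `(-1, 0, r, -1)`, every `(false, c, r)` by `(c+1, c, r, 0)` or `(0, -1, r, 1)`; this is an
`e`-word with the same operator and the same weight. -/
def S_CNT : Prop :=
  ∀ (l n : ℕ) [NeZero l] (T : Type) [AddCommGroup T] [Module ℂ T] (D : AbsData l n T)
    (L : LoopA D), 3 ≤ l → ∃ C : Cnt l n T, C.gr = D.gr ∧ C.e = L.e ∧ C.ch = D.ch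

/-- **GBR** (packet GBR): the brackets with `g = [e_da f, e_ad h]`.  No hypotheses.
PROOF.  Let `g = [e d a r s, e a d r' s']`.  (1) for `c ∉ {a, d}`: `[e d c i j, g] =
[[e_dc, e_da], e_ad] + [e_da, [e_dc, e_ad]] = 0 + [e_da, -e_ac (i + r') (j + s')] =
-e_dc (i + r + r') (j + s + s')` (`com` for `e_dc, e_da`; `[e_ad, e_dc] = e_ac`).
(2) `[e b a i j, g]` for `b ∉ {a, d}`: `= [[e_ba, e_da], e_ad] + [e_da, [e_ba, e_ad]] =
0 + [e_da, e_bd (i + r') (j + s')] = -e_ba (i + r + r') (j + s + s')`.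
(3) for `c = a`: choose `b ∉ {a, d}` (`3 ≤ l`): `e d a i j = [e d b i j, e b a 0 0]`, so
`[e d a i j, g] = [e_db i j, [e_ba 0 0, g]] + [[e_db i j, g], e_ba 0 0] =
[e_db i j, -e_ba (r + r') (s + s')] - [e_db (i+r+r') (j+s+s'), e_ba 0 0] = -2 e_da (...)`. -/
def S_GBR : Prop :=
  ∀ (l n : ℕ) [NeZero l] (T : Type) [AddCommGroup T] [Module ℂ T] (C : Cnt l n T), 3 ≤ l →
    ∀ (d a : ZMod l), a ≠ d → ∀ (r r' : ℕ) (s s' : ℤ) (g : Module.End ℂ T),
    g = C.e d a r s * C.e a d r' s' - C.e a d r' s' * C.e d a r s →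
    (∀ c i j, c ≠ a → c ≠ d →
      C.e d c i j * g - g * C.e d c i j = - C.e d c (i + r + r') (j + s + s')) ∧
    (∀ i j, C.e d a i j * g - g * C.e d a i j =
      (-2 : ℂ) • C.e d a (i + r + r') (j + s + s'))

/-- **SPN** (packet SPN): words in the `e_dc` are enough.  Hypothesis allowed: S_GBR.
PROOF.  Let `K m = {x ∈ gr m : for all u with letters ≠ d and m + dWt d u = nd n d: dOp u x = 0}`.
Clear: (0) `x ∈ K m`, `c ≠ d` ⟹ `e d c i j x ∈ K (m + sg d - sg c)`; `K (nd n d) = 0` (`u = []`).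
CLAIM, by induction on the length of `u`, for all `m`, `x ∈ K m`:
(ii) `a ≠ b`, `a ≠ d`, `m + sg a - sg b + dWt u = nd n d` ⟹ `dOp u (e a b r s x) = 0`;
(iii) `a ≠ d`, `m + dWt u = nd n d` ⟹ `dOp u (g x) = 0` for `g = [e d a r s, e a d r' s']`.
`u = []`: (ii) `m = nd n d - sg a + sg b` has `m a = -1`, so `gr m = ⊥`, `x = 0`.  (iii) `m = nd n d`, `x = 0`.
`u = u' ++ [(c, i, j)]`, `A = e d c i j`, `dOp u = dOp u' * A` (use `List.reverseRecOn` or the reversed
list).  (ii) `A e_ab x = e_ab (A x) + [A, e_ab] x`.  `dOp u' (e_ab (A x)) = 0` by (0) and the induction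
hypothesis.  `[A, e_ab]`: `c ≠ a`, `b ≠ d`: `0`.  `c = a`, `b ≠ d`: `e d b (..)`, and `dOp u' (e d b .. x) =
dOp (u' ++ [(b, ..)]) x = 0`.  `c ≠ a`, `b = d`: `-e a c (..)`: induction hypothesis (ii) for `u'`, `x`.
`c = a`, `b = d`: induction hypothesis (iii) for `u'`, `x`.
(iii) `A g x = g (A x) + [A, g] x`; the first by the induction hypothesis, and `[A, g]` is a multiple
of a letter `e d c (..)` (GBR), so `dOp u' ([A, g] x) = 0` as above.
So `K` is stable: `x ∈ K m`, `a ≠ b` ⟹ `e a b r s x ∈ K (m + sg a - sg b)` (`a = d` is (0)).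
`K (nd n c) = 0` for all `c`: `c = d` clear.  `c ≠ d`: `y ∈ K (nd n c)` is `λ • ch (nd n c)` (`one`, `ch_ne`,
`ch_mem`; `nd n c` is a type), and `u = n` times `(c, 0, 0)`: `(e d c 0 0)^k ch (nd n c) =
k! • ch (nd n c + k (sg d - sg c))` for `k ≤ n` (`e_ch`), so `0 = λ n! ch (nd n d)` and `λ = 0`.
Now let `x` be as in the goal, `x ∈ K m`.  For every word `w` and `c` as in `nondeg`:
`eOp e w x ∈ K (nd n c) = 0` by stability.  So `x = 0` by `nondeg`. -/
def S_SPN : Prop :=
  ∀ (l n : ℕ) [NeZero l] (T : Type) [AddCommGroup T] [Module ℂ T] (C : Cnt l n T), 3 ≤ l →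
    ∀ (d : ZMod l) (m : ZMod l → ℤ) (x : T), x ∈ C.gr m →
    (∀ u : List (Lt3 l), (∀ a ∈ u, a.1 ≠ d) → m + dWt d u = nd n d → dOp C d u x = 0) → x = 0

/-- **LAU** (packet LAU): the exponents of `y` can be taken non-negative.  Hypotheses allowed:
S_SPN, S_GBR.
PROOF.  For `c ≠ d` let `V_c` be the span of the `e d c i j`, `i ∈ ℕ`, `j ≥ 0`, in `End T` (finite
dimensional).  Choose `b ∉ {c, d}`, `g_s = [e d b 0 s, e b d 0 0]` for `s = 1, -1`; by GBR
`Y_s = (X ↦ g_s X - X g_s)` maps `e d c i j` to `e d c i (j + s)` for all `j ∈ ℤ`.  `Y_1` maps `V_c` to `V_c`,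
and `Y_{-1} Y_1 X = X` for `X ∈ V_c` (linearity), so `Y_1` is injective on `V_c`, hence surjective on `V_c`
(finite dimension), hence `Y_{-1} V_c ⊆ V_c`.  So `e d c i (-k) ∈ V_c` for all `k` by induction.
By induction on the list `u`: `dOp u` is in the span of the `dOp u'` where `u'` has the same length and
the same first entries as `u` and non-negative exponents.  So (same weight) the hypothesis of SPN
follows. -/
def S_LAU : Prop :=
  ∀ (l n : ℕ) [NeZero l] (T : Type) [AddCommGroup T] [Module ℂ T] (C : Cnt l n T), 3 ≤ l →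
    ∀ (d : ZMod l) (m : ZMod l → ℤ) (x : T), x ∈ C.gr m →
    (∀ u : List (Lt3 l), (∀ a ∈ u, a.1 ≠ d ∧ 0 ≤ a.2.2) → m + dWt d u = nd n d →
      dOp C d u x = 0) → x = 0

/-- **REL** (packet REL): the relation of the power sums.  Hypothesis allowed: S_GBR.
PROOF.  `g = [e d d' i j, e d' d 0 0]`.  By GBR (`a = d'`) for `c ∉ {d, d'}`: `g e_dc(i', j') =
e_dc(i', j') g + e_dc (i' + i) (j' + j)`.  So (induction on the list `List.ofFn`) `g pOp(a) =
pOp(a) g + ∑_k pOp(a with (i, j) added at k)`.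
`g τ = 0`: `tyc x d = 0 = tyc x d'`; `e d' d 0 0 τ ∈ gr (tyc x + sg d' - sg d)` and `e d d' i j τ ∈
gr (tyc x + sg d - sg d')`, both weights have a negative entry, so both vectors are `0` (`bot`).
`y = pOp(a) τ ∈ gr (tyc x + ∑_k (sg d - sg (x k))) = gr (nd n d)` (`nd n d = n • sg d`), so
`y = λ • ch (nd n d)`.  `g y = (if i = 0 then n else 0) • y`: for `n = 0` both sides are `0`
(`nd 0 d ± ...` has a negative entry, `g y = 0`).  For `n ≥ 1`: `e d d' i j (ch (nd n d)) = 0` (negative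
entry at `d'`), `e d' d 0 0 (ch (nd n d)) = (0 + 1) • ch m'`, `m' = nd n d + sg d' - sg d`, and
`e d d' i j (ch m') = (if i = 0 then (n - 1) + 1 else 0) • ch (nd n d)` (`e_ch`).
So `∑_k pOp(a with (i,j) added at k) τ = g y - pOp(a) (g τ) = (if i = 0 then n else 0) • y`. -/
def S_REL : Prop :=
  ∀ (l n : ℕ) [NeZero l] (T : Type) [AddCommGroup T] [Module ℂ T] (C : Cnt l n T), 3 ≤ l →
    ∀ (d d' : ZMod l), d ≠ d' → ∀ x : Fin n → ZMod l, (∀ k, x k ≠ d ∧ x k ≠ d') →
    ∀ τ ∈ C.gr (tyc x), ∀ (a : Fin n → ℕ × ℕ) (i j : ℕ),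
      ∑ k, pOp C d x (Function.update a k (a k + (i, j))) τ =
        (if i = 0 then (n : ℂ) else 0) • pOp C d x a τ

/-- **INJ** (packet INJ).  Hypothesis allowed: S_LAU.
PROOF.  We check the hypothesis of LAU for `τ`.  Let `u` have letters `(c, i, j)`, `c ≠ d`, `j ≥ 0`, and
`tyc x + dWt d u = nd n d`.  At `d`: `0 + |u| = n` (`tyc x d = 0`).  At `c ≠ d`: `tyc x c = #{a ∈ u : a.1 = c}`,
and `tyc x c = #{k : x k = c}`.  So the lists `u.map (·.1)` and `List.ofFn x` are permutations of each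
other, hence there is `a : Fin n → ℕ × ℕ` with `List.ofFn (fun k => (x k, (a k).1, (a k).2))` a permutation
of `u` (`List.Perm` and `List.map`: e.g. write `u = List.ofFn v`, `v : Fin n → Lt3 l`, and take the
permutation `σ` of `Fin n` with `x = (fun k => (v k).1) ∘ σ`).  The operators `e d c i j` commute (`com`), so
`dOp u = pOp d x a` (`List.Perm.prod_eq'` or `List.prod_eq` for pairwise commuting lists).  Now
`y = pOp d x a τ ∈ gr (nd n d)`, `y = λ • ch (nd n d)` (`one`, `ch_ne`, `ch_mem`), and `lam y =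
phi τ (monomial s 1) = 0` for the `s` with `exps s = a`.  So `λ = 0`, `y = 0`. -/
def S_INJ : Prop :=
  ∀ (l n : ℕ) [NeZero l] (T : Type) [AddCommGroup T] [Module ℂ T] (C : Cnt l n T), 3 ≤ l →
    ∀ (d : ZMod l) (x : Fin n → ZMod l), (∀ k, x k ≠ d) →
    ∀ lam : T →ₗ[ℂ] ℂ, lam (C.ch (nd n d)) ≠ 0 →
    ∀ τ ∈ C.gr (tyc x), phi C d x lam τ = 0 → τ = 0

/-- **EQV** (packet EQV).  No hypotheses.
PROOF.  It is enough to check `P = monomial s 1` (both sides are linear in `P`).  `rn σ (monomial s 1) =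
monomial s' 1` with `s' (inl (σ k)) = s (inl k)`, `s' (inr (σ k)) = s (inr k)` (`rename_monomial`,
`Finsupp.mapDomain`), i.e. `exps s' (σ k) = exps s k`.  The right side is `lam` of
`∏_k e d (x k) (exps s' k)`, the left side is `lam` of `∏_k e d (x (σ k)) (exps s k) =
∏_k e d (x (σ k)) (exps s' (σ k))`.  The operators commute pairwise (`com`, `x k ≠ d`), so the two products
are equal (`List.ofFn (f ∘ σ)` is a permutation of `List.ofFn f`). -/
def S_EQV : Prop :=
  ∀ (l n : ℕ) [NeZero l] (T : Type) [AddCommGroup T] [Module ℂ T] (C : Cnt l n T),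
    ∀ (d : ZMod l) (x : Fin n → ZMod l), (∀ k, x k ≠ d) →
    ∀ (lam : T →ₗ[ℂ] ℂ) (τ : T) (σ : Equiv.Perm (Fin n)) (P : Pn n),
      phi C d (x ∘ σ) lam τ P = phi C d x lam τ (rn σ P)

/-- **WEY** (packet WEY): Weyl's theorem, the power sums generate the invariants.  No hypotheses.
PROOF.  For `α = (i, j) ∈ ℕ × ℕ` put `z_k^α = X (inl k)^i X (inr k)^j`, `ps n i j = ∑_k z_k^α`.  For
`α : Fin r → ℕ × ℕ` put `M α = ∑_{f : Fin r ↪ Fin n} ∏_t z_{f t}^{α t}`.  CLAIM: `M α` is in the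
subalgebra `S` generated by the power sums, by induction on `r`.  `r = 0`: `M = 1`.  `r + 1`, with
`α = (α_0, α')`: `ps(α_0) * M α' = ∑_{k, f'} z_k^{α_0} ∏_t z_{f' t}^{α' t}`; the pairs `(k, f')` with `k` not
in the range of `f'` give `M α`; for every `t` the pairs with `k = f' t` give `M (α' with α_0 added at t)`.
So `M α ∈ S` by the induction hypothesis (used for all `α'` of length `r`).
For `r = n`: embeddings `Fin n ↪ Fin n` are permutations, so `∑_σ rn σ (monomial s 1) = M (exps s)`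
(`rn σ (z_k^α) = z_{σ k}^α`).  If `f` is invariant, `n! • f = ∑_σ rn σ f = ∑_s coeff_s f • ∑_σ rn σ (monomial s 1)
∈ S`, so `f ∈ S`. -/
def S_WEY : Prop :=
  ∀ (n : ℕ) (f : Pn n), (∀ σ : Equiv.Perm (Fin n), rn σ f = f) →
    f ∈ Algebra.adjoin ℂ {p | ∃ i j, p = ps n i j}

/-- **KIL** (packet KIL): `phi τ ∘ sh` vanishes on the ideal of `DR_n`.  Hypotheses allowed:
S_REL, S_WEY.
PROOF.  Write `ψ = phi C d x lam τ`.  (1) `ψ (Q * (ps n i j - C (if i = 0 then n else 0))) = 0` for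
all `Q`, `i, j`: for `Q = monomial s 1`, `Q * z_k^{(i,j)} = monomial s_k 1` with
`exps s_k = update (exps s) k (exps s k + (i, j))`; so this is REL.  Linear in `Q`.
(2) Let `J` be the ideal `{f : ∀ Q, ψ (Q * f) = 0}`, `ev` the evaluation `x_k ↦ 0`, `y_k ↦ 1` (`aeval`).
`{f : f - C (ev f) ∈ J}` is a subalgebra (`f g - ev f ev g = f (g - ev g) + ev g (f - ev f)`) and contains
all `ps n i j` (`ev (ps n i j) = n` if `i = 0`, else `0`).  By WEY it contains all invariants.
(3) Let `f` be invariant with `constantCoeff f = 0`.  `sh f` is invariant (`rn σ (sh g) = sh (rn σ g)`,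
check on variables) and `ev (sh f) = f(0, 1 - 1) = constantCoeff f = 0` (check on variables:
`ev ∘ sh = constantCoeff`).  So `sh f ∈ J`.  `{P : sh P ∈ J}` is an ideal, so it contains `dIdeal n`, and
`ψ (sh P) = ψ (1 * sh P) = 0` for `P ∈ dIdeal n`. -/
def S_KIL : Prop :=
  ∀ (l n : ℕ) [NeZero l] (T : Type) [AddCommGroup T] [Module ℂ T] (C : Cnt l n T), 3 ≤ l →
    ∀ (d d' : ZMod l), d ≠ d' → ∀ x : Fin n → ZMod l, (∀ k, x k ≠ d ∧ x k ≠ d') →
    ∀ (lam : T →ₗ[ℂ] ℂ), ∀ τ ∈ C.gr (tyc x), ∀ P ∈ dIdeal n, phi C d x lam τ (sh n P) = 0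

/-- **FIN** (packet FIN): `DR_n` is finite-dimensional.  No hypotheses.
PROOF.  In `DR_n` the image of `∏_k (T - x_k) ∈ DR_n[T]` is `T^n`: its lower coefficients are, up to
sign, elementary symmetric polynomials in the `x_k` (`esymm`), invariant without constant term, so
they are `0` in `DR_n`.  Evaluate at `T = x_k`: `x_k^n = 0`.  In the same way `y_k^n = 0`.  So `DR_n` is
spanned by the images of the monomials with all exponents `< n`, a finite set. (Compare
`Helper31/ZC/DCU.lean`, `xk_esymm`.) -/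
def S_FIN : Prop := ∀ n : ℕ, FiniteDimensional ℂ (DR n)

/-- **FCN** (packet FCN): the count.  Hypotheses allowed: S_INJ, S_EQV, S_KIL, S_FIN.
PROOF.  For `x : Fin n → ZMod l` the range of `x` has at most `n ≤ l - 2` elements, so there are `d ≠ d'`
outside the range; choose them as functions of the set `Set.range x`, so that `d (x ∘ σ) = d x`.
Choose `lam_d : T →ₗ ℂ` with `lam_d (ch (nd n d)) = 1` for all `d`.  For `τ ∈ gr (tyc x)` the functional
`P ↦ phi C (d x) x lam (τ) (sh n P)` vanishes on `dIdeal n` (KIL), so it defines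
`Φ τ x : DR n →ₗ ℂ`, linear in `τ`.  `rn σ (sh P) = sh (rn σ P)`, so EQV gives
`Φ τ (x ∘ σ) p = Φ τ x (rq σ p)` (`tyc (x ∘ σ) = tyc x`).  `Φ τ x = 0 ⟹ τ = 0` by INJ: `sh` is surjective
(inverse `y_k ↦ y_k + 1`), so `phi τ = 0`.
(1) Block: `τ ↦ Φ τ x` is an injective map from `gr (tyc x)` to the functionals on `DR n` that are
invariant under the stabiliser of `x`.  Restriction to `DRfix x` is injective on these: if `λ` is
invariant, `λ p = λ (average of p over the stabiliser)`.  So `finrank gr (tyc x) ≤ finrank DRfix x`.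
(2) Total: for every type `m` there is `x` with `tyc x = m` (for a nonzero `gr m`).  Let
`U = ∀ m : (the finite set of all tyc x), gr m`; `U → T`, the sum, is surjective (`top`, `bot`), so
`finrank T ≤ finrank U`.  `finrank_le_EqMaps` of `Pool/Agent/Helper34/SQ/Eqd.lean` with
`g • x = x ∘ g⁻¹`, `ρ g = rq g`, `Φ u x = Φ (u (tyc x)) x` gives `finrank U ≤ finrank (EqMaps ..)`, and
`EqMaps` is `DRmaps n l`.  (Or directly: pair `U` with `DRmaps` by `⟨u, f⟩ = ∑_x Φ (u (tyc x)) x (f x)`.) -/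
def S_FCN : Prop :=
  ∀ (l n : ℕ) [NeZero l] (T : Type) [AddCommGroup T] [Module ℂ T] (C : Cnt l n T), 3 ≤ l →
    n + 2 ≤ l →
    (∀ x : Fin n → ZMod l,
      Module.finrank ℂ (C.gr (tyc x)) ≤ Module.finrank ℂ (DRfix (l := l) x)) ∧
    Module.finrank ℂ T ≤ Module.finrank ℂ (DRmaps n l)

end

end Pool.Agent.Helper19.SQ
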