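import Pool.Agent.Helper19.SQ.Core

/-!
Project SQ (MP_bb32d1_al), second stage, helper19: the abstract data `AbsData`.  Part Q produces
them for the space `T` of invariant traces of `u_q(gl_n)`, part L deduces the upper bound from
them.
-/

namespace Pool.Agent.Helper19.SQ

noncomputable section

/-- the affine Cartan matrix of type `A_{l-1}^{(1)}` (`l ≥ 3`). -/
def acar {l : ℕ} (c c' : ZMod l) : ℤ :=
  if c = c' then 2 else if c' = c + 1 ∨ c = c' + 1 then -1 else 0

/-- types: the entries of `m` are non-negative and their sum is `n`. -/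
def IsTy {l : ℕ} [NeZero l] (n : ℕ) (m : ZMod l → ℤ) : Prop :=
  (∀ c, 0 ≤ m c) ∧ ∑ c, m c = (n : ℤ)

/-- the type `n δ_c`. -/
def nd {l : ℕ} (n : ℕ) (c : ZMod l) : ZMod l → ℤ := fun x => if x = c then (n : ℤ) else 0

/-- letters: `(true, c, r)` stands for `E_c^r`, `(false, c, r)` for `F_c^r`. -/
abbrev Lt (l : ℕ) : Type := Bool × ZMod l × ℕ

/-- the weight of a letter: `± α_c`. -/
def ltWt {l : ℕ} (a : Lt l) : ZMod l → ℤ := if a.1 then al a.2.1 else - al a.2.1

/-- the weight of a word. -/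
def wdWt {l : ℕ} (w : List (Lt l)) : ZMod l → ℤ := (w.map ltWt).sum

/-- the operator of a letter. -/
def ltOp {l : ℕ} {T : Type} [AddCommGroup T] [Module ℂ T] (E F : ZMod l → ℕ → Module.End ℂ T)
    (a : Lt l) : Module.End ℂ T := if a.1 then E a.2.1 a.2.2 else F a.2.1 a.2.2

/-- the operator of a word; the last letter acts first. -/
def wdOp {l : ℕ} {T : Type} [AddCommGroup T] [Module ℂ T] (E F : ZMod l → ℕ → Module.End ℂ T)
    (w : List (Lt l)) : Module.End ℂ T := (w.map (ltOp E F)).prod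

/-- The abstract data of the second stage: a finite-dimensional space `T` which is the sum of
subspaces `T_m`, nonzero only for types `m`, with currents `E_c^r : T_m → T_{m + α_c}`,
`F_c^r : T_m → T_{m - α_c}` and `H_c^r`, such that words in the `E` and `F` which end in the
lines `T_{n δ_c}` detect the elements of all `T_m`, and a family of elements `ch_m` on which
the currents of positive order vanish. -/
structure AbsData (l n : ℕ) [NeZero l] (T : Type) [AddCommGroup T] [Module ℂ T] where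
  gr : (ZMod l → ℤ) → Submodule ℂ T
  E : ZMod l → ℕ → Module.End ℂ T
  F : ZMod l → ℕ → Module.End ℂ T
  H : ZMod l → ℕ → Module.End ℂ T
  ch : (ZMod l → ℤ) → T
  fd : FiniteDimensional ℂ T
  top : ⨆ m, gr m = ⊤
  bot : ∀ m, ¬ IsTy n m → gr m = ⊥
  EF : ∀ c c' r s, ⁅E c r, F c' s⁆ = if c = c' then H c (r + s) else 0
  HF : ∀ c c' r s, ⁅H c r, F c' s⁆ = (-(acar c c' : ℂ)) • F c' (r + s)
  HE : ∀ c c' r s, ⁅H c r, E c' s⁆ = (acar c c' : ℂ) • E c' (r + s)
  HH : ∀ c c' r s, ⁅H c r, H c' s⁆ = 0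
  E_gr : ∀ c r m, ∀ x ∈ gr m, E c r x ∈ gr (m + al c)
  F_gr : ∀ c r m, ∀ x ∈ gr m, F c r x ∈ gr (m - al c)
  nondeg : ∀ m, ∀ x ∈ gr m,
    (∀ (w : List (Lt l)) (c : ZMod l), m + wdWt w = nd n c → wdOp E F w x = 0) → x = 0
  one : ∀ c, Module.finrank ℂ (gr (nd n c)) ≤ 1
  ch_mem : ∀ m, IsTy n m → ch m ∈ gr m
  ch_ne : ∀ c, ch (nd n c) ≠ 0
  ch_E : ∀ c m, IsTy n m → IsTy n (m + al c) → E c 0 (ch m) = ((m c : ℂ) + 1) • ch (m + al c)
  ch_F : ∀ c m, IsTy n m → IsTy n (m - al c) →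
    F c 0 (ch m) = ((m (c + 1) : ℂ) + 1) • ch (m - al c)
  ch_E0 : ∀ c r m, IsTy n m → r ≠ 0 → E c r (ch m) = 0
  ch_F0 : ∀ c r m, IsTy n m → r ≠ 0 → F c r (ch m) = 0

end

end Pool.Agent.Helper19.SQ
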