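import Mathlib

/-!
Project SQ (MP_bb32d1_al), helper19.  The abstract structure of section 11.
-/

namespace Pool.Agent.Helper19.SQ

noncomputable section

open Matrix

section

variable {A : Type} [Ring A] [Algebra ℂ A] {ι : Type} [Fintype ι] [DecidableEq ι]

/-- `D1 a`, the action of `a` on `V* (x) V (x) A`; rows `(j,p)`, columns `(i,k)`
(`(j,p)` is `phi_j (x) v_p`). -/
def D1 (δ ε : A →ₐ[ℂ] Matrix ι ι A) (a : A) : Matrix (ι × ι) (ι × ι) A :=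
  Matrix.of fun x y => δ (ε a x.1 y.1) x.2 y.2

/-- `D2 a`, the action of `a` on `V (x) V* (x) A`; rows `(p,j)`, columns `(k,i)`
(`(p,j)` is `v_p (x) phi_j`). -/
def D2 (δ ε : A →ₐ[ℂ] Matrix ι ι A) (a : A) : Matrix (ι × ι) (ι × ι) A :=
  Matrix.of fun x y => ε (δ a x.1 y.1) x.2 y.2

/-- `1 (x) X` on `V* (x) V (x) A`. -/
def X1 (X : Matrix ι ι A) : Matrix (ι × ι) (ι × ι) A :=
  Matrix.of fun x y => if x.1 = y.1 then X x.2 y.2 else 0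

/-- `X` on `V (x) (V* (x) A)`. -/
def X2 (ε : A →ₐ[ℂ] Matrix ι ι A) (X : Matrix ι ι A) : Matrix (ι × ι) (ι × ι) A :=
  Matrix.of fun x y => ε (X x.1 y.1) x.2 y.2

/-- scalar matrix. -/
def sc (A : Type) [Ring A] [Algebra ℂ A] {κ : Type} (S : Matrix κ κ ℂ) : Matrix κ κ A :=
  S.map (algebraMap ℂ A)

/-- evaluation of a polynomial at a matrix. -/
def pev {κ : Type} [Fintype κ] [DecidableEq κ] (p : Polynomial ℂ) (X : Matrix κ κ A) :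
    Matrix κ κ A := Polynomial.aeval X p

/-- `b_k = v X2^k u` (also used for `beta_k`, with `X1' = S X1 T` in place of `X2`). -/
def bvu {κ : Type} [Fintype κ] [DecidableEq κ] (v u : κ → A) (Y : Matrix κ κ A) (k : ℕ) : A :=
  v ⬝ᵥ (Y ^ k *ᵥ u)

/-- `pi_0 = 0`, `pi_{k+1} = (k+1) b_k - sum_{r+t=k-1} (t+1) beta_r b_t`. -/
def piv (b β : ℕ → A) : ℕ → A
  | 0 => 0
  | k + 1 => ((k : ℂ) + 1) • b k - ∑ r ∈ Finset.range k, ((k : ℂ) - r) • (β r * b (k - 1 - r))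

/-- `alpha_c = delta_c - delta_{c+1}`. -/
def al {l : ℕ} (c : ZMod l) : ZMod l → ℤ := fun x => (if x = c then 1 else 0) -
  (if x = c + 1 then 1 else 0)

end

/-- The data and properties used by the abstract part (section 11), without the blocks. -/
structure Core0 (A : Type) [Ring A] [Algebra ℂ A] (ι : Type) [Fintype ι] [DecidableEq ι] where
  δ : A →ₐ[ℂ] Matrix ι ι A
  ε : A →ₐ[ℂ] Matrix ι ι A
  /-- `w i = q^{-2 i}` -/
  w : ι → ℂ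
  w_ne : ∀ i, w i ≠ 0
  cap0 : ∀ a i k, ∑ j, ε (δ a j i) j k = if k = i then a else 0
  cup0 : ∀ a p j, ∑ i, δ (ε a j i) p i = if j = p then a else 0
  cap1 : ∀ a i k, ∑ j, w j • δ (ε a j i) j k = if k = i then w k • a else 0
  X : Matrix ι ι A
  Xδ : ∀ a, X * δ a = δ a * X
  S : Matrix (ι × ι) (ι × ι) ℂ
  T : Matrix (ι × ι) (ι × ι) ℂ
  ST : S * T = 1
  TS : T * S = 1
  inter : ∀ a, sc A S * D1 δ ε a = D2 δ ε a * sc A S
  u : ι × ι → A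
  v : ι × ι → A
  uD : ∀ a, D2 δ ε a *ᵥ u = fun x => u x * a
  vD : ∀ a, v ᵥ* D2 δ ε a = fun x => a * v x
  X2eq : X2 ε X = sc A S * X1 X * sc A T + Matrix.vecMulVec u v
  φ : A ≃ₐ[ℂ] A
  θ : ι → ℂˣ
  φδ : ∀ a i j, δ (φ a) i j = ((θ i : ℂ) * (θ j : ℂ)⁻¹) • φ (δ a i j)
  φε : ∀ a i j, ε (φ a) i j = ((θ i : ℂ)⁻¹ * (θ j : ℂ)) • φ (ε a i j)
  φX : ∀ i j, φ (X i j) = ((θ i : ℂ)⁻¹ * (θ j : ℂ)) • X i j
  φS : ∀ x y : ι × ι, S x y ≠ 0 → (θ x.1 : ℂ) * (θ y.1 : ℂ) = (θ x.2 : ℂ) * (θ y.2 : ℂ)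
  φT : ∀ x y : ι × ι, T x y ≠ 0 → (θ x.1 : ℂ) * (θ y.1 : ℂ) = (θ x.2 : ℂ) * (θ y.2 : ℂ)
  φu : ∀ x : ι × ι, φ (u x) = ((θ x.1 : ℂ)⁻¹ * (θ x.2 : ℂ)) • u x
  φv : ∀ x : ι × ι, φ (v x) = ((θ x.1 : ℂ) * (θ x.2 : ℂ)⁻¹) • v x

/-- `b_k = v X2^k u`. -/
def Core0.b {A : Type} [Ring A] [Algebra ℂ A] {ι : Type} [Fintype ι] [DecidableEq ι]
    (C : Core0 A ι) : ℕ → A := bvu C.v C.u (X2 C.ε C.X)

/-- `X1' = S X1 T`. -/
def Core0.X1p {A : Type} [Ring A] [Algebra ℂ A] {ι : Type} [Fintype ι] [DecidableEq ι]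
    (C : Core0 A ι) : Matrix (ι × ι) (ι × ι) A := sc A C.S * X1 C.X * sc A C.T

/-- `beta_k = v (S X1 T)^k u`. -/
def Core0.β {A : Type} [Ring A] [Algebra ℂ A] {ι : Type} [Fintype ι] [DecidableEq ι]
    (C : Core0 A ι) : ℕ → A := bvu C.v C.u C.X1p

/-- `pi_k`. -/
def Core0.pi {A : Type} [Ring A] [Algebra ℂ A] {ι : Type} [Fintype ι] [DecidableEq ι]
    (C : Core0 A ι) : ℕ → A := piv C.b C.β

/-- The data and properties used by the abstract part (section 11). -/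
structure Core (A : Type) [Ring A] [Algebra ℂ A] (ι : Type) [Fintype ι] [DecidableEq ι]
    (l : ℕ) extends Core0 A ι where
  e : (ZMod l → ℤ) → A
  e_cen : ∀ m a, e m * a = a * e m
  e_idem : ∀ m, e m * e m = e m
  e_orth : ∀ m m', m ≠ m' → e m * e m' = 0
  types : Finset (ZMod l → ℤ)
  e_types : ∀ m, m ∉ types → e m = 0
  types_nonneg : ∀ m ∈ types, ∀ c, 0 ≤ m c
  e_sum : ∑ m ∈ types, e m = 1
  φe : ∀ m, φ (e m) = e m
  pc : ZMod l → Polynomial ℂ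
  BL1 : ∀ c m, pev (pc c) X * Matrix.diagonal (fun _ => e m)
    = δ (e (m - al c)) * Matrix.diagonal (fun _ => e m)
  BL2 : ∀ m m', ε (e m') * Matrix.diagonal (fun _ => e m) ≠ 0 → ∃ c, m' = m + al c
  DL : ∀ c m, (∑ k ∈ Finset.range ((pc c).natDegree + 1), (pc c).coeff k • toCore0.pi k) * e m
    = ((m (c + 1) - m c : ℤ) : ℂ) • e m

end

end Pool.Agent.Helper19.SQ
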