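import Pool.Agent.Helper19.SQ.CDefs

/-!
Project SQ (MP_bb32d1_al), second stage, helper19: the numerical consequence of Haiman's
character formula for the diagonal coinvariants.
-/

namespace Pool.Agent.Helper19.SQ

noncomputable section

/-- Haiman's character formula for the diagonal coinvariants, without the grading: the character of
`DR_n` is `sgn(σ) (n+1)^(cycles - 1)`.  The number of `f : Fin n → Fin (n+1)` with `f ∘ σ = f` is
`(n+1)^cycles`. -/
def HaimanCharacter (n : ℕ) : Prop :=
  ∀ σ : Equiv.Perm (Fin n), ((n : ℂ) + 1) * LinearMap.trace ℂ (DR n) (rq σ).toLinearMap =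
    ((Equiv.Perm.sign σ : ℤ) : ℂ) * (Nat.card {f : Fin n → Fin (n + 1) // f ∘ σ = f} : ℂ)

/-- **HAI** (packet HAI).  Hypothesis allowed: S_FIN (or the instance as written).
PROOF.  Let `V = DR n`, `Ω = Fin n → ZMod l`, `W = (Ω → V)`, `(ρ g f) x = rq g (f (x ∘ g))`, a representation of
`G = Perm (Fin n)` (`rq (g h) = rq g ∘ rq h`, `x ∘ (g h) = (x ∘ g) ∘ h`).  Its invariants are
`DRmaps n l`.  The average `P = (1/n!) ∑ ρ g` is a projection onto them, so `finrank = trace P`
(`LinearMap.IsProj.trace`, `Representation.averageMap`; or `LinearMap.trace` of an idempotent).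
`trace (ρ g) = #{x : x ∘ g = x} * trace (rq g)`: `ρ g = ∑_x single x ∘ rq g ∘ proj (x ∘ g)` and
`trace (single x ∘ A ∘ proj y) = trace (A ∘ proj y ∘ single x)` is `trace A` if `x = y`, else `0`.
So `(n+1) n! finrank = ∑_g sgn g * #{x : Fin n → ZMod l : x ∘ g = x} * #{f : Fin n → Fin (n+1) : f ∘ g = f}
= ∑_g sgn g * #{F : Fin n → Fin (n+1) × ZMod l : F ∘ g = F} = ∑_F ∑_{g : F ∘ g = F} sgn g`.  For `F`
injective the inner sum is `1` (only `g = 1`).  If `F i = F j`, `i ≠ j`, then `g ↦ g * swap i j` is an
involution without fixed points on `{g : F ∘ g = F}` which changes the sign, so the inner sum is `0`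
(`Finset.sum_involution`).  So the sum is the number of injective `F`, which is
`((n+1) l).descFactorial n = n! * ((n+1) l).choose n` (`Fintype.card_embedding_eq`,
`Nat.descFactorial_eq_factorial_mul_choose`). -/
def S_HAI : Prop :=
  ∀ (n l : ℕ) [NeZero l], FiniteDimensional ℂ (DR n) → HaimanCharacter n →
    (n + 1) * Module.finrank ℂ (DRmaps n l) = Nat.choose ((n + 1) * l) n

end

end Pool.Agent.Helper19.SQ
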