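import Pool.Agent.Helper19.SQ.GoalsC
import Pool.Agent.Helper86.SQ.CLP
import Pool.Agent.Helper8.SQ.CNT
import Pool.Agent.Helper36.SQ.GBR
import Pool.Agent.Helper89.SQ.SPN
import Pool.Agent.Helper28.SQ.LAU
import Pool.Agent.Helper13.SQ.REL
import Pool.Agent.Helper46.SQ.INJ
import Pool.Agent.Helper97.SQ.EQV
import Pool.Agent.Helper95.SQ.FIN
import Pool.Agent.Helper40.SQ.FCN
import Pool.Agent.Helper34.SQ.WEY
import Pool.Agent.Helper59.SQ.KIL
import Pool.Agent.Helper12.SQ.HAI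
import Pool.Agent.Helper19.SQ.GoalsC2

/-!
Project SQ (MP_bb32d1_al), helper19: assembly of the count (second stage).
-/

namespace Pool.Agent.Helper19.SQ

theorem cGBR : S_GBR := Helper36.SQ.s_gbr
theorem cCNT : S_CNT := Helper8.SQ.s_cnt Helper86.SQ.s_clp
theorem cSPN : S_SPN := Helper89.SQ.s_spn cGBR
theorem cLAU : S_LAU := Helper28.SQ.s_lau cSPN cGBR
theorem cREL : S_REL := Helper13.SQ.s_rel cGBR
theorem cINJ : S_INJ := Helper46.SQ.s_inj cLAU
theorem cEQV : S_EQV := Helper97.SQ.s_eqv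
theorem cFIN : S_FIN := Helper95.SQ.s_fin
theorem cWEY : S_WEY := Helper34.SQ.sWEY
theorem cKIL : S_KIL := Helper59.SQ.s_kil cREL cWEY
theorem cFCN : S_FCN := Helper40.SQ.s_fcn cINJ cEQV cKIL cFIN
theorem cHAI : S_HAI := Helper12.SQ.s_hai

/-- the count: from the abstract data with loop operators to the diagonal coinvariants. -/
theorem countB (l n : ℕ) [NeZero l] (T : Type) [AddCommGroup T] [Module ℂ T]
    (D : AbsData l n T) (L : LoopA D) (h3 : 3 ≤ l) (hn : n + 2 ≤ l) :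
    (∀ x : Fin n → ZMod l,
      Module.finrank ℂ (D.gr (tyc x)) ≤ Module.finrank ℂ (DRfix (l := l) x)) ∧
    Module.finrank ℂ T ≤ Module.finrank ℂ (DRmaps n l) := by
  obtain ⟨C, hC, -, -⟩ := cCNT l n T D L h3
  have h := cFCN l n T C h3 hn
  rw [hC] at h
  exact h

end Pool.Agent.Helper19.SQ
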