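import Mathlib

/-!
Project SQ (MP_bb32d1_al), helper19.  Definitions for the small quantum groups `u_q(sl_n)` and
`u_q(gl_n)`, `n = N + 1`, `q` a primitive `l`-th root of unity.
The complete proof text is the file MP_bb32d1_al_proof_helper19.md of the team store.
-/

namespace Pool.Agent.Helper19.SQ

noncomputable section

/-- `(eps_j, alpha_i)`. -/
def pr (j i : ℕ) : ℤ := if j = i then 1 else if j = i + 1 then -1 else 0

section General

variable {B : Type*} [Ring B] [Algebra ℂ B]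

/-- `rvA q E d i` is the root vector `E_{i,i+d+1}`. -/
def rvA (q : ℂ) (E : ℕ → B) : ℕ → ℕ → B
  | 0, i => E i
  | d + 1, i => E i * rvA q E d (i + 1) - q⁻¹ • (rvA q E d (i + 1) * E i)

/-- the opposite root vectors: `rvoA q E d i` is `E°_{i,i+d+1}`. -/
def rvoA (q : ℂ) (E : ℕ → B) : ℕ → ℕ → B
  | 0, i => E i
  | d + 1, i => rvoA q E d (i + 1) * E i - q⁻¹ • (E i * rvoA q E d (i + 1))

/-- root vector `E_{ij}`, meaningful for `i < j`. -/
def rv (q : ℂ) (E : ℕ → B) (i j : ℕ) : B := rvA q E (j - i - 1) i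

/-- opposite root vector `E°_{ij}`, meaningful for `i < j`. -/
def rvo (q : ℂ) (E : ℕ → B) (i j : ℕ) : B := rvoA q E (j - i - 1) i

/-- far commutation and the quantum Serre relations. -/
structure SerreRel (q : ℂ) (E : ℕ → B) : Prop where
  far : ∀ i j, i + 1 < j → E i * E j = E j * E i
  s1 : ∀ i, E i ^ 2 * E (i + 1) - (q + q⁻¹) • (E i * E (i + 1) * E i) + E (i + 1) * E i ^ 2 = 0
  s2 : ∀ i, E (i + 1) ^ 2 * E i - (q + q⁻¹) • (E (i + 1) * E i * E (i + 1)) + E i * E (i + 1) ^ 2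
    = 0

/-- The relations of `u_q(gl_{N+1})`; `K j ^ (l - 1)` is the inverse of `K j`. -/
structure GlRel (N l : ℕ) (q : ℂ) (E F K : ℕ → B) : Prop where
  E_out : ∀ i, N ≤ i → E i = 0
  F_out : ∀ i, N ≤ i → F i = 0
  K_out : ∀ j, N < j → K j = 1
  K_comm : ∀ i j, K i * K j = K j * K i
  K_pow : ∀ j, K j ^ l = 1
  KE : ∀ j i, K j * E i = q ^ pr j i • (E i * K j)
  KF : ∀ j i, K j * F i = q ^ (-pr j i) • (F i * K j)
  EF : ∀ i, i < N → E i * F i - F i * E i
    = (q - q⁻¹)⁻¹ • (K i * K (i + 1) ^ (l - 1) - K i ^ (l - 1) * K (i + 1))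
  EF_ne : ∀ i j, i ≠ j → E i * F j = F j * E i
  sE : SerreRel q E
  sF : SerreRel q F
  pE : ∀ d i, rvA q E d i ^ l = 0
  pF : ∀ d i, rvA q F d i ^ l = 0

end General

section RvMap

variable {B C : Type*} [Ring B] [Algebra ℂ B] [Ring C] [Algebra ℂ C]

theorem rvA_map (q : ℂ) (f : B →ₐ[ℂ] C) (E : ℕ → B) (d i : ℕ) :
    rvA q (fun k => f (E k)) d i = f (rvA q E d i) := by
  induction d generalizing i with
  | zero => rfl
  | succ d ih => simp [rvA, ih, map_sub, map_mul, map_smul]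

theorem rvoA_map (q : ℂ) (f : B →ₐ[ℂ] C) (E : ℕ → B) (d i : ℕ) :
    rvoA q (fun k => f (E k)) d i = f (rvoA q E d i) := by
  induction d generalizing i with
  | zero => rfl
  | succ d ih => simp [rvoA, ih, map_sub, map_mul, map_smul]

theorem rv_map (q : ℂ) (f : B →ₐ[ℂ] C) (E : ℕ → B) (i j : ℕ) :
    rv q (fun k => f (E k)) i j = f (rv q E i j) := rvA_map q f E _ i

theorem rvo_map (q : ℂ) (f : B →ₐ[ℂ] C) (E : ℕ → B) (i j : ℕ) :
    rvo q (fun k => f (E k)) i j = f (rvo q E i j) := rvoA_map q f E _ i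

/-- An algebra map carries `GlRel` families to `GlRel` families. -/
theorem GlRel.map {N l : ℕ} {q : ℂ} {E F K : ℕ → B} (h : GlRel N l q E F K) (f : B →ₐ[ℂ] C) :
    GlRel N l q (fun i => f (E i)) (fun i => f (F i)) (fun i => f (K i)) where
  E_out i hi := by simp [h.E_out i hi]
  F_out i hi := by simp [h.F_out i hi]
  K_out i hi := by simp [h.K_out i hi]
  K_comm i j := by rw [← map_mul, h.K_comm, map_mul]
  K_pow j := by rw [← map_pow, h.K_pow, map_one]
  KE j i := by rw [← map_mul, h.KE, map_smul, map_mul]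
  KF j i := by rw [← map_mul, h.KF, map_smul, map_mul]
  EF i hi := by
    have := congrArg f (h.EF i hi)
    simpa only [map_sub, map_mul, map_smul, map_pow] using this
  EF_ne i j hij := by rw [← map_mul, h.EF_ne i j hij, map_mul]
  sE := by
    refine ⟨fun i j hij => by rw [← map_mul, h.sE.far i j hij, map_mul], fun i => ?_, fun i => ?_⟩
    · have := congrArg f (h.sE.s1 i)
      simpa only [map_sub, map_add, map_mul, map_smul, map_pow, map_zero] using this
    · have := congrArg f (h.sE.s2 i)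
      simpa only [map_sub, map_add, map_mul, map_smul, map_pow, map_zero] using this
  sF := by
    refine ⟨fun i j hij => by rw [← map_mul, h.sF.far i j hij, map_mul], fun i => ?_, fun i => ?_⟩
    · have := congrArg f (h.sF.s1 i)
      simpa only [map_sub, map_add, map_mul, map_smul, map_pow, map_zero] using this
    · have := congrArg f (h.sF.s2 i)
      simpa only [map_sub, map_add, map_mul, map_smul, map_pow, map_zero] using this
  pE d i := by rw [rvA_map, ← map_pow, h.pE, map_zero]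
  pF d i := by rw [rvA_map, ← map_pow, h.pF, map_zero]

end RvMap

/-! ### The algebra `A N l q = u_q(gl_{N+1})` -/

inductive Gen : Type
  | E (i : ℕ) : Gen
  | F (i : ℕ) : Gen
  | K (j : ℕ) : Gen

/-- generators in the free algebra. -/
def fE (i : ℕ) : FreeAlgebra ℂ Gen := FreeAlgebra.ι ℂ (Gen.E i)
def fF (i : ℕ) : FreeAlgebra ℂ Gen := FreeAlgebra.ι ℂ (Gen.F i)
def fK (i : ℕ) : FreeAlgebra ℂ Gen := FreeAlgebra.ι ℂ (Gen.K i)

inductive GRel (N l : ℕ) (q : ℂ) : FreeAlgebra ℂ Gen → FreeAlgebra ℂ Gen → Prop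
  | E_out (i : ℕ) (h : N ≤ i) : GRel N l q (fE i) 0
  | F_out (i : ℕ) (h : N ≤ i) : GRel N l q (fF i) 0
  | K_out (j : ℕ) (h : N < j) : GRel N l q (fK j) 1
  | K_comm (i j : ℕ) : GRel N l q (fK i * fK j) (fK j * fK i)
  | K_pow (j : ℕ) : GRel N l q (fK j ^ l) 1
  | KE (j i : ℕ) : GRel N l q (fK j * fE i) (q ^ pr j i • (fE i * fK j))
  | KF (j i : ℕ) : GRel N l q (fK j * fF i) (q ^ (-pr j i) • (fF i * fK j))
  | EF (i : ℕ) (h : i < N) : GRel N l q (fE i * fF i - fF i * fE i)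
      ((q - q⁻¹)⁻¹ • (fK i * fK (i + 1) ^ (l - 1) - fK i ^ (l - 1) * fK (i + 1)))
  | EF_ne (i j : ℕ) (h : i ≠ j) : GRel N l q (fE i * fF j) (fF j * fE i)
  | farE (i j : ℕ) (h : i + 1 < j) : GRel N l q (fE i * fE j) (fE j * fE i)
  | s1E (i : ℕ) : GRel N l q
      (fE i ^ 2 * fE (i + 1) - (q + q⁻¹) • (fE i * fE (i + 1) * fE i) + fE (i + 1) * fE i ^ 2) 0
  | s2E (i : ℕ) : GRel N l q
      (fE (i + 1) ^ 2 * fE i - (q + q⁻¹) • (fE (i + 1) * fE i * fE (i + 1))
        + fE i * fE (i + 1) ^ 2) 0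
  | farF (i j : ℕ) (h : i + 1 < j) : GRel N l q (fF i * fF j) (fF j * fF i)
  | s1F (i : ℕ) : GRel N l q
      (fF i ^ 2 * fF (i + 1) - (q + q⁻¹) • (fF i * fF (i + 1) * fF i) + fF (i + 1) * fF i ^ 2) 0
  | s2F (i : ℕ) : GRel N l q
      (fF (i + 1) ^ 2 * fF i - (q + q⁻¹) • (fF (i + 1) * fF i * fF (i + 1))
        + fF i * fF (i + 1) ^ 2) 0
  | pE (d i : ℕ) : GRel N l q (rvA q fE d i ^ l) 0
  | pF (d i : ℕ) : GRel N l q (rvA q fF d i ^ l) 0

/-- `u_q(gl_{N+1})`. -/
def A (N l : ℕ) (q : ℂ) : Type := RingQuot (GRel N l q)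

instance (N l : ℕ) (q : ℂ) : Ring (A N l q) := inferInstanceAs (Ring (RingQuot (GRel N l q)))

instance (N l : ℕ) (q : ℂ) : Algebra ℂ (A N l q) :=
  inferInstanceAs (Algebra ℂ (RingQuot (GRel N l q)))

variable {N l : ℕ} {q : ℂ}

/-- the quotient map. -/
def mkA (N l : ℕ) (q : ℂ) : FreeAlgebra ℂ Gen →ₐ[ℂ] A N l q := RingQuot.mkAlgHom ℂ (GRel N l q)

def gE (N l : ℕ) (q : ℂ) (i : ℕ) : A N l q := mkA N l q (fE i)
def gF (N l : ℕ) (q : ℂ) (i : ℕ) : A N l q := mkA N l q (fF i)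
def gK (N l : ℕ) (q : ℂ) (i : ℕ) : A N l q := mkA N l q (fK i)

theorem mkA_rel {x y : FreeAlgebra ℂ Gen} (h : GRel N l q x y) : mkA N l q x = mkA N l q y :=
  RingQuot.mkAlgHom_rel ℂ h

theorem glA (N l : ℕ) (q : ℂ) : GlRel N l q (gE N l q) (gF N l q) (gK N l q) where
  E_out i hi := by simpa [gE] using mkA_rel (GRel.E_out (N := N) (l := l) (q := q) i hi)
  F_out i hi := by simpa [gF] using mkA_rel (GRel.F_out (N := N) (l := l) (q := q) i hi)
  K_out i hi := by simpa [gK] using mkA_rel (GRel.K_out (N := N) (l := l) (q := q) i hi)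
  K_comm i j := by
    simpa only [gK, map_mul] using mkA_rel (GRel.K_comm (N := N) (l := l) (q := q) i j)
  K_pow j := by
    simpa only [gK, map_pow, map_one] using mkA_rel (GRel.K_pow (N := N) (l := l) (q := q) j)
  KE j i := by
    simpa only [gK, gE, map_mul, map_smul] using mkA_rel (GRel.KE (N := N) (l := l) (q := q) j i)
  KF j i := by
    simpa only [gK, gF, map_mul, map_smul] using mkA_rel (GRel.KF (N := N) (l := l) (q := q) j i)
  EF i hi := by
    simpa only [gK, gE, gF, map_mul, map_smul, map_sub, map_pow] using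
      mkA_rel (GRel.EF (N := N) (l := l) (q := q) i hi)
  EF_ne i j h := by
    simpa only [gE, gF, map_mul] using mkA_rel (GRel.EF_ne (N := N) (l := l) (q := q) i j h)
  sE := by
    refine ⟨fun i j h => ?_, fun i => ?_, fun i => ?_⟩
    · simpa only [gE, map_mul] using mkA_rel (GRel.farE (N := N) (l := l) (q := q) i j h)
    · simpa only [gE, map_mul, map_smul, map_sub, map_add, map_pow, map_zero] using
        mkA_rel (GRel.s1E (N := N) (l := l) (q := q) i)
    · simpa only [gE, map_mul, map_smul, map_sub, map_add, map_pow, map_zero] using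
        mkA_rel (GRel.s2E (N := N) (l := l) (q := q) i)
  sF := by
    refine ⟨fun i j h => ?_, fun i => ?_, fun i => ?_⟩
    · simpa only [gF, map_mul] using mkA_rel (GRel.farF (N := N) (l := l) (q := q) i j h)
    · simpa only [gF, map_mul, map_smul, map_sub, map_add, map_pow, map_zero] using
        mkA_rel (GRel.s1F (N := N) (l := l) (q := q) i)
    · simpa only [gF, map_mul, map_smul, map_sub, map_add, map_pow, map_zero] using
        mkA_rel (GRel.s2F (N := N) (l := l) (q := q) i)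
  pE d i := by
    have h := mkA_rel (GRel.pE (N := N) (l := l) (q := q) d i)
    rw [map_pow, map_zero, ← rvA_map] at h
    exact h
  pF d i := by
    have h := mkA_rel (GRel.pF (N := N) (l := l) (q := q) d i)
    rw [map_pow, map_zero, ← rvA_map] at h
    exact h

section Lift

variable {B : Type*} [Ring B] [Algebra ℂ B]

/-- values on generators. -/
def genVal (E F K : ℕ → B) : Gen → B
  | Gen.E i => E i
  | Gen.F i => F i
  | Gen.K i => K i

theorem lift_fE (E F K : ℕ → B) (i : ℕ) : FreeAlgebra.lift ℂ (genVal E F K) (fE i) = E i := by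
  simp [fE, genVal]
theorem lift_fF (E F K : ℕ → B) (i : ℕ) : FreeAlgebra.lift ℂ (genVal E F K) (fF i) = F i := by
  simp [fF, genVal]
theorem lift_fK (E F K : ℕ → B) (i : ℕ) : FreeAlgebra.lift ℂ (genVal E F K) (fK i) = K i := by
  simp [fK, genVal]

theorem lift_rel {E F K : ℕ → B} (h : GlRel N l q E F K) ⦃x y : FreeAlgebra ℂ Gen⦄
    (r : GRel N l q x y) :
    FreeAlgebra.lift ℂ (genVal E F K) x = FreeAlgebra.lift ℂ (genVal E F K) y := by
  have hE : (fun k => FreeAlgebra.lift ℂ (genVal E F K) (fE k)) = E := by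
    funext k; exact lift_fE E F K k
  have hF : (fun k => FreeAlgebra.lift ℂ (genVal E F K) (fF k)) = F := by
    funext k; exact lift_fF E F K k
  cases r with
  | E_out i hi => simpa [lift_fE] using h.E_out i hi
  | F_out i hi => simpa [lift_fF] using h.F_out i hi
  | K_out i hi => simpa [lift_fK] using h.K_out i hi
  | K_comm i j => simpa [lift_fK] using h.K_comm i j
  | K_pow j => simpa [lift_fK] using h.K_pow j
  | KE j i => simpa only [map_mul, map_smul, lift_fK, lift_fE] using h.KE j i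
  | KF j i => simpa only [map_mul, map_smul, lift_fK, lift_fF] using h.KF j i
  | EF i hi => simpa only [map_mul, map_smul, map_sub, map_pow, lift_fK, lift_fE, lift_fF]
      using h.EF i hi
  | EF_ne i j hij => simpa only [map_mul, lift_fE, lift_fF] using h.EF_ne i j hij
  | farE i j hij => simpa only [map_mul, lift_fE] using h.sE.far i j hij
  | s1E i => simpa only [map_mul, map_smul, map_sub, map_add, map_pow, map_zero, lift_fE]
      using h.sE.s1 i
  | s2E i => simpa only [map_mul, map_smul, map_sub, map_add, map_pow, map_zero, lift_fE]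
      using h.sE.s2 i
  | farF i j hij => simpa only [map_mul, lift_fF] using h.sF.far i j hij
  | s1F i => simpa only [map_mul, map_smul, map_sub, map_add, map_pow, map_zero, lift_fF]
      using h.sF.s1 i
  | s2F i => simpa only [map_mul, map_smul, map_sub, map_add, map_pow, map_zero, lift_fF]
      using h.sF.s2 i
  | pE d i => rw [map_pow, map_zero, ← rvA_map, hE]; exact h.pE d i
  | pF d i => rw [map_pow, map_zero, ← rvA_map, hF]; exact h.pF d i

/-- universal property of `A N l q`. -/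
def liftA {E F K : ℕ → B} (h : GlRel N l q E F K) : A N l q →ₐ[ℂ] B :=
  RingQuot.liftAlgHom ℂ ⟨FreeAlgebra.lift ℂ (genVal E F K), fun _ _ r => lift_rel h r⟩

theorem liftA_mk {E F K : ℕ → B} (h : GlRel N l q E F K) (x : FreeAlgebra ℂ Gen) :
    liftA h (mkA N l q x) = FreeAlgebra.lift ℂ (genVal E F K) x :=
  RingQuot.liftAlgHom_mkAlgHom_apply ℂ _ _ x

@[simp] theorem liftA_E {E F K : ℕ → B} (h : GlRel N l q E F K) (i : ℕ) :
    liftA h (gE N l q i) = E i := by rw [gE, liftA_mk, lift_fE]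
@[simp] theorem liftA_F {E F K : ℕ → B} (h : GlRel N l q E F K) (i : ℕ) :
    liftA h (gF N l q i) = F i := by rw [gF, liftA_mk, lift_fF]
@[simp] theorem liftA_K {E F K : ℕ → B} (h : GlRel N l q E F K) (i : ℕ) :
    liftA h (gK N l q i) = K i := by rw [gK, liftA_mk, lift_fK]

theorem mkA_surj : Function.Surjective (mkA N l q) := RingQuot.mkAlgHom_surjective ℂ (GRel N l q)

/-- induction principle on `A N l q`. -/
theorem A_induction {P : A N l q → Prop} (hc : ∀ c : ℂ, P (algebraMap ℂ (A N l q) c))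
    (hE : ∀ i, P (gE N l q i)) (hF : ∀ i, P (gF N l q i)) (hK : ∀ i, P (gK N l q i))
    (hadd : ∀ a b, P a → P b → P (a + b)) (hmul : ∀ a b, P a → P b → P (a * b))
    (a : A N l q) : P a := by
  obtain ⟨x, rfl⟩ := mkA_surj (N := N) (l := l) (q := q) a
  induction x using FreeAlgebra.induction with
  | grade0 r => simpa using hc r
  | grade1 g =>
    cases g with
    | E i => exact hE i
    | F i => exact hF i
    | K i => exact hK i
  | mul a b ha hb => rw [map_mul]; exact hmul _ _ ha hb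
  | add a b ha hb => rw [map_add]; exact hadd _ _ ha hb

/-- two algebra maps from `A N l q` that agree on generators are equal. -/
theorem A_hom_ext {f g : A N l q →ₐ[ℂ] B} (hE : ∀ i, f (gE N l q i) = g (gE N l q i))
    (hF : ∀ i, f (gF N l q i) = g (gF N l q i)) (hK : ∀ i, f (gK N l q i) = g (gK N l q i)) :
    f = g := by
  refine AlgHom.ext fun a => ?_
  refine A_induction (P := fun a => f a = g a) (fun c => by simp) hE hF hK
    (fun a b ha hb => by simp [ha, hb]) (fun a b ha hb => by simp [ha, hb]) a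

end Lift

/-! ### torus automorphisms -/

section Torus

variable {B : Type*} [Ring B] [Algebra ℂ B]

theorem rvA_scale (q : ℂ) (s : ℕ → ℂˣ) (E : ℕ → B) (d i : ℕ) :
    rvA q (fun k => ((s k : ℂ) * (s (k + 1) : ℂ)⁻¹) • E k) d i
      = ((s i : ℂ) * (s (i + d + 1) : ℂ)⁻¹) • rvA q E d i := by
  induction d generalizing i with
  | zero => simp [rvA]
  | succ d ih =>
    simp only [rvA, ih]
    have h1 : (s (i + 1) : ℂ) ≠ 0 := (s (i + 1)).ne_zero
    have e : i + 1 + d + 1 = i + (d + 1) + 1 := by ring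
    rw [e]
    generalize (s (i + (d + 1) + 1) : ℂ)⁻¹ = w
    generalize rvA q E d (i + 1) = R
    have k1 : (s i : ℂ) * (s (i + 1) : ℂ)⁻¹ * ((s (i + 1) : ℂ) * w) = (s i : ℂ) * w := by
      field_simp
    have k2 : (s (i + 1) : ℂ) * w * ((s i : ℂ) * (s (i + 1) : ℂ)⁻¹) = (s i : ℂ) * w := by
      field_simp
    rw [smul_mul_smul_comm, smul_mul_smul_comm, k1, k2, smul_sub, smul_comm q⁻¹]

theorem SerreRel.scale {q : ℂ} {E : ℕ → B} (h : SerreRel q E) (c : ℕ → ℂ) :
    SerreRel q (fun k => c k • E k) where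
  far i j hij := by simp only [smul_mul_smul_comm, h.far i j hij, mul_comm]
  s1 i := by
    have h1 := h.s1 i
    simp only [smul_pow, smul_mul_smul_comm, smul_smul]
    generalize E i ^ 2 * E (i + 1) = X at *
    generalize E i * E (i + 1) * E i = Y at *
    generalize E (i + 1) * E i ^ 2 = Z at *
    linear_combination (norm := module) (c i ^ 2 * c (i + 1)) • h1
  s2 i := by
    have h1 := h.s2 i
    simp only [smul_pow, smul_mul_smul_comm, smul_smul]
    generalize E (i + 1) ^ 2 * E i = X at *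
    generalize E (i + 1) * E i * E (i + 1) = Y at *
    generalize E i * E (i + 1) ^ 2 = Z at *
    linear_combination (norm := module) (c (i + 1) ^ 2 * c i) • h1

theorem GlRel.scale {E F K : ℕ → B} (h : GlRel N l q E F K) (hl : l ≠ 0) (s : ℕ → ℂˣ) :
    GlRel N l q (fun k => ((s k : ℂ) * (s (k + 1) : ℂ)⁻¹) • E k)
      (fun k => (((s⁻¹) k : ℂˣ) : ℂ) • ((((s⁻¹) (k + 1) : ℂˣ) : ℂ)⁻¹ • F k)) K where
  E_out i hi := by simp [h.E_out i hi]
  F_out i hi := by simp [h.F_out i hi]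
  K_out := h.K_out
  K_comm := h.K_comm
  K_pow := h.K_pow
  KE j i := by
    simp only [mul_smul_comm, smul_mul_assoc, h.KE j i, smul_smul]
    congr 1; ring
  KF j i := by
    simp only [mul_smul_comm, smul_mul_assoc, h.KF j i, smul_smul]
    congr 1; ring
  EF i hi := by
    have h0 : (s i : ℂ) ≠ 0 := (s i).ne_zero
    have h1 : (s (i + 1) : ℂ) ≠ 0 := (s (i + 1)).ne_zero
    rw [← h.EF i hi]
    simp only [smul_smul, smul_mul_smul_comm, Pi.inv_apply, Units.val_inv_eq_inv_val, inv_inv]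
    rw [show (s i : ℂ) * (s (i + 1) : ℂ)⁻¹ * ((s i : ℂ)⁻¹ * (s (i + 1) : ℂ)) = 1 by field_simp,
      show (s i : ℂ)⁻¹ * (s (i + 1) : ℂ) * ((s i : ℂ) * (s (i + 1) : ℂ)⁻¹) = 1 by field_simp,
      one_smul, one_smul]
  EF_ne i j hij := by
    simp only [smul_smul, smul_mul_smul_comm, h.EF_ne i j hij]
    congr 1; ring
  sE := h.sE.scale _
  sF := by
    have := h.sF.scale (fun k => (((s⁻¹) k : ℂˣ) : ℂ) * (((s⁻¹) (k + 1) : ℂˣ) : ℂ)⁻¹)
    simpa only [smul_smul] using this
  pE d i := by rw [rvA_scale, smul_pow, h.pE, smul_zero]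
  pF d i := by
    have e := rvA_scale q (s⁻¹) F d i
    simp only [smul_smul]
    rw [e, smul_pow, h.pF, smul_zero]

end Torus

/-- `tor s : E_i ↦ s_i s_{i+1}⁻¹ E_i`, `F_i ↦ s_i⁻¹ s_{i+1} F_i`, `K_j ↦ K_j`. -/
def tor (N l : ℕ) (q : ℂ) (hl : l ≠ 0) (s : ℕ → ℂˣ) : A N l q →ₐ[ℂ] A N l q :=
  liftA ((glA N l q).scale hl s)

theorem tor_E (hl : l ≠ 0) (s : ℕ → ℂˣ) (i : ℕ) :
    tor N l q hl s (gE N l q i) = ((s i : ℂ) * (s (i + 1) : ℂ)⁻¹) • gE N l q i := by
  rw [tor, liftA_E]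

theorem tor_F (hl : l ≠ 0) (s : ℕ → ℂˣ) (i : ℕ) :
    tor N l q hl s (gF N l q i) = ((s i : ℂ)⁻¹ * (s (i + 1) : ℂ)) • gF N l q i := by
  rw [tor, liftA_F]; simp [smul_smul]

theorem tor_K (hl : l ≠ 0) (s : ℕ → ℂˣ) (i : ℕ) :
    tor N l q hl s (gK N l q i) = gK N l q i := by
  rw [tor, liftA_K]

/-! ### The two comodule maps and the operators `L`, `Y`, `X` -/

/-- square matrices of size `n = N + 1`. -/
abbrev Mat (N : ℕ) (R : Type*) := Matrix (Fin (N + 1)) (Fin (N + 1)) R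

section Mats

variable {B : Type*} [Ring B] [Algebra ℂ B]

/-- the inverse of `K_j`. -/
def ki (l : ℕ) (K : ℕ → B) (j : ℕ) : B := K j ^ (l - 1)

/-- `V (x) -` on `E_k`: `e_{k,k+1} + diag(q^{pr(s,k)}) E_k`. -/
def dE (N : ℕ) (q : ℂ) (E : ℕ → B) (k : ℕ) : Mat N B := Matrix.of fun a b =>
  (if a = b then q ^ pr a k • E k else 0) + (if (a : ℕ) = k ∧ (b : ℕ) = k + 1 then 1 else 0)

/-- `V (x) -` on `F_k`: `e_{k+1,k} K_{k+1} K_k⁻¹ + F_k`. -/
def dF (N l : ℕ) (F K : ℕ → B) (k : ℕ) : Mat N B := Matrix.of fun a b =>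
  (if a = b then F k else 0)
    + (if (a : ℕ) = k + 1 ∧ (b : ℕ) = k then K (k + 1) * ki l K k else 0)

/-- `V (x) -` on `K_j`. -/
def dK (N : ℕ) (q : ℂ) (K : ℕ → B) (j : ℕ) : Mat N B := Matrix.of fun a b =>
  if a = b then (if (a : ℕ) = j then q else 1) • K j else 0

/-- `V* (x) -` on `E_k`: `-q e_{k+1,k} + diag(q^{-pr(s,k)}) E_k`. -/
def eE (N : ℕ) (q : ℂ) (E : ℕ → B) (k : ℕ) : Mat N B := Matrix.of fun a b =>
  (if a = b then q ^ (-pr a k) • E k else 0)
    + (if (a : ℕ) = k + 1 ∧ (b : ℕ) = k then (-q) • (1 : B) else 0)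

/-- `V* (x) -` on `F_k`: `-q⁻¹ e_{k,k+1} K_{k+1} K_k⁻¹ + F_k`. -/
def eF (N l : ℕ) (q : ℂ) (F K : ℕ → B) (k : ℕ) : Mat N B := Matrix.of fun a b =>
  (if a = b then F k else 0)
    + (if (a : ℕ) = k ∧ (b : ℕ) = k + 1 then (-q⁻¹) • (K (k + 1) * ki l K k) else 0)

/-- `V* (x) -` on `K_j`. -/
def eK (N : ℕ) (q : ℂ) (K : ℕ → B) (j : ℕ) : Mat N B := Matrix.of fun a b =>
  if a = b then (if (a : ℕ) = j then q⁻¹ else 1) • K j else 0

/-- opposite coproduct on `E_k`: `e_{k,k+1} K_k K_{k+1}⁻¹ + E_k`. -/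
def oE (N l : ℕ) (E K : ℕ → B) (k : ℕ) : Mat N B := Matrix.of fun a b =>
  (if a = b then E k else 0)
    + (if (a : ℕ) = k ∧ (b : ℕ) = k + 1 then K k * ki l K (k + 1) else 0)

/-- opposite coproduct on `F_k`: `e_{k+1,k} + diag(q^{-pr(s,k)}) F_k`. -/
def oF (N : ℕ) (q : ℂ) (F : ℕ → B) (k : ℕ) : Mat N B := Matrix.of fun a b =>
  (if a = b then q ^ (-pr a k) • F k else 0) + (if (a : ℕ) = k + 1 ∧ (b : ℕ) = k then 1 else 0)

/-- entries of `L`. -/
def Lent (q : ℂ) (E K : ℕ → B) (a b : ℕ) : B :=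
  if a = b then K a else if b < a then (1 - q⁻¹ ^ 2) • (rv q E b a * K a) else 0

/-- entries of `Y`. -/
def Yent (q : ℂ) (F K : ℕ → B) (a b : ℕ) : B :=
  if a = b then K a else if a < b then (q - q⁻¹) • (K a * rvo q F a b) else 0

def Lmat (N : ℕ) (q : ℂ) (E K : ℕ → B) : Mat N B := Matrix.of fun a b => Lent q E K a b
def Ymat (N : ℕ) (q : ℂ) (F K : ℕ → B) : Mat N B := Matrix.of fun a b => Yent q F K a b

end Mats

/-- A pair `(delta, eps)` of the algebra maps of section 4. -/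
structure Dl (N l : ℕ) (q : ℂ) where
  dl : A N l q →ₐ[ℂ] Mat N (A N l q)
  ep : A N l q →ₐ[ℂ] Mat N (A N l q)
  dl_E : ∀ i, dl (gE N l q i) = dE N q (gE N l q) i
  dl_F : ∀ i, dl (gF N l q i) = dF N l (gF N l q) (gK N l q) i
  dl_K : ∀ i, dl (gK N l q i) = dK N q (gK N l q) i
  ep_E : ∀ i, ep (gE N l q i) = eE N q (gE N l q) i
  ep_F : ∀ i, ep (gF N l q i) = eF N l q (gF N l q) (gK N l q) i
  ep_K : ∀ i, ep (gK N l q i) = eK N q (gK N l q) i

/-- the operator `X = Y L`. -/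
def Xm (N l : ℕ) (q : ℂ) : Mat N (A N l q) :=
  Ymat N q (gF N l q) (gK N l q) * Lmat N q (gE N l q) (gK N l q)

end

end Pool.Agent.Helper19.SQ
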