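import Pool.Agent.Helper19.SQ.Defs
import Pool.Agent.Helper19.SQ.Core

/-!
Project SQ (MP_bb32d1_al), helper19.  Monomials, modules `V (x) M`, singular vectors, `Z(lambda)`.
-/

namespace Pool.Agent.Helper19.SQ

noncomputable section

/-! ### monomials in root vectors -/

section Mon

variable {B : Type*} [Ring B] [Algebra ℂ B]

/-- `R_i(b) = prod_{j = i+1..N} E_ij ^ b_ij`. -/
def rowM (N : ℕ) (q : ℂ) (E : ℕ → B) (b : ℕ → ℕ → ℕ) (i : ℕ) : B :=
  ((List.range (N - i)).map fun d => rv q E i (i + 1 + d) ^ b i (i + 1 + d)).prod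

/-- `E^b = R_0(b) ... R_{N-1}(b)`. -/
def mon (N : ℕ) (q : ℂ) (E : ℕ → B) (b : ℕ → ℕ → ℕ) : B :=
  ((List.range N).map fun i => rowM N q E b i).prod

/-- `C_j(b) = prod_{i = 0..j-1} E_ij ^ b_ij`. -/
def colM (q : ℂ) (E : ℕ → B) (b : ℕ → ℕ → ℕ) (j : ℕ) : B :=
  ((List.range j).map fun i => rv q E i j ^ b i j).prod

/-- The relations R2 ... R11 between root vectors (section 2). -/
structure RootRel (q : ℂ) (E : ℕ → B) : Prop where
  rec' : ∀ i j, i + 1 < j → rv q E i j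
    = E i * rv q E (i + 1) j - q⁻¹ • (rv q E (i + 1) j * E i)
  base : ∀ i, rv q E i (i + 1) = E i
  R2 : ∀ k i j, i < j → (k + 1 < i ∨ j < k) → E k * rv q E i j = rv q E i j * E k
  R3 : ∀ i j, i < j → rv q E i (j + 1) = rv q E i j * E j - q⁻¹ • (E j * rv q E i j)
  R4 : ∀ i j, i + 1 < j → E i * rv q E i j = q • (rv q E i j * E i)
  R5 : ∀ i j, i < j → rv q E i (j + 1) * E j = q • (E j * rv q E i (j + 1))
  R6 : ∀ i k j, i < k → k + 1 < j → E k * rv q E i j = rv q E i j * E k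
  R8 : ∀ i j k l, i < k → k < l → l < j → rv q E i j * rv q E k l = rv q E k l * rv q E i j
  R9 : ∀ i j k l, i < j → j < k → k < l → rv q E i j * rv q E k l = rv q E k l * rv q E i j
  R10 : ∀ i j k, i < j → j < k → rv q E i j * rv q E i k = q • (rv q E i k * rv q E i j)
  R11 : ∀ i j k, i < j → j < k → rv q E i k * rv q E j k = q • (rv q E j k * rv q E i k)

/-- admissible exponents. -/
def IsEx (N l : ℕ) (b : ℕ → ℕ → ℕ) : Prop :=
  ∀ i j, (i < j ∧ j ≤ N → b i j < l) ∧ (¬ (i < j ∧ j ≤ N) → b i j = 0)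

/-- the finite set of admissible exponents. -/
abbrev EX (N l : ℕ) : Type := {b : ℕ → ℕ → ℕ // IsEx N l b}

instance (N l : ℕ) : Finite (EX N l) := by
  let f : EX N l → (Fin (N + 1) × Fin (N + 1) → Fin (l + 1)) := fun b p =>
    ⟨b.1 p.1 p.2, by
      by_cases h : (p.1 : ℕ) < p.2 ∧ (p.2 : ℕ) ≤ N
      · exact (b.2 _ _).1 h |>.trans (Nat.lt_succ_self l)
      · rw [(b.2 _ _).2 h]; omega⟩
  refine Finite.of_injective f fun b b' h => ?_
  apply Subtype.ext
  funext i j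
  by_cases hij : i < j ∧ j ≤ N
  · have := congrFun h (⟨i, by omega⟩, ⟨j, by omega⟩)
    simpa [f] using this
  · rw [(b.2 i j).2 hij, (b'.2 i j).2 hij]

instance (N l : ℕ) : Fintype (EX N l) := Fintype.ofFinite _

/-- height. -/
def ht (N : ℕ) (b : ℕ → ℕ → ℕ) : ℕ :=
  ∑ i ∈ Finset.range (N + 1), ∑ j ∈ Finset.range (N + 1), b i j * (j - i)

/-- the top exponent: all `b_ij = l - 1`. -/
def topE (N l : ℕ) : ℕ → ℕ → ℕ := fun i j => if i < j ∧ j ≤ N then l - 1 else 0

/-- change of one exponent. -/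
def upd (b : ℕ → ℕ → ℕ) (i j c : ℕ) : ℕ → ℕ → ℕ := fun i' j' =>
  if i' = i ∧ j' = j then c else b i' j'

/-- `b + (i,j)`. -/
def inc (b : ℕ → ℕ → ℕ) (i j : ℕ) : ℕ → ℕ → ℕ := upd b i j (b i j + 1)

/-- `b - (i,k) + (i,k+1)`. -/
def mvr (b : ℕ → ℕ → ℕ) (i k : ℕ) : ℕ → ℕ → ℕ := inc (upd b i k (b i k - 1)) i (k + 1)

/-- `b - (k+1,j) + (k,j)`. -/
def mvc (b : ℕ → ℕ → ℕ) (k j : ℕ) : ℕ → ℕ → ℕ := inc (upd b (k + 1) j (b (k + 1) j - 1)) k j

/-- quantum integer. -/
def qn (q : ℂ) (c : ℕ) : ℂ := (q ^ c - q⁻¹ ^ c) / (q - q⁻¹)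

def wL (q : ℂ) (b : ℕ → ℕ → ℕ) (k i : ℕ) : ℂ :=
  ∏ i' ∈ Finset.range i, q ^ ((b i' k : ℤ) - (b i' (k + 1) : ℤ))

def wR (N : ℕ) (q : ℂ) (b : ℕ → ℕ → ℕ) (k j : ℕ) : ℂ :=
  ∏ j' ∈ Finset.Ioc j N, q ^ ((b (k + 1) j' : ℤ) - (b k j' : ℤ))

end Mon

/-! ### modules -/

section Mod

variable {N l : ℕ} {q : ℂ}

/-- action of `a` on a module as a `ℂ`-linear map. -/
def lsm {M : Type} [AddCommGroup M] [Module ℂ M] [Module (A N l q) M]
    [IsScalarTower ℂ (A N l q) M] (a : A N l q) : M →ₗ[ℂ] M where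
  toFun m := a • m
  map_add' := smul_add a
  map_smul' c m := by
    change a • (c • m) = c • (a • m)
    have h1 : c • m = (algebraMap ℂ (A N l q) c) • m := by
      rw [Algebra.algebraMap_eq_smul_one, smul_assoc, one_smul]
    have h2 : c • (a • m) = (algebraMap ℂ (A N l q) c) • (a • m) := by
      rw [Algebra.algebraMap_eq_smul_one, smul_assoc, one_smul]
    rw [h1, h2, smul_smul, smul_smul, Algebra.commutes]

@[simp] theorem lsm_apply {M : Type} [AddCommGroup M] [Module ℂ M] [Module (A N l q) M]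
    [IsScalarTower ℂ (A N l q) M] (a : A N l q) (m : M) : lsm a m = a • m := rfl

/-- the character `chi_M`. -/
def chi (M : Type) [AddCommGroup M] [Module ℂ M] [Module (A N l q) M]
    [IsScalarTower ℂ (A N l q) M] (a : A N l q) : ℂ := LinearMap.trace ℂ M (lsm a)

/-- `V (x) M` (for `H = delta`) or `V* (x) M` (for `H = eps`): columns with entries in `M`, the
algebra acting through the matrix `H a`. -/
def Ten (_H : A N l q →ₐ[ℂ] Mat N (A N l q)) (M : Type) : Type := Fin (N + 1) → M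

variable (H : A N l q →ₐ[ℂ] Mat N (A N l q)) (M : Type) [AddCommGroup M] [Module ℂ M]
  [Module (A N l q) M] [IsScalarTower ℂ (A N l q) M]

instance : AddCommGroup (Ten H M) := inferInstanceAs (AddCommGroup (Fin (N + 1) → M))
instance : Module ℂ (Ten H M) := inferInstanceAs (Module ℂ (Fin (N + 1) → M))
instance [FiniteDimensional ℂ M] : FiniteDimensional ℂ (Ten H M) :=
  inferInstanceAs (FiniteDimensional ℂ (Fin (N + 1) → M))

/-- the action of a matrix on columns. -/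
def actM {H : A N l q →ₐ[ℂ] Mat N (A N l q)} {M : Type} [AddCommGroup M] [Module ℂ M]
    [Module (A N l q) M] [IsScalarTower ℂ (A N l q) M] (Y : Mat N (A N l q)) :
    Ten H M →ₗ[ℂ] Ten H M where
  toFun f := fun i => ∑ j, Y i j • f j
  map_add' f g := by
    funext i
    change ∑ j, Y i j • (f j + g j) = ∑ j, Y i j • f j + ∑ j, Y i j • g j
    simp [smul_add, Finset.sum_add_distrib]
  map_smul' c f := by
    funext i
    change ∑ j, Y i j • (c • f j) = c • ∑ j, Y i j • f j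
    rw [Finset.smul_sum]
    exact Finset.sum_congr rfl fun j _ => (lsm (Y i j)).map_smul c (f j)

theorem actM_apply {H : A N l q →ₐ[ℂ] Mat N (A N l q)} {M : Type} [AddCommGroup M] [Module ℂ M]
    [Module (A N l q) M] [IsScalarTower ℂ (A N l q) M] (Y : Mat N (A N l q)) (f : Ten H M)
    (i : Fin (N + 1)) : actM Y f i = ∑ j, Y i j • f j := rfl

theorem actM_mul {H : A N l q →ₐ[ℂ] Mat N (A N l q)} {M : Type} [AddCommGroup M] [Module ℂ M]
    [Module (A N l q) M] [IsScalarTower ℂ (A N l q) M] (Y Z : Mat N (A N l q)) (f : Ten H M) :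
    actM (Y * Z) f = actM Y (actM Z f) := by
  funext i
  simp only [actM_apply, Matrix.mul_apply, Finset.sum_smul, Finset.smul_sum, mul_smul]
  exact Finset.sum_comm

theorem actM_one {H : A N l q →ₐ[ℂ] Mat N (A N l q)} {M : Type} [AddCommGroup M] [Module ℂ M]
    [Module (A N l q) M] [IsScalarTower ℂ (A N l q) M] (f : Ten H M) :
    actM (1 : Mat N (A N l q)) f = f := by
  funext i
  simp [actM_apply, Matrix.one_apply]

instance : SMul (A N l q) (Ten H M) := ⟨fun a f => actM (H a) f⟩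

theorem Ten.smul_def {H : A N l q →ₐ[ℂ] Mat N (A N l q)} {M : Type} [AddCommGroup M]
    [Module ℂ M] [Module (A N l q) M] [IsScalarTower ℂ (A N l q) M] (a : A N l q)
    (f : Ten H M) : a • f = actM (H a) f := rfl

theorem Ten.smul_apply {H : A N l q →ₐ[ℂ] Mat N (A N l q)} {M : Type} [AddCommGroup M]
    [Module ℂ M] [Module (A N l q) M] [IsScalarTower ℂ (A N l q) M] (a : A N l q)
    (f : Ten H M) (i : Fin (N + 1)) : (a • f) i = ∑ j, H a i j • f j := rfl

instance : Module (A N l q) (Ten H M) where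
  one_smul f := by rw [Ten.smul_def, map_one, actM_one]
  mul_smul a b f := by simp only [Ten.smul_def, map_mul, actM_mul]
  smul_zero a := map_zero _
  smul_add a := map_add _
  add_smul a b f := by
    funext i
    change ∑ j, H (a + b) i j • f j = ∑ j, H a i j • f j + ∑ j, H b i j • f j
    simp [map_add, add_smul, Finset.sum_add_distrib]
  zero_smul f := by
    funext i
    change ∑ j, H 0 i j • f j = 0
    simp

instance : IsScalarTower ℂ (A N l q) (Ten H M) where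
  smul_assoc c a f := by
    funext i
    change ∑ j, H (c • a) i j • f j = c • ∑ j, H a i j • f j
    simp [map_smul, Finset.smul_sum, smul_assoc]

/-- `v_j (x) m` (resp. `phi_j (x) m`). -/
def tv {M : Type} [AddCommGroup M] (H : A N l q →ₐ[ℂ] Mat N (A N l q)) (j : Fin (N + 1)) (m : M) :
    Ten H M := fun i => if i = j then m else 0

/-- a matrix commuting with `H` acts `A`-linearly. -/
def actMA {H : A N l q →ₐ[ℂ] Mat N (A N l q)} {M : Type} [AddCommGroup M] [Module ℂ M]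
    [Module (A N l q) M] [IsScalarTower ℂ (A N l q) M] (Y : Mat N (A N l q))
    (hY : ∀ a, Y * H a = H a * Y) : Ten H M →ₗ[A N l q] Ten H M where
  toFun := actM Y
  map_add' := map_add _
  map_smul' a f := by
    simp only [Ten.smul_def, ← actM_mul, hY, RingHom.id_apply]

/-- `q^c` for `c` in `Z/l`. -/
def qz (q : ℂ) {l : ℕ} (c : ZMod l) : ℂ := q ^ c.val

/-- `m` is killed by all `E_i` and is a weight vector of weight `lam`. -/
def Sing (q : ℂ) {M : Type} [AddCommGroup M] [Module ℂ M] [Module (A N l q) M]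
    (lam : Fin (N + 1) → ZMod l) (m : M) : Prop :=
  (∀ i, gE N l q i • m = 0) ∧ ∀ j : Fin (N + 1), gK N l q j • m = qz q (lam j) • m

/-- `x_j = lam_j - j`. -/
def xl (lam : Fin (N + 1) → ZMod l) (j : Fin (N + 1)) : ZMod l := lam j - ((j : ℕ) : ZMod l)

/-- the type of a weight. -/
def ty (lam : Fin (N + 1) → ZMod l) : ZMod l → ℤ := fun c =>
  ((Finset.univ.filter fun j => xl lam j = c).card : ℤ)

/-- the left ideal defining `Z(lam)`. -/
def Jl (q : ℂ) (lam : Fin (N + 1) → ZMod l) : Submodule (A N l q) (A N l q) :=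
  Submodule.span (A N l q) (Set.range (gE N l q) ∪
    Set.range fun j : Fin (N + 1) => gK N l q j - algebraMap ℂ (A N l q) (qz q (lam j)))

/-- the universal highest weight module. -/
def Zl (q : ℂ) (lam : Fin (N + 1) → ZMod l) : Type := A N l q ⧸ Jl q lam

instance (lam : Fin (N + 1) → ZMod l) : AddCommGroup (Zl q lam) :=
  inferInstanceAs (AddCommGroup (A N l q ⧸ Jl q lam))
instance (lam : Fin (N + 1) → ZMod l) : Module (A N l q) (Zl q lam) :=
  inferInstanceAs (Module (A N l q) (A N l q ⧸ Jl q lam))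
instance (lam : Fin (N + 1) → ZMod l) : Module ℂ (Zl q lam) :=
  inferInstanceAs (Module ℂ (A N l q ⧸ Jl q lam))
instance (lam : Fin (N + 1) → ZMod l) : IsScalarTower ℂ (A N l q) (Zl q lam) :=
  inferInstanceAs (IsScalarTower ℂ (A N l q) (A N l q ⧸ Jl q lam))

/-- the generator of `Z(lam)`. -/
def zgen (q : ℂ) (lam : Fin (N + 1) → ZMod l) : Zl q lam := Submodule.Quotient.mk 1

/-- `d_lam`. -/
def dZ (q : ℂ) (lam : Fin (N + 1) → ZMod l) : ℕ := Module.finrank ℂ (Zl q lam)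

/-- `lam + eps_j`. -/
def addE (lam : Fin (N + 1) → ZMod l) (j : Fin (N + 1)) : Fin (N + 1) → ZMod l :=
  fun i => lam i + if i = j then 1 else 0

/-- `lam - eps_j`. -/
def subE (lam : Fin (N + 1) → ZMod l) (j : Fin (N + 1)) : Fin (N + 1) → ZMod l :=
  fun i => lam i - if i = j then 1 else 0

/-- `U_j = span_A {v_i (x) m : i < j}`. -/
def Ulow {M : Type} [AddCommGroup M] [Module ℂ M] [Module (A N l q) M]
    [IsScalarTower ℂ (A N l q) M] (H : A N l q →ₐ[ℂ] Mat N (A N l q)) (m : M)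
    (j : Fin (N + 1)) : Submodule (A N l q) (Ten H M) :=
  Submodule.span (A N l q) {f | ∃ i, i < j ∧ f = tv H i m}

/-- `U*_j = span_A {phi_i (x) m : i > j}`. -/
def Uhigh {M : Type} [AddCommGroup M] [Module ℂ M] [Module (A N l q) M]
    [IsScalarTower ℂ (A N l q) M] (H : A N l q →ₐ[ℂ] Mat N (A N l q)) (m : M)
    (j : Fin (N + 1)) : Submodule (A N l q) (Ten H M) :=
  Submodule.span (A N l q) {f | ∃ i, j < i ∧ f = tv H i m}

/-! ### the matrices `S`, `T` and the vectors `u`, `v` of section 5 -/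

/-- rows `(p,j)` = `v_p (x) phi_j`, columns `(i,k)` = `phi_i (x) v_k`. -/
def Smat (N : ℕ) (q : ℂ) :
    Matrix (Fin (N + 1) × Fin (N + 1)) (Fin (N + 1) × Fin (N + 1)) ℂ := Matrix.of fun x y =>
  if y.1 = y.2 then
    (if x.1 = x.2 then (if x.1 = y.1 then q else if y.1 < x.1 then
      (q - q⁻¹) * q ^ (2 * ((x.1 : ℕ) - (y.1 : ℕ))) else 0) else 0)
  else (if x.1 = y.2 ∧ x.2 = y.1 then 1 else 0)

/-- rows `(i,k)` = `phi_i (x) v_k`, columns `(p,j)` = `v_p (x) phi_j`. -/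
def Tmat (N : ℕ) (q : ℂ) :
    Matrix (Fin (N + 1) × Fin (N + 1)) (Fin (N + 1) × Fin (N + 1)) ℂ := Matrix.of fun x y =>
  if y.1 = y.2 then
    (if x.1 = x.2 then (if x.1 = y.1 then q⁻¹ else if y.1 < x.1 then -(q - q⁻¹) else 0) else 0)
  else (if x.1 = y.2 ∧ x.2 = y.1 then 1 else 0)

/-- `u = -(q - q⁻¹) sum_p q^{2p} v_p (x) phi_p`. -/
def uvec (N l : ℕ) (q : ℂ) : Fin (N + 1) × Fin (N + 1) → A N l q := fun x =>
  if x.1 = x.2 then (-(q - q⁻¹) * q ^ (2 * (x.1 : ℕ))) • 1 else 0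

/-- `cap (phi_i (x) v_k) = [i = k] q^{-2i}`. -/
def capv (N l : ℕ) (q : ℂ) : Fin (N + 1) × Fin (N + 1) → A N l q := fun x =>
  if x.1 = x.2 then (q⁻¹ ^ (2 * (x.1 : ℕ))) • 1 else 0

/-- `v = cap X1 T`. -/
def vvec (N l : ℕ) (q : ℂ) : Fin (N + 1) × Fin (N + 1) → A N l q :=
  Matrix.vecMul (capv N l q) (X1 (Xm N l q) * sc (A N l q) (Tmat N q))

/-- standing assumptions. -/
structure Par (N l : ℕ) (q : ℂ) : Prop where
  hN : 1 ≤ N
  odd : Odd l
  h3 : 3 ≤ l
  prim : IsPrimitiveRoot q l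

/-- `s^mu`. -/
def tw (N : ℕ) (s : ℕ → ℂˣ) (μ : Fin (N + 1) → ℤ) : ℂ := ∏ j : Fin (N + 1), (s j : ℂ) ^ μ j

/-- the part of the core structure that does not involve the blocks, for `u_q(gl_{N+1})`. -/
structure IsC0 (D : Dl N l q) (hl : l ≠ 0) (s : ℕ → ℂˣ)
    (C : Core0 (A N l q) (Fin (N + 1))) : Prop where
  δ : C.δ = D.dl
  ε : C.ε = D.ep
  X : C.X = Xm N l q
  S : C.S = Smat N q
  T : C.T = Tmat N q
  u : C.u = uvec N l q
  v : C.v = vvec N l q
  w : ∀ i : Fin (N + 1), C.w i = q⁻¹ ^ (2 * (i : ℕ))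
  φ : ∀ a, C.φ a = tor N l q hl s a
  θ : ∀ i : Fin (N + 1), C.θ i = s i

end Mod

end

end Pool.Agent.Helper19.SQ
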