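import Pool.Agent.Helper19.SQ.GoalsS
import Pool.Agent.Helper34.SQ.GoalsM

/-!
Project SQ (MP_bb32d1_al), helper19: section 13, the end of the proof, from the goals.
-/

namespace Pool.Agent.Helper19.SQ

noncomputable section

open Pool.Agent.Helper34.SQ

variable {N l : ℕ} [NeZero l] {q : ℂ}

/-- `ty lam = (N+1) delta_c` iff `lam_j = c + j` for all `j`. -/
theorem ty_eq_iff (c : ZMod l) (lam : Fin (N + 1) → ZMod l) :
    (Pool.Agent.Helper19.SQ.ty lam = fun x => if x = c then ((N : ℤ) + 1) else 0) ↔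
      ∀ j : Fin (N + 1), lam j = c + ((j : ℕ) : ZMod l) := by
  constructor
  · intro h j
    have h1 := congrFun h c
    simp only [Pool.Agent.Helper19.SQ.ty, if_true] at h1
    have h2 : (Finset.univ.filter fun j => xl lam j = c).card = N + 1 := by exact_mod_cast h1
    have h3 : (Finset.univ.filter fun j => xl lam j = c) = Finset.univ := by
      apply Finset.eq_univ_of_card
      rw [h2, Fintype.card_fin]
    have h4 : j ∈ (Finset.univ.filter fun j => xl lam j = c) := by rw [h3]; exact Finset.mem_univ j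
    have h5 : xl lam j = c := (Finset.mem_filter.1 h4).2
    rw [← h5, xl]; ring
  · intro h
    funext x
    have h1 : ∀ j, xl lam j = c := fun j => by rw [xl, h j]; ring
    simp only [Pool.Agent.Helper19.SQ.ty, h1]
    by_cases hx : x = c
    · subst hx; simp
    · simp [hx, Ne.symm hx]

theorem trz_of (hM : S_MAIN12) (hS : S_STT) (hl : l ≠ 0) (s : ℕ → ℂˣ) (D : Dl N l q)
    (C : Core (A N l q) (Fin (N + 1)) l) (hC : Sett N l q hl s D C) (ζ : ℂ) (hζ : ζ ≠ 1)
    (m : ZMod l → ℤ) : TrZero C ζ m := by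
  classical
  have hout : ∀ m, m ∉ C.types → TrZero C ζ m := by
    intro m hm τ hτ
    ext x
    rw [← hτ.blk, C.e_types m hm, mul_zero, map_zero]; rfl
  by_contra hcon
  have hmt : m ∈ C.types := by
    by_contra h; exact hcon (hout m h)
  let B := C.types.filter fun m => ¬ TrZero C ζ m
  have hB : B.Nonempty := ⟨m, Finset.mem_filter.2 ⟨hmt, hcon⟩⟩
  obtain ⟨m0, hm0, hmax⟩ := Finset.exists_max_image B (fun m => ∑ x, m x ^ 2) hB
  have hm0' := (Finset.mem_filter.1 hm0).2
  apply hm0'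
  intro τ hτ
  by_contra hne
  have hbig : ∀ m' : ZMod l → ℤ, ∑ x, m0 x ^ 2 < ∑ x, m' x ^ 2 → TrZero C ζ m' := by
    intro m' hm'
    by_contra h
    have hmem : m' ∈ B := by
      refine Finset.mem_filter.2 ⟨?_, h⟩
      by_contra h'
      exact h (hout m' h')
    have := hmax m' hmem
    omega
  obtain ⟨c, hc⟩ := hM N l q hl s D C hC ζ m0 hbig τ hτ hne
  apply hne
  refine hS N l q hl hC.par s c (C.e m0) (C.e_cen m0) (C.e_idem m0) ?_ ζ τ hζ hτ.tr ?_ hτ.blk
  · intro M _ _ _ _ _ lam v hv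
    have hev := hC.ev M lam m0 v hv
    constructor
    · intro h
      rw [hev, if_pos]
      rw [hc]; exact (ty_eq_iff c lam).2 h
    · intro h
      rw [hev, if_neg]
      rw [hc]; exact fun h' => h ((ty_eq_iff c lam).1 h')
  · intro x
    rw [← hC.c0.φ]; exact hτ.eq x

theorem central_hom (hM : S_MAIN12) (hS : S_STT) (hTF : S_TF) (hl : l ≠ 0) (s : ℕ → ℂˣ)
    (D : Dl N l q) (C : Core (A N l q) (Fin (N + 1)) l) (hC : Sett N l q hl s D C)
    (z : A N l q) (hz : ∀ a, z * a = a * z) (ζ : ℂ) (hζ : ζ ≠ 1)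
    (hzz : tor N l q hl s z = ζ • z) : z = 0 := by
  classical
  by_contra hne
  obtain ⟨t, ht1, ht2, ht3⟩ := hTF N l q hl D hC.par
  have hφ : ∀ a, C.φ a = tor N l q hl s a := hC.c0.φ
  have hζ0 : ζ ≠ 0 := by
    rintro rfl
    rw [zero_smul, ← hφ] at hzz
    exact hne (by simpa using congrArg C.φ.symm hzz)
  apply hne
  apply ht2
  intro y
  let τ : A N l q →ₗ[ℂ] ℂ := t ∘ₗ LinearMap.mulLeft ℂ z
  have hτ : ∀ x, τ x = t (z * x) := fun x => rfl
  have hsum : τ y = ∑ m ∈ C.types, τ (y * C.e m) := by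
    rw [← map_sum, ← Finset.mul_sum, C.e_sum, mul_one]
  have hzero : ∀ m, τ (y * C.e m) = 0 := by
    intro m
    let τm : A N l q →ₗ[ℂ] ℂ := τ ∘ₗ LinearMap.mulRight ℂ (C.e m)
    have hτm : ∀ x, τm x = t (z * (x * C.e m)) := fun x => rfl
    have hI : IsTrz C ζ⁻¹ m τm := by
      refine ⟨fun x y => ?_, fun x => ?_, fun x => ?_⟩
      · rw [hτm, hτm]
        have h1 : z * (x * y * C.e m) = (z * x) * (y * C.e m) := by simp only [mul_assoc]
        have h2 : z * (y * x * C.e m) = (y * C.e m) * (z * x) := by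
          rw [mul_assoc y (C.e m), C.e_cen m, mul_assoc z x, ← mul_assoc y z, ← hz y]
          simp only [mul_assoc]
        rw [h1, h2, ht1]
      · rw [hτm, hτm]
        have h1 : ζ • (z * (C.φ x * C.e m)) = tor N l q hl s (z * (x * C.e m)) := by
          rw [map_mul, map_mul, hzz, smul_mul_assoc, ← hφ x, ← hφ (C.e m), C.φe]
        have h2 := congrArg t h1
        rw [ht3, map_smul, smul_eq_mul] at h2
        rw [← h2, ← mul_assoc ζ⁻¹ ζ, inv_mul_cancel₀ hζ0, one_mul]
      · rw [hτm, hτm, mul_assoc x, C.e_idem]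
    have hz0 := trz_of hM hS hl s D C hC ζ⁻¹ (by
      intro h; exact hζ (by rw [← inv_inv ζ, h, inv_one])) m τm hI
    have : τm y = 0 := by rw [hz0]; rfl
    exact this
  rw [← hτ, hsum]
  exact Finset.sum_eq_zero fun m _ => hzero m

/-- the end of the proof. -/
theorem final_of (hM : S_MAIN12) (hS : S_STT) (hTF : S_TF) (hTRA : S_TRA) (hTWI : S_TWI)
    (hHOMG : S_HOMG) (hZDEG : S_ZDEG)
    (hSett : ∀ (N l : ℕ) [NeZero l] (q : ℂ) (hl : l ≠ 0) (s : ℕ → ℂˣ), Par N l q →
      Function.Injective (tw N s) → ∃ (D : Dl N l q) (C : Core (A N l q) (Fin (N + 1)) l),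
        Sett N l q hl s D C) : S_FINAL := by
  intro N l hN hodd h3 hcop q hq t z hz
  have hl : l ≠ 0 := by omega
  haveI : NeZero l := ⟨hl⟩
  have hpar : Par N l q := ⟨hN, hodd, h3, hq⟩
  obtain ⟨s, hs⟩ := hTWI N
  obtain ⟨D, C, hC⟩ := hSett N l q hl s hpar hs
  refine hTRA N l q hl hpar hcop ?_ t z hz
  intro w hw s'
  refine hHOMG N l q hl hpar s hs w ?_ s'
  refine hZDEG N l q hl hpar s ?_ w hw
  intro z' hz' ζ hζ hzz
  exact central_hom hM hS hTF hl s D C hC z' hz' ζ hζ hzz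

end

end Pool.Agent.Helper19.SQ
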