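import Pool.Agent.Helper19.SQ.Usl

/-!
Project SQ (MP_bb32d1_al), helper19: the small quantum group characterised by its universal
property.
-/

namespace Pool.Agent.Helper19.SQ

noncomputable section

/-- The algebra `U` with the elements `E i, F i, K i` is the small quantum group
`u_q(sl_{N+1})`: it is generated by these elements, they satisfy the defining relations `SlRel`,
and every family of elements of an algebra that satisfies the relations is the image of them
under a homomorphism. -/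
structure IsUq (N l : ℕ) (q : ℂ) (U : Type) [Ring U] [Algebra ℂ U] (E F K : Fin N → U) :
    Prop where
  rel : SlRel N l q E F K
  gen : Algebra.adjoin ℂ (Set.range E ∪ Set.range F ∪ Set.range K) = ⊤
  univ : ∀ (B : Type) [Ring B] [Algebra ℂ B] (E' F' K' : Fin N → B), SlRel N l q E' F' K' →
    ∃ φ : U →ₐ[ℂ] B, (∀ i, φ (E i) = E' i) ∧ (∀ i, φ (F i) = F' i) ∧ (∀ i, φ (K i) = K' i)

theorem isUq_Usl (N l : ℕ) (q : ℂ) :
    IsUq N l q (Usl N l q) (uE N l q) (uF N l q) (uK N l q) where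
  rel := slU N l q
  gen := by
    rw [eq_top_iff]
    intro x _
    refine U_induction (P := fun x => x ∈ Algebra.adjoin ℂ
      (Set.range (uE N l q) ∪ Set.range (uF N l q) ∪ Set.range (uK N l q))) ?_ ?_ ?_ ?_ ?_ ?_ x
    · intro c; exact Subalgebra.algebraMap_mem _ c
    · intro i; exact Algebra.subset_adjoin (Or.inl (Or.inl ⟨i, rfl⟩))
    · intro i; exact Algebra.subset_adjoin (Or.inl (Or.inr ⟨i, rfl⟩))
    · intro i; exact Algebra.subset_adjoin (Or.inr ⟨i, rfl⟩)
    · intro a b ha hb; exact Subalgebra.add_mem _ ha hb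
    · intro a b ha hb; exact Subalgebra.mul_mem _ ha hb
  univ := by
    intro B _ _ E' F' K' h
    exact ⟨liftU h, fun i => liftU_E h i, fun i => liftU_F h i, fun i => liftU_K h i⟩

theorem IsUq.hom_ext {N l : ℕ} {q : ℂ} {U : Type} [Ring U] [Algebra ℂ U] {E F K : Fin N → U}
    (h : IsUq N l q U E F K) {B : Type} [Ring B] [Algebra ℂ B] (f g : U →ₐ[ℂ] B)
    (hE : ∀ i, f (E i) = g (E i)) (hF : ∀ i, f (F i) = g (F i))
    (hK : ∀ i, f (K i) = g (K i)) : f = g := by
  refine AlgHom.ext_of_adjoin_eq_top h.gen ?_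
  rintro x ((⟨i, rfl⟩ | ⟨i, rfl⟩) | ⟨i, rfl⟩)
  · exact hE i
  · exact hF i
  · exact hK i

/-- the isomorphism with `Usl`. -/
theorem IsUq.exists_equiv {N l : ℕ} {q : ℂ} {U : Type} [Ring U] [Algebra ℂ U]
    {E F K : Fin N → U} (h : IsUq N l q U E F K) :
    ∃ e : U ≃ₐ[ℂ] Usl N l q, (∀ i, e (E i) = uE N l q i) ∧ (∀ i, e (F i) = uF N l q i) ∧
      (∀ i, e (K i) = uK N l q i) := by
  obtain ⟨f, f1, f2, f3⟩ := h.univ (Usl N l q) _ _ _ (slU N l q)
  refine ⟨AlgEquiv.ofAlgHom f (liftU h.rel) ?_ ?_, f1, f2, f3⟩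
  · refine (isUq_Usl N l q).hom_ext _ _ ?_ ?_ ?_
    · intro i
      rw [AlgHom.comp_apply, liftU_E, f1, AlgHom.id_apply]
    · intro i
      rw [AlgHom.comp_apply, liftU_F, f2, AlgHom.id_apply]
    · intro i
      rw [AlgHom.comp_apply, liftU_K, f3, AlgHom.id_apply]
  · refine h.hom_ext _ _ ?_ ?_ ?_
    · intro i
      rw [AlgHom.comp_apply, f1, liftU_E, AlgHom.id_apply]
    · intro i
      rw [AlgHom.comp_apply, f2, liftU_F, AlgHom.id_apply]
    · intro i
      rw [AlgHom.comp_apply, f3, liftU_K, AlgHom.id_apply]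

end

end Pool.Agent.Helper19.SQ
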