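import Pool.Agent.Helper19.SQ.CountB
import Pool.Agent.Helper19.SQ.IsUq
import Pool.Agent.Helper4.SQ.QFin
import Pool.Agent.Helper19.SQ.Main

/-!
Project SQ (MP_bb32d1_al), helper19: the upper bound (second stage).
-/

namespace Pool.Agent.Helper19.SQ

noncomputable section

open Module

/-- the second stage: `l dim Z(u_q(sl_{N+1}))` is at most the dimension of the space of
equivariant maps from `(Z/l)^{N+1}` to the diagonal coinvariants. -/
theorem upperB (N l : ℕ) [NeZero l] (h1 : 1 ≤ N) (hodd : Odd l) (hl : N + 3 ≤ l)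
    (hcop : Nat.Coprime (N + 1) l) (q : ℂ) (hq : IsPrimitiveRoot q l) :
    l * finrank ℂ (Subalgebra.center ℂ (Usl N l q)) ≤ finrank ℂ (DRmaps (N + 1) l) := by
  have h5 : 5 ≤ l := by
    rcases hodd with ⟨k, rfl⟩
    omega
  have hP : Par N l q := ⟨h1, hodd, by omega, hq⟩
  obtain ⟨hl0, s, D, C, K, -, -, ⟨d, ⟨L⟩, -, -⟩, -, -, -, hU⟩ :=
    Pool.Agent.Helper4.SQ.part_ql N l q hP h5
  exact (hU hcop).trans (countB l (N + 1) _ d L (by omega) (by omega)).2

/-- the same with Haiman's formula. -/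
theorem upperHB (N l : ℕ) [NeZero l] (h1 : 1 ≤ N) (hodd : Odd l) (hl : N + 3 ≤ l)
    (hcop : Nat.Coprime (N + 1) l) (q : ℂ) (hq : IsPrimitiveRoot q l)
    (hH : HaimanCharacter (N + 1)) :
    (N + 2) * l * finrank ℂ (Subalgebra.center ℂ (Usl N l q)) ≤
      Nat.choose ((N + 2) * l) (N + 1) := by
  rw [← cHAI (N + 1) l (cFIN _) hH, mul_assoc]
  exact Nat.mul_le_mul_left _ (upperB N l h1 hodd hl hcop q hq)

/-- the centre has the same dimension in every realisation. -/
theorem IsUq.finrank_center {N l : ℕ} {q : ℂ} {U : Type} [Ring U] [Algebra ℂ U]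
    {E F K : Fin N → U} (h : IsUq N l q U E F K) :
    finrank ℂ (Subalgebra.center ℂ U) = finrank ℂ (Subalgebra.center ℂ (Usl N l q)) := by
  obtain ⟨e, -, -, -⟩ := h.exists_equiv
  refine LinearEquiv.finrank_eq (LinearEquiv.ofSubmodules e.toLinearEquiv
    (Subalgebra.toSubmodule (Subalgebra.center ℂ U))
    (Subalgebra.toSubmodule (Subalgebra.center ℂ (Usl N l q))) ?_)
  ext x
  constructor
  · rintro ⟨y, hy, rfl⟩
    have hy' : y ∈ Subalgebra.center ℂ U := hy
    change e y ∈ Subalgebra.center ℂ (Usl N l q)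
    rw [Subalgebra.mem_center_iff] at hy' ⊢
    intro b
    have := congrArg e (hy' (e.symm b))
    rwa [map_mul, map_mul, e.apply_symm_apply] at this
  · intro hx
    have hx' : x ∈ Subalgebra.center ℂ (Usl N l q) := hx
    refine ⟨e.symm x, ?_, e.apply_symm_apply x⟩
    change e.symm x ∈ Subalgebra.center ℂ U
    rw [Subalgebra.mem_center_iff] at hx' ⊢
    intro b
    have := congrArg e.symm (hx' (e b))
    rwa [map_mul, map_mul, e.symm_apply_apply] at this

/-- `u_q(sl_{N+1})` is finite-dimensional (here for `gcd(N+1, l) = 1`). -/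
theorem finUsl (N l : ℕ) (q : ℂ) (hP : Par N l q) (hcop : Nat.Coprime (N + 1) l) :
    FiniteDimensional ℂ (Usl N l q) := by
  have hl3 := hP.h3
  haveI : FiniteDimensional ℂ (A N l q) := zFDIM N l q hP
  obtain ⟨n', -, hn'⟩ := Nat.exists_mul_mod_eq_one_of_coprime hcop (by omega)
  have hn2 : (n' * (N + 1)) % l = 1 := by rw [mul_comm]; exact hn'
  obtain ⟨hrel, hkap⟩ := Helper49.SQ.s_pi N l q hP n' hn2
  have hleft : ∀ x : Usl N l q, liftA hrel (liftU (Helper6.SQ.s_iota N l q hP) x) = x := by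
    intro x
    refine U_induction (P := fun x =>
      liftA hrel (liftU (Helper6.SQ.s_iota N l q hP) x) = x) ?_ ?_ ?_ ?_ ?_ ?_ x
    · intro c; simp
    · intro i; rw [liftU_E, liftA_E]; simp [ext0, i.2]
    · intro i; rw [liftU_F, liftA_F]; simp [ext0, i.2]
    · intro i; rw [liftU_K, map_mul, map_pow, liftA_K, liftA_K]; exact hkap i
    · intro a b ha hb; rw [map_add, map_add, ha, hb]
    · intro a b ha hb; rw [map_mul, map_mul, ha, hb]
  exact FiniteDimensional.of_injective
    (liftU (Helper6.SQ.s_iota N l q hP)).toLinearMap (Function.LeftInverse.injective hleft)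

theorem IsUq.finiteDimensional {N l : ℕ} {q : ℂ} {U : Type} [Ring U] [Algebra ℂ U]
    {E F K : Fin N → U} (h : IsUq N l q U E F K) (hP : Par N l q)
    (hcop : Nat.Coprime (N + 1) l) : FiniteDimensional ℂ U := by
  obtain ⟨e, -, -, -⟩ := h.exists_equiv
  haveI := finUsl N l q hP hcop
  exact FiniteDimensional.of_injective e.toLinearMap e.injective

end

end Pool.Agent.Helper19.SQ
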