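import Pool.Agent.Helper41.SQC.Goals
import Pool.Agent.Helper4.SQ.Spt
import Pool.Agent.Helper34.SQ.Fin1
import Pool.Agent.Helper19.SQ.FinB

/-!
Project SQ (MP_bb32d1_al), stage C, helper19: the exact dimension of the centre, from the goals
of the family part.
-/

set_option autoImplicit false

namespace Pool.Agent.Helper19.SQ

noncomputable section

open Pool.Agent.Helper41.SQC Pool.Agent.Helper34.SQ Pool.Agent.Helper4.SQ Module

section par

theorem aug_nil (n : ℕ) (b : DR n) (hb : aug n b = 0) : IsNilpotent b := by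
  obtain ⟨k, hk⟩ := ker_aug_nil n
  refine ⟨k, ?_⟩
  have h : b ^ k ∈ (RingHom.ker (aug n)) ^ k :=
    Ideal.pow_mem_pow ((RingHom.mem_ker).2 hb) k
  rw [hk] at h
  exact h

theorem isUnit_of_aug (n : ℕ) (b : DR n) (hb : aug n b ≠ 0) : IsUnit b := by
  have h1 : IsNilpotent (b - algebraMap ℂ (DR n) (aug n b)) := by
    refine aug_nil n _ ?_
    rw [map_sub, AlgHom.commutes, Algebra.algebraMap_self_apply, sub_self]
  have h2 : IsUnit (algebraMap ℂ (DR n) (aug n b)) := (IsUnit.mk0 _ hb).map _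
  have h3 := h1.isUnit_add_left_of_commute h2 (Commute.all _ _)
  rwa [add_sub_cancel] at h3

/-- the units `κ_j = 1 + x_j`, `s_j = 1 + y_j`. -/
def prDR (n : ℕ) : Pr (DR n) where
  κ j := if h : j < n then 1 + xq n ⟨j, h⟩ else 1
  κi j := if h : j < n then Ring.inverse (1 + xq n ⟨j, h⟩) else 1
  s j := if h : j < n then 1 + yq n ⟨j, h⟩ else 1
  si j := if h : j < n then Ring.inverse (1 + yq n ⟨j, h⟩) else 1
  κκ j := by
    by_cases h : j < n
    · rw [dif_pos h, dif_pos h]
      refine Ring.mul_inverse_cancel _ (isUnit_of_aug n _ ?_)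
      rw [map_add, map_one, aug_xq]
      norm_num
    · rw [dif_neg h, dif_neg h, mul_one]
  ss j := by
    by_cases h : j < n
    · rw [dif_pos h, dif_pos h]
      refine Ring.mul_inverse_cancel _ (isUnit_of_aug n _ ?_)
      rw [map_add, map_one, aug_yq]
      norm_num
    · rw [dif_neg h, dif_neg h, mul_one]

theorem prDR_κ (n : ℕ) (j : Fin n) : (prDR n).κ j = 1 + xq n j := by
  change (if h : (j : ℕ) < n then 1 + xq n ⟨j, h⟩ else 1) = _
  rw [dif_pos j.2]

theorem prDR_s (n : ℕ) (j : Fin n) : (prDR n).s j = 1 + yq n j := by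
  change (if h : (j : ℕ) < n then 1 + yq n ⟨j, h⟩ else 1) = _
  rw [dif_pos j.2]

theorem aug_κ (n j : ℕ) : aug n ((prDR n).κ j) = 1 := by
  change aug n (if h : j < n then 1 + xq n ⟨j, h⟩ else 1) = _
  by_cases h : j < n
  · rw [dif_pos h, map_add, map_one, aug_xq, add_zero]
  · rw [dif_neg h, map_one]

theorem aug_s (n j : ℕ) : aug n ((prDR n).s j) = 1 := by
  change aug n (if h : j < n then 1 + yq n ⟨j, h⟩ else 1) = _
  by_cases h : j < n
  · rw [dif_pos h, map_add, map_one, aug_yq, add_zero]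
  · rw [dif_neg h, map_one]

theorem aug_si (n j : ℕ) : aug n ((prDR n).si j) = 1 := by
  have h := congrArg (aug n) ((prDR n).ss j)
  rw [map_mul, aug_s, one_mul, map_one] at h
  exact h

end par

theorem addE_eq {N l : ℕ} (x : Fin (N + 1) → ZMod l) (j : Fin (N + 1)) :
    addE x j = Function.update x j (x j + 1) := by
  funext i
  rw [addE]
  by_cases h : i = j
  · subst h
    rw [if_pos rfl, Function.update_self]
  · rw [if_neg h, Function.update_of_ne h, add_zero]

theorem subE_eq {N l : ℕ} (x : Fin (N + 1) → ZMod l) (j : Fin (N + 1)) :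
    subE x j = Function.update x j (x j - 1) := by
  funext i
  rw [subE]
  by_cases h : i = j
  · subst h
    rw [if_pos rfl, Function.update_self]
  · rw [if_neg h, Function.update_of_ne h, sub_zero]

/-- the constant `D`. -/
theorem aug_thE (N l : ℕ) (a : EX N l) : aug (N + 1) (thE (prDR (N + 1)) a) = 1 := by
  rw [thE, map_prod]
  refine Finset.prod_eq_one fun m _ => ?_
  rw [map_pow, map_mul, aug_si, aug_s, one_mul, one_pow]

/-- the data of the lower bound. -/
def lbOf (N l : ℕ) [NeZero l] (q : ℂ) (hP : Par N l q) (hl : N + 3 ≤ l) {hl0 : l ≠ 0}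
    {s : ℕ → ℂˣ} {D : Dl N l q} {C : Core (A N l q) (Fin (N + 1)) l} {K : ℕ}
    (h : Sett2 N l q hl0 s D C K) (V : VD N l q)
    (gF : S_CLF) (gE : S_CLE) (gM : S_CLM) (gT : Pool.Agent.Helper41.SQC.S_TWI)
    (gK : S_KERR) (gR : S_RED) :
    LB (N + 1) l (A N l q) (FB (DR (N + 1))) where
  l3 := hP.h3
  hn := by omega
  z c := qz q (2 * c)
  zinj a b hab := Pool.Agent.Helper41.SQ.qz2_inj hP.prim hP.odd hab
  z0 a := Pool.Agent.Helper41.SQ.qz_ne_zero hP.prim.pow_eq_one _
  ρ := q ^ 2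
  zs c := by
    rw [mul_add, Pool.Agent.Helper41.SQ.qz_add hP.prim.pow_eq_one, mul_comm, mul_one]
    congr 1
    have h2 := Pool.Agent.Helper41.SQ.qz_nat (l := l) hP.prim.pow_eq_one 2
    rwa [Nat.cast_ofNat] at h2
  ρ1 := by
    intro h2
    have h3 := hP.h3
    have h4 := hP.prim.dvd_of_pow_eq_one 2 h2
    have h5 := Nat.le_of_dvd (by norm_num) h4
    omega
  κ j := (prDR (N + 1)).κ j
  s j := (prDR (N + 1)).s j
  si j := (prDR (N + 1)).si j
  hκ := prDR_κ _
  hs := prDR_s _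
  hsi j := (prDR (N + 1)).ss j
  red := red N l q (aug (N + 1))
  surj := (gR N l q D hP _ (aug (N + 1)) (prDR (N + 1)) (aug_κ _) (aug_s _)).1
  red_alg := red_algebraMap N l q (aug (N + 1))
  Th := TH V (prDR (N + 1))
  fA a := Matrix.trace (D.dl a)
  eA a := Matrix.trace (D.ep a)
  cA := cq C.toCore0 1
  fB := fB N l q (prDR (N + 1))
  eB := eB N l q (prDR (N + 1))
  cB := cB N q (prDR (N + 1))
  red_f := (gR N l q D hP _ (aug (N + 1)) (prDR (N + 1)) (aug_κ _) (aug_s _)).2.1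
  red_e := (gR N l q D hP _ (aug (N + 1)) (prDR (N + 1)) (aug_κ _) (aug_s _)).2.2.1
  red_c := by
    rw [(gR N l q D hP _ (aug (N + 1)) (prDR (N + 1)) (aug_κ _) (aug_s _)).2.2.2, cq]
    refine Finset.sum_congr rfl fun a _ => ?_
    rw [pow_one, h.sett.c0.w, h.sett.c0.X]
  Th_f a := by
    rw [gF N l q D hP V _ (aug (N + 1)) (aug_nil _) (prDR (N + 1)) (aug_κ _) a]
    funext x
    rw [opF]
    exact Finset.sum_congr rfl fun j _ => by rw [addE_eq]
  Th_e a := by
    rw [gE N l q D hP V _ (aug (N + 1)) (aug_nil _) (prDR (N + 1)) (aug_κ _) a]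
    funext x
    rw [opE]
    exact Finset.sum_congr rfl fun j _ => by rw [subE_eq]
  Th_c a := by
    rw [gM N l q D hP V _ (prDR (N + 1)) a]
    rfl
  comm a b := by
    refine gT N l q hP V _ (prDR (N + 1)) (RingHom.ker (aug (N + 1))) (fun j => ?_) a b
    rw [RingHom.mem_ker, map_sub, aug_s, map_one, sub_self]
  ker a ha := gK N l q D hP V _ (aug (N + 1)) (prDR (N + 1)) (aug_κ _) a ha
  D := ∑ a : EX N l, thE (prDR (N + 1)) a
  Th_one := by
    funext x
    rw [TH_apply, map_one, one_mul, Thm, Matrix.trace_diagonal]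
  hD := by
    rw [map_sum, Finset.sum_congr rfl fun a _ => aug_thE N l a, Finset.sum_const,
      Finset.card_univ, nsmul_eq_mul, mul_one]
    have : Nonempty (EX N l) := ⟨zX N l⟩
    exact_mod_cast Fintype.card_ne_zero
  span S h1 hF hE hc τ hτ hS := spt h S h1 hF hE hc τ hτ hS

section main

variable (gV : Pool.Agent.Helper41.SQC.S_VD) (gF : S_CLF) (gE : S_CLE) (gM : S_CLM)
  (gT : Pool.Agent.Helper41.SQC.S_TWI) (gK : S_KERR) (gR : S_RED)

include gV gF gE gM gT gK gR

/-- the lower bound. -/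
theorem lowerC (N l : ℕ) [NeZero l] (h1 : 1 ≤ N) (hodd : Odd l) (hl : N + 3 ≤ l)
    (hcop : Nat.Coprime (N + 1) l) (q : ℂ) (hq : IsPrimitiveRoot q l) :
    finrank ℂ (DRmaps (N + 1) l) ≤ l * finrank ℂ (Subalgebra.center ℂ (Usl N l q)) := by
  have hP : Par N l q := ⟨h1, hodd, by omega, hq⟩
  obtain ⟨s, hs⟩ := Helper18.SQ.s_twi N
  obtain ⟨D, C, K, h⟩ := sett2' N l q (NeZero.ne l) s hP hs
  obtain ⟨V⟩ := gV N l q hP
  have hfd : FiniteDimensional ℂ (A N l q) := h.sett.fd
  refine (fin_bound (lbOf N l q hP hl h V gF gE gM gT gK gR)).trans ?_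
  rw [dim_U h hcop]
  refine Submodule.finrank_mono ?_
  intro τ hτ
  exact all_inv h τ hτ

/-- the exact formula. -/
theorem exactC (N l : ℕ) [NeZero l] (h1 : 1 ≤ N) (hodd : Odd l) (hl : N + 3 ≤ l)
    (hcop : Nat.Coprime (N + 1) l) (q : ℂ) (hq : IsPrimitiveRoot q l) :
    l * finrank ℂ (Subalgebra.center ℂ (Usl N l q)) = finrank ℂ (DRmaps (N + 1) l) :=
  le_antisymm (upperB N l h1 hodd hl hcop q hq)
    (lowerC gV gF gE gM gT gK gR N l h1 hodd hl hcop q hq)

/-- the exact formula with Haiman's character formula. -/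
theorem exactHC (N l : ℕ) [NeZero l] (h1 : 1 ≤ N) (hodd : Odd l) (hl : N + 3 ≤ l)
    (hcop : Nat.Coprime (N + 1) l) (q : ℂ) (hq : IsPrimitiveRoot q l)
    (hH : HaimanCharacter (N + 1)) :
    (N + 2) * l * finrank ℂ (Subalgebra.center ℂ (Usl N l q)) =
      Nat.choose ((N + 2) * l) (N + 1) := by
  rw [← cHAI (N + 1) l (cFIN _) hH, mul_assoc,
    exactC gV gF gE gM gT gK gR N l h1 hodd hl hcop q hq]

end main

end

end Pool.Agent.Helper19.SQ
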