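import Pool.Agent.Helper19.SQ.FinC
import Pool.Agent.Helper19.HM.Fin
import Pool.Agent.Helper33.HU.DR

/-!
Project SQ (MP_bb32d1_al), helper19: the dimension of the centre without hypotheses, from the
goals of stage C (SQC), of the upper half (HU) and of the lower half (HM, HD) of the theorem of
Haiman.
-/

set_option autoImplicit false

namespace Pool.Agent.Helper19.SQ

noncomputable section

open Pool.Agent.Helper41.SQC Pool.Agent.Helper34.SQ Pool.Agent.Helper4.SQ Module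

/-- the theorem of Haiman from the goals. -/
theorem haimanD (hU : Pool.Agent.Helper33.HU.G_FIN) (hE : Pool.Agent.Helper19.HM.S_EXH)
    (hC : Pool.Agent.Helper19.HM.S_CYC) (hS : Pool.Agent.Helper19.HM.S_SUR)
    (hR : Pool.Agent.Helper19.HM.S_CHR) (n : ℕ) (hn : 2 ≤ n) :
    finrank ℂ (DR n) = (n + 1) ^ (n - 1) ∧ HaimanCharacter n := by
  obtain ⟨h1, h2⟩ := Pool.Agent.Helper33.HU.finrank_DR_le_of hU n
  exact Pool.Agent.Helper19.HM.haiman_of hE hC hS hR n hn h1 h2

/-- the dimension of the centre from the goals. -/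
theorem centerD (gV : Pool.Agent.Helper41.SQC.S_VD) (gF : S_CLF) (gE : S_CLE) (gM : S_CLM)
    (gT : Pool.Agent.Helper41.SQC.S_TWI) (gK : S_KERR) (gR : S_RED)
    (hU : Pool.Agent.Helper33.HU.G_FIN) (hE : Pool.Agent.Helper19.HM.S_EXH)
    (hC : Pool.Agent.Helper19.HM.S_CYC) (hS : Pool.Agent.Helper19.HM.S_SUR)
    (hR : Pool.Agent.Helper19.HM.S_CHR)
    (N l : ℕ) [NeZero l] (h1 : 1 ≤ N) (hodd : Odd l) (hl : N + 3 ≤ l)
    (hcop : Nat.Coprime (N + 1) l) (q : ℂ) (hq : IsPrimitiveRoot q l) :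
    l * finrank ℂ (Subalgebra.center ℂ (Usl N l q)) = finrank ℂ (DRmaps (N + 1) l) ∧
    (N + 2) * l * finrank ℂ (Subalgebra.center ℂ (Usl N l q)) =
      Nat.choose ((N + 2) * l) (N + 1) :=
  ⟨exactC gV gF gE gM gT gK gR N l h1 hodd hl hcop q hq,
    exactHC gV gF gE gM gT gK gR N l h1 hodd hl hcop q hq
      (haimanD hU hE hC hS hR (N + 1) (by omega)).2⟩

end

end Pool.Agent.Helper19.SQ
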