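import Pool.Agent.Helper19.SQ.GoalsQ

/-!
Project SQ (MP_bb32d1_al), quantum group half, second part (written by helper4): commutators,
the operators `L`, `Y`, `X`, the matrices `S`, `T`, the structure `Core0` for `u_q(gl_n)`, GAM.

Conventions as in GoalsQ.  `kk l K i j = K_i K_j⁻¹`, `ki l K j = K_j⁻¹`.
-/

namespace Pool.Agent.Helper19.SQ

noncomputable section

open Matrix

/-! ### commutators -/

/-- **CM1** (packet CM).  Commutators of `E_ij` with `F_k` (`i < j ≤ N`).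
Hypotheses allowed: S_ROOT, S_KG, S_KI.
Proof.  `h_i = [E_i, F_i] = (k_i - k_i⁻¹)/(q - q⁻¹)`, `k_i = K_i K_{i+1}⁻¹`.
(a) `E_ij` is a polynomial in `E_i, ..., E_{j-1}`.  If `k ∉ {i, ..., j-1}` all commute with `F_k`.  If
`i < k < j - 1`: `E_ij = E_i E_{i+1,j} - q⁻¹ E_{i+1,j} E_i` and induction reduces to the case `k = i + 1`
of `E_{i,j}`, `j ≥ i + 3`: `[E_ij, F_{i+1}] = E_i [E_{i+1,j}, F_{i+1}] - q⁻¹ [E_{i+1,j}, F_{i+1}] E_i` with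
(b) `[E_{i+1,j}, F_{i+1}] = -E_{i+2,j} k_{i+1}⁻¹` and `k_{i+1}⁻¹ E_i = q E_i k_{i+1}⁻¹`, `E_i E_{i+2,j} =
E_{i+2,j} E_i`: the two terms cancel.
(b) `[E_i E' - q⁻¹ E' E_i, F_i] = h_i E' - q⁻¹ E' h_i`, `E' = E_{i+1,j}`, `k_i E' = q⁻¹ E' k_i`:
`= E' ((q⁻¹ k_i - q k_i⁻¹) - q⁻¹ (k_i - k_i⁻¹))/(q - q⁻¹) = -E' k_i⁻¹`.
(c) `E_{i,j+1} = E' E_j - q⁻¹ E_j E'`, `E' = E_ij` (R3): `[E_{i,j+1}, F_j] = E' h_j - q⁻¹ h_j E'`,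
`k_j E' = q⁻¹ E' k_j`: `= E' ((k_j - k_j⁻¹) - q⁻¹ (q⁻¹ k_j - q k_j⁻¹))/(q - q⁻¹) = q⁻¹ E' k_j`. -/
def S_CM1 : Prop := ∀ (B : Type) [Ring B] [Algebra ℂ B] (N l : ℕ) (q : ℂ) (E F K : ℕ → B),
  Par N l q → GlRel N l q E F K →
    (∀ i j k, i < j → j ≤ N → k ≠ i → k + 1 ≠ j → rv q E i j * F k = F k * rv q E i j) ∧
    (∀ i j, i + 2 ≤ j → j ≤ N → rv q E i j * F i - F i * rv q E i j
      = -(rv q E (i + 1) j * kk l K (i + 1) i)) ∧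
    (∀ i j, i < j → j + 1 ≤ N → rv q E i (j + 1) * F j - F j * rv q E i (j + 1)
      = q⁻¹ • (rv q E i j * kk l K j (j + 1)))

/-- **CM2** (packet CM).  Commutators of `E_k` with `F_ij` and with `F°_ij` (`i < j ≤ N`).
Hypotheses allowed: S_ROOT, S_RO, S_KG, S_KI.
Proof.  As in CM1.  `F_ij = F_i F' - q⁻¹ F' F_i`, `F' = F_{i+1,j}`, `k_i F' = q F' k_i`:
`[E_i, F_ij] = h_i F' - q⁻¹ F' h_i = F' ((q k_i - q⁻¹ k_i⁻¹) - q⁻¹ (k_i - k_i⁻¹))/(q - q⁻¹) = F' k_i`.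
`F_{i,j+1} = F' F_j - q⁻¹ F_j F'`, `F' = F_ij`, `k_j F' = q F' k_j`:
`[E_j, F_{i,j+1}] = F' h_j - q⁻¹ h_j F' = F' ((k_j - k_j⁻¹) - q⁻¹ (q k_j - q⁻¹ k_j⁻¹))/(q - q⁻¹)
= -q⁻¹ F' k_j⁻¹`.
`F°_ij = F' F_i - q⁻¹ F_i F'`, `F' = F°_{i+1,j}`, `k_i F' = q F' k_i`:
`[E_i, F°_ij] = F' h_i - q⁻¹ h_i F' = -q⁻¹ F' k_i⁻¹`.
`F°_{i,j+1} = F_j F' - q⁻¹ F' F_j`, `F' = F°_ij` (RO): `[E_j, F°_{i,j+1}] = h_j F' - q⁻¹ F' h_j = F' k_j`.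
Other `k`: `E_k` commutes (outside: all generators commute with `E_k`; inside `i < k < j - 1`: reduce to
`k = i + 1` by the definition, then the two terms cancel as in CM1 (a)). -/
def S_CM2 : Prop := ∀ (B : Type) [Ring B] [Algebra ℂ B] (N l : ℕ) (q : ℂ) (E F K : ℕ → B),
  Par N l q → GlRel N l q E F K →
    ((∀ i j k, i < j → j ≤ N → k ≠ i → k + 1 ≠ j → E k * rv q F i j = rv q F i j * E k) ∧
    (∀ i j, i + 2 ≤ j → j ≤ N → E i * rv q F i j - rv q F i j * E i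
      = rv q F (i + 1) j * kk l K i (i + 1)) ∧
    (∀ i j, i < j → j + 1 ≤ N → E j * rv q F i (j + 1) - rv q F i (j + 1) * E j
      = -(q⁻¹ • (rv q F i j * kk l K (j + 1) j)))) ∧
    ((∀ i j k, i < j → j ≤ N → k ≠ i → k + 1 ≠ j → E k * rvo q F i j = rvo q F i j * E k) ∧
    (∀ i j, i + 2 ≤ j → j ≤ N → E i * rvo q F i j - rvo q F i j * E i
      = -(q⁻¹ • (rvo q F (i + 1) j * kk l K (i + 1) i))) ∧
    (∀ i j, i < j → j + 1 ≤ N → E j * rvo q F i (j + 1) - rvo q F i (j + 1) * E j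
      = rvo q F i j * kk l K j (j + 1)))

/-- **CN** (packet CN).  Commutators of root vectors (section 10), `c_ij = (-q)^{-(j-i-1)}`.
Hypotheses allowed: S_CM1, S_CM2, S_KG, S_KI, S_ROOT.
Proof.  (C4) `i < r < s < k`: `E_rs` is a polynomial in `E_r, ..., E_{s-1}`, all different from
`E_i, E_{k-1}`, and `[E_t, F_ik] = 0` for `t ≠ i, k - 1` (CM2).
(C2) `[E_ij, F_ik] = c_ij F_jk K_ij` (`i < j < k`), induction on `j - i`.  `j = i + 1`: CM2.  Step: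
`E_ij = E_i E' - q⁻¹ E' E_i`, `E' = E_{i+1,j}` commutes with `F_ik` (C4), so with
`[E_i, F_ik] = F_{i+1,k} k_i` and `k_i E' = q⁻¹ E' k_i`: `[E_ij, F_ik] = F_{i+1,k} k_i E' -
q⁻¹ E' F_{i+1,k} k_i = -q⁻¹ [E_{i+1,j}, F_{i+1,k}] k_i = -q⁻¹ c_{i+1,j} F_jk K_{i+1,j} k_i`.
(C1) and (C3) together by induction on `j - i`; `j = i + 1` of (C1): relation `EF`.
(C3) `j ≥ i + 2`: `F_ij = F_i F' - q⁻¹ F' F_i`, `F' = F_{i+1,j}`, `E' = E_{i+1,j}` commutes with `F_i`;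
`K := K_{i+1,j}`, `c := c_{i+1,j}`; `[E', F_ij] = F_i [E', F'] - q⁻¹ [E', F'] F_i` with
`[E', F'] = c (K - K⁻¹)/(q - q⁻¹)` (C1 for `(i+1, j)`), `K F_i = q F_i K`:
`= c F_i ((K - K⁻¹) - q⁻¹ (q K - q⁻¹ K⁻¹))/(q - q⁻¹) = -q⁻¹ c F_i K⁻¹`.
(C1) step: `[E_ij, F_ij] = E_i [E', F_ij] - q⁻¹ [E', F_ij] E_i + [E_i, F_ij] E' - q⁻¹ E' [E_i, F_ij]`.
With `[E', F_ij] = -q⁻¹ c F_i K⁻¹`, `K⁻¹ E_i = q E_i K⁻¹` the first two terms are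
`-q⁻¹ c [E_i, F_i] K⁻¹`; with `[E_i, F_ij] = F' k_i`, `k_i E' = q⁻¹ E' k_i` the last two are
`-q⁻¹ [E', F'] k_i`.  Sum: `-q⁻¹ c ((k_i - k_i⁻¹) K⁻¹ + (K - K⁻¹) k_i)/(q - q⁻¹) =
-q⁻¹ c (k_i K - k_i⁻¹ K⁻¹)/(q - q⁻¹)`, and `k_i K = K_ij`. -/
def S_CN : Prop := ∀ (B : Type) [Ring B] [Algebra ℂ B] (N l : ℕ) (q : ℂ) (E F K : ℕ → B),
  Par N l q → GlRel N l q E F K →
    (∀ i j, i < j → j ≤ N → rv q E i j * rv q F i j - rv q F i j * rv q E i j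
      = ((-q)⁻¹ ^ (j - i - 1) * (q - q⁻¹)⁻¹) • (kk l K i j - kk l K j i)) ∧
    (∀ i j k, i < j → j < k → k ≤ N → rv q E i j * rv q F i k - rv q F i k * rv q E i j
      = (-q)⁻¹ ^ (j - i - 1) • (rv q F j k * kk l K i j)) ∧
    (∀ i j, i + 2 ≤ j → j ≤ N → rv q E (i + 1) j * rv q F i j - rv q F i j * rv q E (i + 1) j
      = (-q)⁻¹ ^ (j - i - 1) • (F i * kk l K j (i + 1))) ∧
    (∀ i r s k, i < r → r < s → s < k → k ≤ N → rv q E r s * rv q F i k = rv q F i k * rv q E r s)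

/-! ### the operators `L` and `Y` -/

/-- **LE** (packet LL).  `L delta(E_k) = oE_k L`.  Hypotheses allowed: S_ROOT, S_KG, S_KI, S_CM1.
Proof.  Entry `(a,b)`: (L1) `[b=k+1] L_ak + q^{pr(b,k)} L_ab E_k = E_k L_ab + [a=k] K_k K_{k+1}⁻¹
L_{k+1,b}`.  For `k ≥ N` both sides are `0`.  `a < b`: only `a = k, b = k + 1` contributes,
`K_k = K_k K_{k+1}⁻¹ K_{k+1}`.  `a = b ≠ k, k+1`: `K_a E_k = E_k K_a`.  `a = b = k`: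
`q K_k E_k = q² E_k K_k` and `E_k K_k + K_k K_{k+1}⁻¹ (1-q⁻²) E_k K_{k+1} = (1 + (1-q⁻²) q²) E_k K_k`.
`a = b = k+1`: `(1-q⁻²) E_k K_{k+1} + q⁻² E_k K_{k+1} = E_k K_{k+1}`.  `b < a`: after division by
`(1-q⁻²)` and `K_a` (`K_a E_k = q^{pr(a,k)} E_k K_a`; `K_k K_{k+1}⁻¹ E_{b,k+1} = q E_{b,k+1} K_k
K_{k+1}⁻¹` for `b < k`, `a = k`) it is
`[b=k+1] E_ka + q^{pr(b,k)+pr(a,k)} E_ba E_k = E_k E_ba + [a=k] q E_{b,k+1}`: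
`b = k+1`: definition of `E_ka`; `b = k, a = k+1`: trivial; `b = k, a ≥ k+2`: R4; `b < k, a > k+1`: R6;
`b < k, a = k+1`: R5; `b < k, a = k`: R3; `a < k` or `b > k+1`: R2. -/
def S_LE : Prop := ∀ (B : Type) [Ring B] [Algebra ℂ B] (N l : ℕ) (q : ℂ) (E F K : ℕ → B),
  Par N l q → GlRel N l q E F K → ∀ k,
    Lmat N q E K * dE N q E k = oE N l E K k * Lmat N q E K

/-- **LF** (packet LL).  `L delta(F_k) = oF_k L`.  Hypotheses allowed: S_ROOT, S_KG, S_KI, S_CM1.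
Proof.  Entry `(a,b)`: (L2) `[b=k] L_{a,k+1} K_{k+1} K_k⁻¹ + L_ab F_k = q^{-pr(a,k)} F_k L_ab +
[a=k+1] L_kb`.  `a < b`: all terms `0`.  `a = b`: `K_a F_k = q^{-pr(a,k)} F_k K_a`.  `b < a`: with
`K_a F_k = q^{-pr(a,k)} F_k K_a` it says `q^{-pr(a,k)} (1-q⁻²) [E_ba, F_k] K_a = [a=k+1] L_kb -
[b=k] L_{a,k+1} K_{k+1} K_k⁻¹`.  `b = k, a = k+1`: `q (1-q⁻²)/(q-q⁻¹) = 1`,
`(K_k K_{k+1}⁻¹ - K_k⁻¹ K_{k+1}) K_{k+1} = K_k - K_{k+1} K_{k+1} K_k⁻¹`.  `b = k, a > k+1`: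
`[E_ka, F_k] = -E_{k+1,a} K_k⁻¹ K_{k+1}` (CM1).  `a = k+1, b < k`: `[E_{b,k+1}, F_k] = q⁻¹ E_bk K_k
K_{k+1}⁻¹` (CM1).  Otherwise `[E_ba, F_k] = 0`. -/
def S_LF : Prop := ∀ (B : Type) [Ring B] [Algebra ℂ B] (N l : ℕ) (q : ℂ) (E F K : ℕ → B),
  Par N l q → GlRel N l q E F K → ∀ k,
    Lmat N q E K * dF N l F K k = oF N q F k * Lmat N q E K

/-- **LK** (packet LL).  Weights. -/
def S_LK : Prop := ∀ (B : Type) [Ring B] [Algebra ℂ B] (N l : ℕ) (q : ℂ) (E F K : ℕ → B),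
  Par N l q → GlRel N l q E F K → ∀ k,
    Lmat N q E K * dK N q K k = dK N q K k * Lmat N q E K

/-- **YE** (packet YY).  `Y oE_k = delta(E_k) Y`.  Hypotheses allowed: S_RO, S_KG, S_KI, S_CM2.
Proof.  Entry `(a,b)`: (Y1) `Y_ab E_k + [b=k+1] Y_ak K_k K_{k+1}⁻¹ = [a=k] Y_{k+1,b} +
q^{pr(a,k)} E_k Y_ab`.  `b < a`: all terms `0`.  `a = b`: `K_a E_k = q^{pr(a,k)} E_k K_a`.  `a < b`: as
`q^{pr(a,k)} E_k K_a = K_a E_k` it says `(q-q⁻¹) K_a [E_k, F°_ab] = [b=k+1] Y_ak K_k K_{k+1}⁻¹ -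
[a=k] Y_{k+1,b}`.  `a = k, b = k+1`: `K_k (K_k K_{k+1}⁻¹ - K_k⁻¹ K_{k+1})`.  `b = k+1, a < k`:
`[E_k, F°_{a,k+1}] = F°_ak K_k K_{k+1}⁻¹` (CM2).  `a = k, b > k+1`: `[E_k, F°_kb] = -q⁻¹ F°_{k+1,b} K_k⁻¹
K_{k+1}` and `K_{k+1} F°_{k+1,b} = q⁻¹ F°_{k+1,b} K_{k+1}`.  Otherwise `0`. -/
def S_YE : Prop := ∀ (B : Type) [Ring B] [Algebra ℂ B] (N l : ℕ) (q : ℂ) (E F K : ℕ → B),
  Par N l q → GlRel N l q E F K → ∀ k,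
    Ymat N q F K * oE N l E K k = dE N q E k * Ymat N q F K

/-- **YF** (packet YY).  `Y oF_k = delta(F_k) Y`.  Hypotheses allowed: S_RO, S_KG, S_KI, S_CM2.
Proof.  Entry `(a,b)`: (Y2) `q^{-pr(b,k)} Y_ab F_k + [b=k] Y_{a,k+1} = [a=k+1] K_{k+1} K_k⁻¹ Y_kb +
F_k Y_ab`.  `b < a`: only `a = k+1, b = k`: `K_{k+1} = K_{k+1} K_k⁻¹ K_k`.  `a = b`: `a ≠ k, k+1` clear;
`a = k`: `q⁻² F_k K_k + (q-q⁻¹) q⁻¹ F_k K_k = F_k K_k`; `a = k+1`: `q² F_k K_{k+1} = (q-q⁻¹) K_{k+1} F_k +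
F_k K_{k+1}`.  `a < b`: after division by `(q-q⁻¹) K_a` (`F_k K_a = q^{pr(a,k)} K_a F_k`):
`q^{-pr(b,k)} F°_ab F_k + [b=k] F°_{a,k+1} = [a=k+1] F°_kb + q^{pr(a,k)} F_k F°_ab`:
`a = k+1`: definition of `F°_kb`; `a = k, b = k+1` trivial; `a = k, b ≥ k+2`, `a < k, b = k+1`,
`a < k, b = k`, the rest: the five statements of RO. -/
def S_YF : Prop := ∀ (B : Type) [Ring B] [Algebra ℂ B] (N l : ℕ) (q : ℂ) (E F K : ℕ → B),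
  Par N l q → GlRel N l q E F K → ∀ k,
    Ymat N q F K * oF N q F k = dF N l F K k * Ymat N q F K

/-- **YK** (packet YY).  Weights. -/
def S_YK : Prop := ∀ (B : Type) [Ring B] [Algebra ℂ B] (N l : ℕ) (q : ℂ) (E F K : ℕ → B),
  Par N l q → GlRel N l q E F K → ∀ k,
    Ymat N q F K * dK N q K k = dK N q K k * Ymat N q F K

/-- **XC** (packet XC; from LE LF LK YE YF YK).  `X` commutes with `delta(A)`.
Proof.  On generators `X δ(E) = Y L δ(E) = Y oE L = δ(E) Y L`; closed under sums and products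
(`A_induction`). -/
def S_XC : Prop := ∀ (N l : ℕ) (q : ℂ), Par N l q → ∀ (D : Dl N l q) (a : A N l q),
  Xm N l q * D.dl a = D.dl a * Xm N l q

/-! ### `eps(L)`, `eps(Y)`, the matrices `S`, `T` -/

/-- rows `(p,r)` (`v_p (x) phi_r`), columns `(b,s)`: the number `rho(L_pb)_rs`. -/
def RLm (N : ℕ) (q : ℂ) :
    Matrix (Fin (N + 1) × Fin (N + 1)) (Fin (N + 1) × Fin (N + 1)) ℂ := Matrix.of fun x y =>
  if x.1 = y.1 then (if x.2 = y.2 then (if y.2 = y.1 then q⁻¹ else 1) else 0)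
  else if y.1 < x.1 then (if x.2 = x.1 ∧ y.2 = y.1 then -(q - q⁻¹) else 0) else 0

/-- rows `(p,r)` (`v_p (x) phi_r`), columns `(b,s)`: the number `rho(Y_pb)_rs`. -/
def RYm (N : ℕ) (q : ℂ) :
    Matrix (Fin (N + 1) × Fin (N + 1)) (Fin (N + 1) × Fin (N + 1)) ℂ := Matrix.of fun x y =>
  if x.1 = y.1 then (if x.2 = y.2 then (if y.2 = y.1 then q⁻¹ else 1) else 0)
  else if x.1 < y.1 then (if x.2 = x.1 ∧ y.2 = y.1 then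
    -(q - q⁻¹) * q⁻¹ ^ (2 * ((y.1 : ℕ) - (x.1 : ℕ))) else 0) else 0

/-- the flip `phi_i (x) v_k ↦ v_k (x) phi_i`. -/
def Pm (N : ℕ) : Matrix (Fin (N + 1) × Fin (N + 1)) (Fin (N + 1) × Fin (N + 1)) ℂ :=
  Matrix.of fun x y => if x.1 = y.2 ∧ x.2 = y.1 then 1 else 0

/-- `cup = sum_k q^{2k} v_k (x) phi_k`. -/
def cupn (N : ℕ) (q : ℂ) : Fin (N + 1) × Fin (N + 1) → ℂ := fun x =>
  if x.1 = x.2 then q ^ (2 * (x.1 : ℕ)) else 0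

/-- `cap (phi_i (x) v_k) = [i = k] q^{-2i}`. -/
def capn (N : ℕ) (q : ℂ) : Fin (N + 1) × Fin (N + 1) → ℂ := fun x =>
  if x.1 = x.2 then q⁻¹ ^ (2 * (x.1 : ℕ)) else 0

/-- `X` on the factors `V` and `A` of `V (x) V* (x) A`. -/
def X13 (N l : ℕ) (q : ℂ) :
    Matrix (Fin (N + 1) × Fin (N + 1)) (Fin (N + 1) × Fin (N + 1)) (A N l q) :=
  Matrix.of fun x y => if x.2 = y.2 then Xm N l q x.1 y.1 else 0

/-- **EL** (packet EL).  Entries of `eps(L)`.  Hypotheses allowed: S_CR, S_VRV, S_VREP, S_KI.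
Proof.  In `Mat N (A N l q)` take `E1 = sc (wE N q ·)`, `K1 = sc (wK N q ·)` (scalar matrices),
`E2 = diagonal (gE ·)`, `K2 = diagonal (gK ·)`; `D.ep (gE i) = cE l E1 K1 E2 i`,
`D.ep (gK j) = K1 j * K2 j` (entries).  So `D.ep (rv q gE b a) = rv q (cE ..) b a` (`rv_map`), and CR with
`b < a`: times `D.ep (gK a) = K'_a K''_a` and `η = 1 - q⁻²`:
`ε(L_ab) = (η E'_ba K'_a) K''_a + ∑_{b<p<a} (η E'_bp K'_p)(η E''_pa K''_a) + K'_b (η E''_ba K''_a)`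
(`k'_pa K'_a = K'_p`), i.e. `∑_p ρ(L_pb) L_ap`, `ρ(L_pb) = η E'_bp K'_p = -(q-q⁻¹) e_pb` (`b < p`; VRV:
`E'_bp = -q e_pb`, and `K'_p phi_b = phi_b`), `ρ(L_bb) = K'_b`.  `a = b`: clear; `a < b`: both sides
`0` (`p ≥ b > a`). -/
def S_EL : Prop := ∀ (N l : ℕ) (q : ℂ), Par N l q → ∀ (D : Dl N l q) (a b r s : Fin (N + 1)),
  D.ep (Lent q (gE N l q) (gK N l q) a b) r s
    = ∑ p : Fin (N + 1), RLm N q (p, r) (b, s) • Lent q (gE N l q) (gK N l q) a p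

/-- **EY** (packet EY).  Entries of `eps(Y)`.  Hypotheses allowed: S_CO, S_VRV, S_VREP, S_KI, S_KG.
Proof.  As EL, with CO: `D.ep (gF i) = cF l F1 K2 F2 i`, `F1 = sc (wF N q ·)`, `F2 = diagonal (gF ·)`.
`a < b`, `ω = q - q⁻¹`, `η = 1 - q⁻²`: `ε(Y_ab) = ω K'_a K''_a F°_ab =
K'_a (ω K''_a F''°_ab) + ∑_{a<p<b} ω η K'_a F'°_ap K''_a F''°_pb K''_a⁻¹ K''_p + ω K'_a F'°_ab K''_b`, and
`K''_a F''°_pb K''_a⁻¹ K''_p = F''°_pb K''_p = q K''_p F''°_pb`, `η q = ω`: the middle terms are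
`(ω K'_a F'°_ap)(ω K''_p F''°_pb)`.  So `ε(Y_ab) = ∑_p ρ(Y_ap) Y_pb`, `ρ(Y_ap) = ω K'_a F'°_ap =
-ω q^{-2(p-a)} e_ap` (VRV: `F'°_ap = -q^{-(2(p-a)-1)} e_ap`, `K'_a phi_a = q⁻¹ phi_a`). -/
def S_EY : Prop := ∀ (N l : ℕ) (q : ℂ), Par N l q → ∀ (D : Dl N l q) (a b r s : Fin (N + 1)),
  D.ep (Yent q (gF N l q) (gK N l q) a b) r s
    = ∑ p : Fin (N + 1), RYm N q (a, r) (p, s) • Yent q (gF N l q) (gK N l q) p b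

/-- **XF** (packet XF; from EL, EY).  `X2 = R_Y X13 R_L`.
Proof.  `ε(X_pk)_ji = ∑_r ε(Y_pr L_rk)_ji = ∑_{r,t} ε(Y_pr)_jt ε(L_rk)_ti =
∑_{r,t,p',p''} RY (p,j) (p',t) Y_p'r RL (p'',t) (k,i) L_rp''` and `∑_r Y_p'r L_rp'' = X_p'p''`;
numbers commute with everything. -/
def S_XF : Prop := ∀ (N l : ℕ) (q : ℂ), Par N l q → ∀ (D : Dl N l q),
  X2 D.ep (Xm N l q) = sc (A N l q) (RYm N q) * X13 N l q * sc (A N l q) (RLm N q)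

/-- **SM** (packet SM).  Identities between matrices of numbers.
Proof.  Evaluate on basis vectors (columns).  `ω = q - q⁻¹`.
`R_L (v_k φ_i) = v_k φ_i` (`i ≠ k`), `R_L (v_i φ_i) = q⁻¹ v_i φ_i - ω ∑_{p>i} v_p φ_p`.
`S (φ_i v_i) = q v_i φ_i + ω ∑_{k>i} q^{2(k-i)} v_k φ_k`.  `R_L S = P`: for `φ_i v_i` the coefficient of
`v_p φ_p` (`d = p - i > 0`) is `-qω + ω q^{2d-1} - ω² ∑_{s=1}^{d-1} q^{2s} = 0`, as
`ω ∑_{s=1}^{d-1} q^{2s} = q^{2d-1} - q` (induction on `d`).  `T = P⁻¹ R_L` (entries), so `T S = 1`, and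
`S T = 1` (square matrices, `Matrix.mul_eq_one_comm`).  `R_Y P (φ_i v_i) = q⁻¹ v_i φ_i -
ω ∑_{k<i} q^{-2(i-k)} v_k φ_k = (S - ω cup cap)(φ_i v_i)`, `cap (φ_i v_i) = q^{-2i}`. -/
def S_SM : Prop := ∀ (N : ℕ) (q : ℂ), q ≠ 0 →
  Smat N q * Tmat N q = 1 ∧ Tmat N q * Smat N q = 1 ∧ RLm N q * Smat N q = Pm N ∧
  RYm N q * Pm N = Smat N q - (q - q⁻¹) • vecMulVec (cupn N q) (capn N q)

/-- the matrix part of `D1 (E_k)`: rows, columns `(j,p)` = `φ_j v_p`. -/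
def M1E (N : ℕ) (q : ℂ) (k : ℕ) :
    Matrix (Fin (N + 1) × Fin (N + 1)) (Fin (N + 1) × Fin (N + 1)) ℂ := Matrix.of fun x y =>
  (if ((x.1 : ℕ) = k + 1 ∧ (y.1 : ℕ) = k) ∧ x.2 = y.2 then -q else 0)
  + (if x.1 = y.1 ∧ ((x.2 : ℕ) = k ∧ (y.2 : ℕ) = k + 1) then q ^ (-pr x.1 k) else 0)

/-- the matrix part of `D2 (E_k)`: rows, columns `(p,j)` = `v_p φ_j`. -/
def M2E (N : ℕ) (q : ℂ) (k : ℕ) :
    Matrix (Fin (N + 1) × Fin (N + 1)) (Fin (N + 1) × Fin (N + 1)) ℂ := Matrix.of fun x y =>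
  (if ((x.1 : ℕ) = k ∧ (y.1 : ℕ) = k + 1) ∧ x.2 = y.2 then 1 else 0)
  + (if x.1 = y.1 ∧ ((x.2 : ℕ) = k + 1 ∧ (y.2 : ℕ) = k) then -q * q ^ (pr x.1 k) else 0)

/-- the coefficient of `K_{k+1} K_k⁻¹` in `D1 (F_k)`. -/
def M1F (N : ℕ) (q : ℂ) (k : ℕ) :
    Matrix (Fin (N + 1) × Fin (N + 1)) (Fin (N + 1) × Fin (N + 1)) ℂ := Matrix.of fun x y =>
  (if x.1 = y.1 ∧ ((x.2 : ℕ) = k + 1 ∧ (y.2 : ℕ) = k) then 1 else 0)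
  + (if ((x.1 : ℕ) = k ∧ (y.1 : ℕ) = k + 1) ∧ x.2 = y.2 then -q⁻¹ * q ^ (-pr x.2 k) else 0)

/-- the coefficient of `K_{k+1} K_k⁻¹` in `D2 (F_k)`. -/
def M2F (N : ℕ) (q : ℂ) (k : ℕ) :
    Matrix (Fin (N + 1) × Fin (N + 1)) (Fin (N + 1) × Fin (N + 1)) ℂ := Matrix.of fun x y =>
  (if x.1 = y.1 ∧ ((x.2 : ℕ) = k ∧ (y.2 : ℕ) = k + 1) then -q⁻¹ else 0)
  + (if ((x.1 : ℕ) = k + 1 ∧ (y.1 : ℕ) = k) ∧ x.2 = y.2 then q ^ (pr x.2 k) else 0)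

/-- **SE** (packet SE).  `S` intertwines the matrix parts of `E_k`.
Proof.  On basis vectors `φ_i v_m`, `ω = q - q⁻¹`; for `k ≥ N` both sides are `0`.
`M1 (φ_i v_m) = [i=k] (-q) φ_{k+1} v_m + [m=k+1] q^{-pr(i,k)} φ_i v_k`,
`M2 (v_p φ_j) = [p=k+1] v_k φ_j + [j=k] (-q) q^{pr(p,k)} v_p φ_{k+1}`.
`i ≠ m`: `M2 S = [m=k+1] v_k φ_i + [i=k] (-q) q^{pr(m,k)} v_m φ_{k+1}`.  If `i = k`, `m = k+1`:
`S M1 = -q S(φ_{k+1} v_{k+1}) + q⁻¹ S(φ_k v_k)`: coefficient of `v_k φ_k`: `1`; of `v_{k+1} φ_{k+1}`: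
`-q² + q⁻¹ ω q² = -1`; of `v_r φ_r`, `r > k+1`: `-q ω q^{2(r-k-1)} + q⁻¹ ω q^{2(r-k)} = 0`; equal to
`M2 S = v_k φ_k - v_{k+1} φ_{k+1}`.  The other cases with `i ≠ m` are immediate.
`i = m`: `M2 (v_r φ_r) = ([r=k+1] - q² [r=k]) v_k φ_{k+1}`, so `M2 S (φ_i v_i) = c v_k φ_{k+1}` with `c = q` for
`i = k+1`, `-q³ + ω q² = -q` for `i = k`, `ω (q^{2(k+1-i)} - q² q^{2(k-i)}) = 0` for `i < k`, `0` for
`i > k+1`; `S M1 (φ_i v_i) = ([i=k] (-q) + [i=k+1] q) v_k φ_{k+1}`. -/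
def S_SE : Prop := ∀ (N : ℕ) (q : ℂ), q ≠ 0 → ∀ k, Smat N q * M1E N q k = M2E N q k * Smat N q

/-- **SF** (packet SF).  `S` intertwines the matrix parts of `F_k`.
Proof.  On basis vectors.  `M1 (φ_i v_m) = [m=k] φ_i v_{k+1} + [i=k+1] (-q⁻¹) q^{-pr(m,k)} φ_k v_m`,
`M2 (v_p φ_j) = [j=k+1] (-q⁻¹) v_p φ_k + [p=k] q^{pr(j,k)} v_{k+1} φ_j`.
`i ≠ m`, `i = k+1, m = k`: `S M1 = S(φ_{k+1} v_{k+1}) - q⁻² S(φ_k v_k)`: coefficient of `v_k φ_k`: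
`-q⁻¹`; of `v_{k+1} φ_{k+1}`: `q - q⁻² ω q² = q⁻¹`; of `v_r φ_r`, `r > k+1`:
`ω q^{2(r-k-1)} - q⁻² ω q^{2(r-k)} = 0`; equal to `M2 S = M2 (v_k φ_{k+1}) = -q⁻¹ v_k φ_k +
q^{-1} v_{k+1} φ_{k+1}`.  Other `i ≠ m`: immediate.  `i = m`: `M2 (v_r φ_r) =
([r=k+1] (-q⁻¹) + [r=k] q) v_{k+1} φ_k`; `M2 S (φ_i v_i) = c v_{k+1} φ_k`: `i = k+1`: `-1`; `i = k`:
`q² - q⁻¹ ω q² = 1`; `i < k`: `ω (q q^{2(k-i)} - q⁻¹ q^{2(k+1-i)}) = 0`; `i > k+1`: `0`.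
`S M1 (φ_i v_i) = [i=k] S(φ_k v_{k+1}) + [i=k+1] (-q⁻¹) q S(φ_k v_{k+1})`. -/
def S_SF : Prop := ∀ (N : ℕ) (q : ℂ), q ≠ 0 → ∀ k, Smat N q * M1F N q k = M2F N q k * Smat N q

/-- **SD** (packet SD; from SE, SF).  `S D1(a) = D2(a) S`.
Proof.  `D1`, `D2` are multiplicative (compositions of algebra maps), so it is enough to check
generators (`A_induction`).  `D1(E_k) = sc M1E + diagonal (q^{pr(p,k)-pr(j,k)} E_k)` (index `(j,p)`),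
`D2(E_k) = sc M2E + diagonal (q^{pr(p,k)-pr(j,k)} E_k)` (index `(p,j)`); `S` exchanges the two diagonal
matrices, since `S (p,j) (i,k) ≠ 0` only if `(p,j) = (k,i)` or (`p = j` and `i = k`).
`D1(F_k) = diagonal (F_k) + sc M1F * diagonal (K_{k+1} K_k⁻¹)`, `D2(F_k) = diagonal (F_k) + sc M2F *
diagonal (K_{k+1} K_k⁻¹)`, because `δ(K_{k+1} K_k⁻¹) = diag(q^{-pr(p,k)}) K_{k+1} K_k⁻¹` and
`ε(K_{k+1} K_k⁻¹) = diag(q^{pr(j,k)}) K_{k+1} K_k⁻¹` (`q^(l-1) = q⁻¹`).  `D1(K_m)` = diagonal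
`(q^{[p=m]-[j=m]} K_m)`, the same for `D2`. -/
def S_SD : Prop := ∀ (N l : ℕ) (q : ℂ), Par N l q → ∀ (D : Dl N l q) (a : A N l q),
  sc (A N l q) (Smat N q) * D1 D.dl D.ep a = D2 D.dl D.ep a * sc (A N l q) (Smat N q)

/-- **X2Q** (packet XQ; from XF, SM).  `X2 = S X1 T + u v`.
Proof.  `R_L = P T` (`R_L S = P`, `S T = 1`), `X13 P = P X1` (entries), so
`X2 = R_Y X13 P T = R_Y P X1 T = (S - ω cup cap) X1 T`, and `u = -ω cup`, `v = cap X1 T`. -/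
def S_X2Q : Prop := ∀ (N l : ℕ) (q : ℂ), Par N l q → ∀ (D : Dl N l q),
  X2 D.ep (Xm N l q) = sc (A N l q) (Smat N q) * X1 (Xm N l q) * sc (A N l q) (Tmat N q)
    + vecMulVec (uvec N l q) (vvec N l q)

/-- **UD** (packet UV; from CUP1).  `D2(a) u = u a`.
Proof.  Component `(p,j)`: `-ω ∑_k q^{2k} ε(δ(a)_pk)_jk = -ω [j=p] q^{2p} a`. -/
def S_UD : Prop := ∀ (N l : ℕ) (q : ℂ), Par N l q → ∀ (D : Dl N l q) (a : A N l q),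
  D2 D.dl D.ep a *ᵥ uvec N l q = fun x => uvec N l q x * a

/-- **VD** (packet UV; from CAP1, SD, SM, XC).  `v D2(a) = a v`.
Proof.  `T D2(a) = D1(a) T` (SD and `S T = T S = 1`), `X1 D1(a) = D1(a) X1` (blocks: XC),
`cap D1(a) = a cap` (CAP1). -/
def S_VD : Prop := ∀ (N l : ℕ) (q : ℂ), Par N l q → ∀ (D : Dl N l q) (a : A N l q),
  vvec N l q ᵥ* D2 D.dl D.ep a = fun x => a * vvec N l q x

/-- **TO1** (packet TO).  `delta`, `eps`, `X` and the torus.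
Proof.  `δ`, `ε`: both sides are algebra maps `A → Mat N A` in `a` (the right side is conjugation
of the entrywise image by a diagonal matrix), agree on generators (`A_hom_ext`).  `X`:
`φ(E_ba) = s_b s_a⁻¹ E_ba` (`rvA_scale`), so `φ(L_ab) = s_a⁻¹ s_b L_ab`; `φ(F°_ab) = s_a⁻¹ s_b F°_ab`
(analogue of `rvA_scale` for `rvoA`), `φ(Y_ab) = s_a⁻¹ s_b Y_ab`. -/
def S_TO1 : Prop := ∀ (N l : ℕ) (q : ℂ) (hl : l ≠ 0), Par N l q → ∀ (D : Dl N l q) (s : ℕ → ℂˣ),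
  (∀ a (i j : Fin (N + 1)), D.dl (tor N l q hl s a) i j
    = ((s i : ℂ) * (s j : ℂ)⁻¹) • tor N l q hl s (D.dl a i j)) ∧
  (∀ a (i j : Fin (N + 1)), D.ep (tor N l q hl s a) i j
    = ((s i : ℂ)⁻¹ * (s j : ℂ)) • tor N l q hl s (D.ep a i j)) ∧
  (∀ i j : Fin (N + 1), tor N l q hl s (Xm N l q i j)
    = ((s i : ℂ)⁻¹ * (s j : ℂ)) • Xm N l q i j)

/-- **TO2** (packet TO).  `S`, `T`, `u`, `v` and the torus (`X`-part of TO1 allowed as hypothesis).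
Proof.  `S x y ≠ 0` only if (`x.1 = y.2` and `x.2 = y.1`) or (`x.1 = x.2` and `y.1 = y.2`); the same for
`T`.  `u x = 0` unless `x.1 = x.2`.  `v_(p,j) = ∑ cap_ii X_ik T_((i,k),(p,j))`: a nonzero term has
`i = j, k = p` or `i = k, p = j`. -/
def S_TO2 : Prop := ∀ (N l : ℕ) (q : ℂ) (hl : l ≠ 0), Par N l q → ∀ (s : ℕ → ℂˣ),
  (∀ x y : Fin (N + 1) × Fin (N + 1), Smat N q x y ≠ 0 →
    (s x.1 : ℂ) * (s y.1 : ℂ) = (s x.2 : ℂ) * (s y.2 : ℂ)) ∧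
  (∀ x y : Fin (N + 1) × Fin (N + 1), Tmat N q x y ≠ 0 →
    (s x.1 : ℂ) * (s y.1 : ℂ) = (s x.2 : ℂ) * (s y.2 : ℂ)) ∧
  (∀ x : Fin (N + 1) × Fin (N + 1), tor N l q hl s (uvec N l q x)
    = ((s x.1 : ℂ)⁻¹ * (s x.2 : ℂ)) • uvec N l q x) ∧
  (∀ x : Fin (N + 1) × Fin (N + 1), tor N l q hl s (vvec N l q x)
    = ((s x.1 : ℂ) * (s x.2 : ℂ)⁻¹) • vvec N l q x)

/-- **TOI** (packet C0).  `tor s` is an automorphism: `tor s (tor s⁻¹ a) = a`. -/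
def S_TOI : Prop := ∀ (N l : ℕ) (q : ℂ) (hl : l ≠ 0) (s : ℕ → ℂˣ) (a : A N l q),
  tor N l q hl s (tor N l q hl s⁻¹ a) = a

/-- **C0** (packet C0; from CAP0 CUP0 CAP1 XC SM SD X2Q UD VD TO1 TO2 TOI).  The structure `Core0` for
`u_q(gl_n)`. -/
def S_C0 : Prop := ∀ (N l : ℕ) (q : ℂ) (hl : l ≠ 0), Par N l q → ∀ (D : Dl N l q) (s : ℕ → ℂˣ),
  ∃ C : Core0 (A N l q) (Fin (N + 1)), IsC0 D hl s C

end

end Pool.Agent.Helper19.SQ
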