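import Pool.Agent.Helper19.SQ.FinC
import Pool.Agent.Helper12.SQC.VD
import Pool.Agent.Helper13.SQC.SPW
import Pool.Agent.Helper14.SQC.ZREP
import Pool.Agent.Helper20.SQC.RED
import Pool.Agent.Helper22.SQC.GID
import Pool.Agent.Helper23.SQC.KERR
import Pool.Agent.Helper25.SQC.LFT
import Pool.Agent.Helper30.SQC.CLE
import Pool.Agent.Helper31.SQC.TWI
import Pool.Agent.Helper35.SQC.CLM
import Pool.Agent.Helper35.SQC.THV
import Pool.Agent.Helper36.SQC.INT
import Pool.Agent.Helper37.SQC.MOW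
import Pool.Agent.Helper39.SQC.PEC
import Pool.Agent.Helper40.SQC.GD
import Pool.Agent.Helper48.SQC.CLF
import Pool.Agent.Helper53.SQC.C1F
import Pool.Agent.Helper55.SQC.FM
import Pool.Agent.Helper57.SQC.CM1T
import Pool.Agent.Helper77.SQC.YFT
import Pool.Agent.Helper79.SQC.KWT
import Pool.Agent.Helper8.SQC.GIE
import Pool.Agent.Helper81.SQC.ZC
import Pool.Agent.Helper85.SQC.CTT
import Pool.Agent.Helper87.SQC.KM
import Pool.Agent.Helper90.SQC.CTP
import Pool.Agent.Helper95.SQC.GE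

/-!
Project SQ (MP_bb32d1_al), stage C, helper19: assembly of the family part (captain helper41).
-/

set_option autoImplicit false

namespace Pool.Agent.Helper19.SQ

open Pool.Agent.Helper41.SQC Pool.Agent.Helper4.SQ Module

theorem fSPW : S_SPW := Helper13.SQC.c_spw qLM
theorem fMOW : S_MOW := Helper37.SQC.c_mow
theorem fFM : Pool.Agent.Helper41.SQC.S_FM := Helper55.SQC.c_fm qLM
theorem fKM : S_KM := Helper87.SQC.c_km fMOW
theorem fKWT : S_KWT := Helper79.SQC.c_kwt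
theorem fVD : Pool.Agent.Helper41.SQC.S_VD := Helper12.SQC.c_vd fSPW fMOW
theorem fINT : S_INT := Helper36.SQC.c_int
theorem fZC : S_ZC := Helper81.SQC.c_zc zZB Helper35.SQ.s_zuniv zFDIM fFM fKM
theorem fCM1T : S_CM1T := Helper57.SQC.c_cm1t qROOT fKWT
theorem fPEC : S_PEC := Helper39.SQC.c_pec fCM1T qROOT fKWT
theorem fZREP : S_ZREP := Helper14.SQC.c_zrep fZC fINT fPEC
theorem fCTP : S_CTP := Helper90.SQC.c_ctp qCS qCP qHF qKI
theorem fCTT : S_CTT := Helper85.SQC.c_ctt fCTP qVREP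
theorem fGD : S_GD := Helper40.SQC.c_gd fZREP fCTT fFM fKM
theorem fGE : S_GE := Helper95.SQC.c_ge fZREP fCTT fFM fKM
theorem fGID : S_GID := Helper22.SQC.c_gid fGD fZC qCUP0
theorem fGIE : S_GIE := Helper8.SQC.c_gie fGE fZC qCUP1
theorem fTHV : S_THV := Helper35.SQC.c_thv fFM fMOW
theorem fCLF : S_CLF := Helper48.SQC.c_clf fGD fGID fTHV
theorem fCLE : S_CLE := Helper30.SQC.c_cle fGE fGIE fTHV
theorem fLFT : S_LFT := Helper25.SQC.c_lft fCM1T fKWT qROOT
theorem fYFT : S_YFT := Helper77.SQC.c_yft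
theorem fC1F : S_C1F := Helper53.SQC.c_c1f fLFT fYFT fKWT
theorem fCLM : S_CLM := Helper35.SQC.c_clm fC1F fZREP
theorem fTWI : Pool.Agent.Helper41.SQC.S_TWI := Helper31.SQC.c_twi fFM
theorem fKERR : S_KERR := Helper23.SQC.c_kerr fZREP
theorem fRED : S_RED := Helper20.SQC.c_red

/-- **the exact formula**: `l dim Z(u_q(sl_{N+1}))` is the dimension of the space of equivariant
maps from `(Z/l)^{N+1}` to the diagonal coinvariants. -/
theorem exactMain (N l : ℕ) [NeZero l] (h1 : 1 ≤ N) (hodd : Odd l) (hl : N + 3 ≤ l)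
    (hcop : Nat.Coprime (N + 1) l) (q : ℂ) (hq : IsPrimitiveRoot q l) :
    l * finrank ℂ (Subalgebra.center ℂ (Usl N l q)) = finrank ℂ (DRmaps (N + 1) l) :=
  exactC fVD fCLF fCLE fCLM fTWI fKERR fRED N l h1 hodd hl hcop q hq

end Pool.Agent.Helper19.SQ
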