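import Pool.Agent.Helper19.SQ.FinD
import Pool.Agent.Helper19.SQ.MainC
import Pool.Agent.Helper19.SQ.DimU
import Pool.Agent.Helper13.HM.CHR
import Pool.Agent.Helper13.HM.SUR
import Pool.Agent.Helper33.HM.PSI
import Pool.Agent.Helper35.HM.FXC
import Pool.Agent.Helper52.HM.PRJ
import Pool.Agent.Helper52.HM.VDM
import Pool.Agent.Helper62.HM.CYC
import Pool.Agent.Helper62.HM.HEU
import Pool.Agent.Helper66.HM.SGM
import Pool.Agent.Helper73.HM.PRM
import Pool.Agent.Helper76.HM.KIL
import Pool.Agent.Helper76.HM.TRC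
import Pool.Agent.Helper87.HM.SG1
import Pool.Agent.Helper4.HD.All
import Pool.Agent.Helper15.HU.PS
import Pool.Agent.Helper23.HU.LIN
import Pool.Agent.Helper3.HU.TRE
import Pool.Agent.Helper30.HU.DIM
import Pool.Agent.Helper32.HU.CAY
import Pool.Agent.Helper33.HU.FIN
import Pool.Agent.Helper73.HU.EE
import Pool.Agent.Helper8.HU.ML
import Pool.Agent.Helper89.HU.PHI

/-!
Project SQ (MP_bb32d1_al), helper19: the theorem of Haiman and the dimension of the centre,
without hypotheses.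
-/

set_option autoImplicit false

namespace Pool.Agent.Helper19.SQ

open Pool.Agent.Helper41.SQC Pool.Agent.Helper4.SQ Module

/-! ### the upper half (captain helper33) -/

theorem uFIN : Pool.Agent.Helper33.HU.G_FIN :=
  Pool.Agent.Helper33.HU.gFIN
    (Pool.Agent.Helper8.HU.gML Pool.Agent.Helper15.HU.gPS
      (Pool.Agent.Helper73.HU.gEE Pool.Agent.Helper15.HU.gPS) Pool.Agent.Helper89.HU.gPHI)
    Pool.Agent.Helper30.HU.gDIM Pool.Agent.Helper23.HU.gLIN Pool.Agent.Helper3.HU.gTRE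
    Pool.Agent.Helper32.HU.gCAY

/-! ### the module block -/

theorem mCHR : Pool.Agent.Helper19.HM.S_CHR := Helper13.HM.c_chr Helper76.HM.c_trc Helper35.HM.c_fxc
theorem mSGM : Pool.Agent.Helper19.HM.S_SGM := Helper66.HM.c_sgm mCHR
theorem mSG1 : Pool.Agent.Helper19.HM.S_SG1 := Helper87.HM.c_sg1 Helper52.HM.c_vdm Helper62.HM.c_heu
theorem mCYC : Pool.Agent.Helper19.HM.S_CYC := Helper62.HM.c_cyc mSGM mSG1
theorem mPRM : Pool.Agent.Helper19.HM.S_PRM := Helper73.HM.c_prm
theorem mPSI : Pool.Agent.Helper19.HM.S_PSI := Helper33.HM.c_psi mPRM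
theorem mKIL : Pool.Agent.Helper19.HM.S_KIL := Helper76.HM.c_kil mPRM mPSI
theorem mSUR : Pool.Agent.Helper19.HM.S_SUR := Helper13.HM.c_sur mPRM mPSI mKIL Helper52.HM.c_prj

/-- **the theorem of Haiman**: the diagonal coinvariants of `S_n` have dimension `(n+1)^(n-1)`,
and the character is the one of the parking functions twisted by the sign. -/
theorem haimanMain (n : ℕ) (hn : 2 ≤ n) :
    finrank ℂ (DR n) = (n + 1) ^ (n - 1) ∧ HaimanCharacter n :=
  haimanD uFIN Pool.Agent.Helper4.HD.exh_all mCYC mSUR mCHR n hn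

/-- **the dimension of the centre** of the small quantum group of `sl_{N+1}`. -/
theorem centerMain (N l : ℕ) [NeZero l] (h1 : 1 ≤ N) (hodd : Odd l) (hl : N + 3 ≤ l)
    (hcop : Nat.Coprime (N + 1) l) (q : ℂ) (hq : IsPrimitiveRoot q l) :
    (N + 2) * l * finrank ℂ (Subalgebra.center ℂ (Usl N l q)) =
      Nat.choose ((N + 2) * l) (N + 1) :=
  (centerD fVD fCLF fCLE fCLM fTWI fKERR fRED uFIN Pool.Agent.Helper4.HD.exh_all mCYC mSUR mCHR
    N l h1 hodd hl hcop q hq).2

end Pool.Agent.Helper19.SQ
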