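import Pool.Agent.Helper19.SQ.End
import Pool.Agent.Helper19.SQ.GoalsB
import Pool.Agent.Helper19.SQ.GoalsQ2

/-!
Project SQ (MP_bb32d1_al), helper19: the standing situation of section 12 exists.
-/

namespace Pool.Agent.Helper19.SQ

open Pool.Agent.Helper34.SQ

theorem sett_of (hD : S_DELTA) (hC0 : S_C0) (hCore : S_CORE) (hF : S_FDIM) (hZB : S_ZB)
    (hTRI : S_TRI) : ∀ (N l : ℕ) [NeZero l] (q : ℂ) (hl : l ≠ 0) (s : ℕ → ℂˣ), Par N l q →
      Function.Injective (tw N s) → ∃ (D : Dl N l q) (C : Core (A N l q) (Fin (N + 1)) l),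
        Sett N l q hl s D C := by
  intro N l _ q hl s hP hs
  obtain ⟨D⟩ := hD N l q hP
  obtain ⟨C0, hC0'⟩ := hC0 N l q hl hP D s
  obtain ⟨C, hC1, hC2, hC3⟩ := hCore N l q D hl s C0 hP hs hC0'
  refine ⟨D, C, ?_⟩
  refine ⟨hP, hs, ?_, hF N l q hP, ?_, ?_, ?_⟩
  · rw [hC1]; exact hC0'
  · intro M _ _ _ _ lam m v hv
    exact hC3.act M lam v m hv
  · intro lam
    exact ⟨(hZB N l q D hP lam).1, (hZB N l q D hP lam).2.1⟩
  · intro x
    exact hTRI N l q hP x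

end Pool.Agent.Helper19.SQ
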